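import Mathlib

/-!
The algebraic core: a graded identity between exponentials has no solutions.
-/

set_option autoImplicit false

namespace Pool.Agent.V11202.NH

variable {R : Type*} [CommRing R] [IsDomain R] [CharZero R]

/-- the graded identity `(A - B)² = Y P + X Q` -/
structure Gr (m n k l : ℤ) (A B X Y a b : R) : Prop where
  tot : (A - B)^2 = Y * (B^2 - (1+(a-b))*A*B + A^2*B - A*B^2 + a*A - b*B) +
    X * (A^2 - (1-(a-b))*A*B - A^2*B + A*B^2 - a*A + b*B)
  H : ∀ d : ℤ, (if 2*m = d then A^2 else 0) +
      (if m+n = d then -(2*A*B) else 0) +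
      (if 2*n = d then B^2 else 0) +
      (if l+2*n = d then -(B^2*Y) else 0) +
      (if l+m+n = d then (1+(a-b))*A*B*Y else 0) +
      (if l+2*m+n = d then -(A^2*B*Y) else 0) +
      (if l+m+2*n = d then A*B^2*Y else 0) +
      (if l+m = d then -(a*A*Y) else 0) +
      (if l+n = d then b*B*Y else 0) +
      (if k+2*m = d then -(A^2*X) else 0) +
      (if k+m+n = d then (1-(a-b))*A*B*X else 0) +
      (if k+2*m+n = d then A^2*B*X else 0) +
      (if k+m+2*n = d then -(A*B^2*X) else 0) +
      (if k+m = d then a*A*X else 0) +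
      (if k+n = d then -(b*B*X) else 0) = 0
  A0 : A ≠ 0
  B0 : B ≠ 0
  X0 : X ≠ 0
  Y0 : Y ≠ 0
  A1 : A ≠ 1
  B1 : B ≠ 1
  AB : A ≠ B
  X1 : X ≠ 1
  Y1 : Y ≠ 1
  a0 : a ≠ 0
  b0 : b ≠ 0
  ab : a * A ≠ b * B
  Aa : A ≠ a
  Bb : B ≠ b
  eqd : a = b → m = n
  f1 : A * B^2 = -1 → a + 2 * b = 0
  f2 : A^2 * B = -1 → 2 * a + b = 0

theorem Gr.xy {m n k l : ℤ} {A B X Y a b : R} (G : Gr m n k l A B X Y a b) : X ≠ Y := by
  intro h
  have h1 := G.tot
  rw [h] at h1
  have h2 : (A - B)^2 * (1 - Y) = 0 := by linear_combination h1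
  rcases mul_eq_zero.1 h2 with h3 | h3
  · exact G.AB (sub_eq_zero.1 (pow_eq_zero_iff two_ne_zero |>.1 h3))
  · exact G.Y1 (sub_eq_zero.1 h3).symm

theorem Gr.zero {m n k l : ℤ} {A B X Y a b : R} (G : Gr m n k l A B X Y a b) (hm : m = 0) (hn : n = 0) :
    k = 0 ∧ l = 0 := by
  have H := G.H
  have hS : (A - B)^2 ≠ 0 := pow_ne_zero _ (sub_ne_zero.2 G.AB)
  by_contra hcon
  by_cases hk : k = 0
  · have hl : l ≠ 0 := fun h => hcon ⟨hk, h⟩
    have h1 := H (l)
    rw [if_neg (show ¬ (2*m = l) by omega),
      if_neg (show ¬ (m+n = l) by omega),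
      if_neg (show ¬ (2*n = l) by omega),
      if_pos (show l+2*n = l by omega),
      if_pos (show l+m+n = l by omega),
      if_pos (show l+2*m+n = l by omega),
      if_pos (show l+m+2*n = l by omega),
      if_pos (show l+m = l by omega),
      if_pos (show l+n = l by omega),
      if_neg (show ¬ (k+2*m = l) by omega),
      if_neg (show ¬ (k+m+n = l) by omega),
      if_neg (show ¬ (k+2*m+n = l) by omega),
      if_neg (show ¬ (k+m+2*n = l) by omega),
      if_neg (show ¬ (k+m = l) by omega),
      if_neg (show ¬ (k+n = l) by omega)] at h1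
    simp only [add_zero, zero_add] at h1
    have hP : B^2 - (1+(a-b))*A*B + A^2*B - A*B^2 + a*A - b*B = 0 := by
      apply mul_left_cancel₀ G.Y0
      linear_combination -h1
    have ht := G.tot
    have h2 : (A - B)^2 * (1 - X) = 0 := by
      linear_combination ht - X * hP + (X - Y + Y) * hP + (Y - X) * hP
    rcases mul_eq_zero.1 h2 with h3 | h3
    · exact hS h3
    · exact G.X1 (sub_eq_zero.1 h3).symm
  · by_cases hl : l = 0
    · 
      have h1 := H (k)
      rw [if_neg (show ¬ (2*m = k) by omega),
        if_neg (show ¬ (m+n = k) by omega),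
        if_neg (show ¬ (2*n = k) by omega),
        if_neg (show ¬ (l+2*n = k) by omega),
        if_neg (show ¬ (l+m+n = k) by omega),
        if_neg (show ¬ (l+2*m+n = k) by omega),
        if_neg (show ¬ (l+m+2*n = k) by omega),
        if_neg (show ¬ (l+m = k) by omega),
        if_neg (show ¬ (l+n = k) by omega),
        if_pos (show k+2*m = k by omega),
        if_pos (show k+m+n = k by omega),
        if_pos (show k+2*m+n = k by omega),
        if_pos (show k+m+2*n = k by omega),
        if_pos (show k+m = k by omega),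
        if_pos (show k+n = k by omega)] at h1
      simp only [add_zero, zero_add] at h1
      have hQ : A^2 - (1-(a-b))*A*B - A^2*B + A*B^2 - a*A + b*B = 0 := by
        apply mul_left_cancel₀ G.X0
        linear_combination -h1
      have ht := G.tot
      have h2 : (A - B)^2 * (1 - Y) = 0 := by
        linear_combination ht + (X - Y) * hQ
      rcases mul_eq_zero.1 h2 with h3 | h3
      · exact hS h3
      · exact G.Y1 (sub_eq_zero.1 h3).symm
    · 
      have h1 := H (0)
      rw [if_pos (show 2*m = 0 by omega),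
        if_pos (show m+n = 0 by omega),
        if_pos (show 2*n = 0 by omega),
        if_neg (show ¬ (l+2*n = 0) by omega),
        if_neg (show ¬ (l+m+n = 0) by omega),
        if_neg (show ¬ (l+2*m+n = 0) by omega),
        if_neg (show ¬ (l+m+2*n = 0) by omega),
        if_neg (show ¬ (l+m = 0) by omega),
        if_neg (show ¬ (l+n = 0) by omega),
        if_neg (show ¬ (k+2*m = 0) by omega),
        if_neg (show ¬ (k+m+n = 0) by omega),
        if_neg (show ¬ (k+2*m+n = 0) by omega),
        if_neg (show ¬ (k+m+2*n = 0) by omega),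
        if_neg (show ¬ (k+m = 0) by omega),
        if_neg (show ¬ (k+n = 0) by omega)] at h1
      simp only [add_zero, zero_add] at h1
      apply hS
      linear_combination h1

theorem Gr.pos_gt {m n k l : ℤ} {A B X Y a b : R} (G : Gr m n k l A B X Y a b) (hm : n < m) (hn : 0 < n) :
    False := by
  have H := G.H
  have t1 : A^2*B*Y ≠ 0 := mul_ne_zero (mul_ne_zero (pow_ne_zero _ G.A0) G.B0) G.Y0
  have t2 : A^2*B*X ≠ 0 := mul_ne_zero (mul_ne_zero (pow_ne_zero _ G.A0) G.B0) G.X0
  have t3 : b*B*Y ≠ 0 := mul_ne_zero (mul_ne_zero G.b0 G.B0) G.Y0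
  have t4 : b*B*X ≠ 0 := mul_ne_zero (mul_ne_zero G.b0 G.B0) G.X0
  rcases lt_trichotomy l k with h | h | h
  · by_cases h' : k + 2*m+n > 2*m
    · 
      have h1 := H (k+2*m+n)
      rw [if_neg (show ¬ (2*m = k+2*m+n) by omega),
        if_neg (show ¬ (m+n = k+2*m+n) by omega),
        if_neg (show ¬ (2*n = k+2*m+n) by omega),
        if_neg (show ¬ (l+2*n = k+2*m+n) by omega),
        if_neg (show ¬ (l+m+n = k+2*m+n) by omega),
        if_neg (show ¬ (l+2*m+n = k+2*m+n) by omega),
        if_neg (show ¬ (l+m+2*n = k+2*m+n) by omega),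
        if_neg (show ¬ (l+m = k+2*m+n) by omega),
        if_neg (show ¬ (l+n = k+2*m+n) by omega),
        if_neg (show ¬ (k+2*m = k+2*m+n) by omega),
        if_neg (show ¬ (k+m+n = k+2*m+n) by omega),
        if_pos (show k+2*m+n = k+2*m+n by omega),
        if_neg (show ¬ (k+m+2*n = k+2*m+n) by omega),
        if_neg (show ¬ (k+m = k+2*m+n) by omega),
        if_neg (show ¬ (k+n = k+2*m+n) by omega)] at h1
      simp only [add_zero, zero_add] at h1
      exact t2 h1
    · 
      have h1 := H (l+n)
      rw [if_neg (show ¬ (2*m = l+n) by omega),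
        if_neg (show ¬ (m+n = l+n) by omega),
        if_neg (show ¬ (2*n = l+n) by omega),
        if_neg (show ¬ (l+2*n = l+n) by omega),
        if_neg (show ¬ (l+m+n = l+n) by omega),
        if_neg (show ¬ (l+2*m+n = l+n) by omega),
        if_neg (show ¬ (l+m+2*n = l+n) by omega),
        if_neg (show ¬ (l+m = l+n) by omega),
        if_pos (show l+n = l+n by omega),
        if_neg (show ¬ (k+2*m = l+n) by omega),
        if_neg (show ¬ (k+m+n = l+n) by omega),
        if_neg (show ¬ (k+2*m+n = l+n) by omega),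
        if_neg (show ¬ (k+m+2*n = l+n) by omega),
        if_neg (show ¬ (k+m = l+n) by omega),
        if_neg (show ¬ (k+n = l+n) by omega)] at h1
      simp only [add_zero, zero_add] at h1
      exact t3 h1
  · by_cases h' : k + 2*m+n > 2*m
    · 
      have h1 := H (k+2*m+n)
      rw [if_neg (show ¬ (2*m = k+2*m+n) by omega),
        if_neg (show ¬ (m+n = k+2*m+n) by omega),
        if_neg (show ¬ (2*n = k+2*m+n) by omega),
        if_neg (show ¬ (l+2*n = k+2*m+n) by omega),
        if_neg (show ¬ (l+m+n = k+2*m+n) by omega),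
        if_pos (show l+2*m+n = k+2*m+n by omega),
        if_neg (show ¬ (l+m+2*n = k+2*m+n) by omega),
        if_neg (show ¬ (l+m = k+2*m+n) by omega),
        if_neg (show ¬ (l+n = k+2*m+n) by omega),
        if_neg (show ¬ (k+2*m = k+2*m+n) by omega),
        if_neg (show ¬ (k+m+n = k+2*m+n) by omega),
        if_pos (show k+2*m+n = k+2*m+n by omega),
        if_neg (show ¬ (k+m+2*n = k+2*m+n) by omega),
        if_neg (show ¬ (k+m = k+2*m+n) by omega),
        if_neg (show ¬ (k+n = k+2*m+n) by omega)] at h1
      simp only [add_zero, zero_add] at h1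
      have h2 : A^2*B*(X - Y) = 0 := by linear_combination h1
      rcases mul_eq_zero.1 h2 with h3 | h3
      · exact (mul_ne_zero (pow_ne_zero _ G.A0) G.B0) h3
      · exact G.xy (sub_eq_zero.1 h3)
    · 
      have h1 := H (k+n)
      rw [if_neg (show ¬ (2*m = k+n) by omega),
        if_neg (show ¬ (m+n = k+n) by omega),
        if_neg (show ¬ (2*n = k+n) by omega),
        if_neg (show ¬ (l+2*n = k+n) by omega),
        if_neg (show ¬ (l+m+n = k+n) by omega),
        if_neg (show ¬ (l+2*m+n = k+n) by omega),
        if_neg (show ¬ (l+m+2*n = k+n) by omega),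
        if_neg (show ¬ (l+m = k+n) by omega),
        if_pos (show l+n = k+n by omega),
        if_neg (show ¬ (k+2*m = k+n) by omega),
        if_neg (show ¬ (k+m+n = k+n) by omega),
        if_neg (show ¬ (k+2*m+n = k+n) by omega),
        if_neg (show ¬ (k+m+2*n = k+n) by omega),
        if_neg (show ¬ (k+m = k+n) by omega),
        if_pos (show k+n = k+n by omega)] at h1
      simp only [add_zero, zero_add] at h1
      have h2 : b*B*(X - Y) = 0 := by linear_combination -h1
      rcases mul_eq_zero.1 h2 with h3 | h3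
      · exact (mul_ne_zero G.b0 G.B0) h3
      · exact G.xy (sub_eq_zero.1 h3)
  · by_cases h' : l + 2*m+n > 2*m
    · 
      have h1 := H (l+2*m+n)
      rw [if_neg (show ¬ (2*m = l+2*m+n) by omega),
        if_neg (show ¬ (m+n = l+2*m+n) by omega),
        if_neg (show ¬ (2*n = l+2*m+n) by omega),
        if_neg (show ¬ (l+2*n = l+2*m+n) by omega),
        if_neg (show ¬ (l+m+n = l+2*m+n) by omega),
        if_pos (show l+2*m+n = l+2*m+n by omega),
        if_neg (show ¬ (l+m+2*n = l+2*m+n) by omega),
        if_neg (show ¬ (l+m = l+2*m+n) by omega),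
        if_neg (show ¬ (l+n = l+2*m+n) by omega),
        if_neg (show ¬ (k+2*m = l+2*m+n) by omega),
        if_neg (show ¬ (k+m+n = l+2*m+n) by omega),
        if_neg (show ¬ (k+2*m+n = l+2*m+n) by omega),
        if_neg (show ¬ (k+m+2*n = l+2*m+n) by omega),
        if_neg (show ¬ (k+m = l+2*m+n) by omega),
        if_neg (show ¬ (k+n = l+2*m+n) by omega)] at h1
      simp only [add_zero, zero_add] at h1
      exact t1 (by linear_combination -h1)
    · 
      have h1 := H (k+n)
      rw [if_neg (show ¬ (2*m = k+n) by omega),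
        if_neg (show ¬ (m+n = k+n) by omega),
        if_neg (show ¬ (2*n = k+n) by omega),
        if_neg (show ¬ (l+2*n = k+n) by omega),
        if_neg (show ¬ (l+m+n = k+n) by omega),
        if_neg (show ¬ (l+2*m+n = k+n) by omega),
        if_neg (show ¬ (l+m+2*n = k+n) by omega),
        if_neg (show ¬ (l+m = k+n) by omega),
        if_neg (show ¬ (l+n = k+n) by omega),
        if_neg (show ¬ (k+2*m = k+n) by omega),
        if_neg (show ¬ (k+m+n = k+n) by omega),
        if_neg (show ¬ (k+2*m+n = k+n) by omega),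
        if_neg (show ¬ (k+m+2*n = k+n) by omega),
        if_neg (show ¬ (k+m = k+n) by omega),
        if_pos (show k+n = k+n by omega)] at h1
      simp only [add_zero, zero_add] at h1
      exact t4 (by linear_combination -h1)

theorem Gr.pos_eq {m n k l : ℤ} {A B X Y a b : R} (G : Gr m n k l A B X Y a b) (hm : m = n) (hn : 0 < n) :
    False := by
  have H := G.H
  have u1 : A * B * (A - B) ≠ 0 := mul_ne_zero (mul_ne_zero G.A0 G.B0) (sub_ne_zero.2 G.AB)
  have u2 : a * A - b * B ≠ 0 := sub_ne_zero.2 G.ab
  rcases lt_trichotomy l k with h | h | h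
  · by_cases h' : k + 2*m+n > 2*m
    · 
      have h1 := H (k+2*m+n)
      rw [if_neg (show ¬ (2*m = k+2*m+n) by omega),
        if_neg (show ¬ (m+n = k+2*m+n) by omega),
        if_neg (show ¬ (2*n = k+2*m+n) by omega),
        if_neg (show ¬ (l+2*n = k+2*m+n) by omega),
        if_neg (show ¬ (l+m+n = k+2*m+n) by omega),
        if_neg (show ¬ (l+2*m+n = k+2*m+n) by omega),
        if_neg (show ¬ (l+m+2*n = k+2*m+n) by omega),
        if_neg (show ¬ (l+m = k+2*m+n) by omega),
        if_neg (show ¬ (l+n = k+2*m+n) by omega),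
        if_neg (show ¬ (k+2*m = k+2*m+n) by omega),
        if_neg (show ¬ (k+m+n = k+2*m+n) by omega),
        if_pos (show k+2*m+n = k+2*m+n by omega),
        if_pos (show k+m+2*n = k+2*m+n by omega),
        if_neg (show ¬ (k+m = k+2*m+n) by omega),
        if_neg (show ¬ (k+n = k+2*m+n) by omega)] at h1
      simp only [add_zero, zero_add] at h1
      exact mul_ne_zero u1 G.X0 (by linear_combination h1)
    · 
      have h1 := H (l+n)
      rw [if_neg (show ¬ (2*m = l+n) by omega),
        if_neg (show ¬ (m+n = l+n) by omega),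
        if_neg (show ¬ (2*n = l+n) by omega),
        if_neg (show ¬ (l+2*n = l+n) by omega),
        if_neg (show ¬ (l+m+n = l+n) by omega),
        if_neg (show ¬ (l+2*m+n = l+n) by omega),
        if_neg (show ¬ (l+m+2*n = l+n) by omega),
        if_pos (show l+m = l+n by omega),
        if_pos (show l+n = l+n by omega),
        if_neg (show ¬ (k+2*m = l+n) by omega),
        if_neg (show ¬ (k+m+n = l+n) by omega),
        if_neg (show ¬ (k+2*m+n = l+n) by omega),
        if_neg (show ¬ (k+m+2*n = l+n) by omega),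
        if_neg (show ¬ (k+m = l+n) by omega),
        if_neg (show ¬ (k+n = l+n) by omega)] at h1
      simp only [add_zero, zero_add] at h1
      exact mul_ne_zero u2 G.Y0 (by linear_combination -h1)
  · by_cases h' : k + 2*m+n > 2*m
    · 
      have h1 := H (k+2*m+n)
      rw [if_neg (show ¬ (2*m = k+2*m+n) by omega),
        if_neg (show ¬ (m+n = k+2*m+n) by omega),
        if_neg (show ¬ (2*n = k+2*m+n) by omega),
        if_neg (show ¬ (l+2*n = k+2*m+n) by omega),
        if_neg (show ¬ (l+m+n = k+2*m+n) by omega),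
        if_pos (show l+2*m+n = k+2*m+n by omega),
        if_pos (show l+m+2*n = k+2*m+n by omega),
        if_neg (show ¬ (l+m = k+2*m+n) by omega),
        if_neg (show ¬ (l+n = k+2*m+n) by omega),
        if_neg (show ¬ (k+2*m = k+2*m+n) by omega),
        if_neg (show ¬ (k+m+n = k+2*m+n) by omega),
        if_pos (show k+2*m+n = k+2*m+n by omega),
        if_pos (show k+m+2*n = k+2*m+n by omega),
        if_neg (show ¬ (k+m = k+2*m+n) by omega),
        if_neg (show ¬ (k+n = k+2*m+n) by omega)] at h1
      simp only [add_zero, zero_add] at h1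
      have h2 : A * B * (A - B)*(X - Y) = 0 := by linear_combination h1
      rcases mul_eq_zero.1 h2 with h3 | h3
      · exact u1 h3
      · exact G.xy (sub_eq_zero.1 h3)
    · 
      have h1 := H (k+n)
      rw [if_neg (show ¬ (2*m = k+n) by omega),
        if_neg (show ¬ (m+n = k+n) by omega),
        if_neg (show ¬ (2*n = k+n) by omega),
        if_neg (show ¬ (l+2*n = k+n) by omega),
        if_neg (show ¬ (l+m+n = k+n) by omega),
        if_neg (show ¬ (l+2*m+n = k+n) by omega),
        if_neg (show ¬ (l+m+2*n = k+n) by omega),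
        if_pos (show l+m = k+n by omega),
        if_pos (show l+n = k+n by omega),
        if_neg (show ¬ (k+2*m = k+n) by omega),
        if_neg (show ¬ (k+m+n = k+n) by omega),
        if_neg (show ¬ (k+2*m+n = k+n) by omega),
        if_neg (show ¬ (k+m+2*n = k+n) by omega),
        if_pos (show k+m = k+n by omega),
        if_pos (show k+n = k+n by omega)] at h1
      simp only [add_zero, zero_add] at h1
      have h2 : (a * A - b * B)*(X - Y) = 0 := by linear_combination h1
      rcases mul_eq_zero.1 h2 with h3 | h3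
      · exact u2 h3
      · exact G.xy (sub_eq_zero.1 h3)
  · by_cases h' : l + 2*m+n > 2*m
    · 
      have h1 := H (l+2*m+n)
      rw [if_neg (show ¬ (2*m = l+2*m+n) by omega),
        if_neg (show ¬ (m+n = l+2*m+n) by omega),
        if_neg (show ¬ (2*n = l+2*m+n) by omega),
        if_neg (show ¬ (l+2*n = l+2*m+n) by omega),
        if_neg (show ¬ (l+m+n = l+2*m+n) by omega),
        if_pos (show l+2*m+n = l+2*m+n by omega),
        if_pos (show l+m+2*n = l+2*m+n by omega),
        if_neg (show ¬ (l+m = l+2*m+n) by omega),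
        if_neg (show ¬ (l+n = l+2*m+n) by omega),
        if_neg (show ¬ (k+2*m = l+2*m+n) by omega),
        if_neg (show ¬ (k+m+n = l+2*m+n) by omega),
        if_neg (show ¬ (k+2*m+n = l+2*m+n) by omega),
        if_neg (show ¬ (k+m+2*n = l+2*m+n) by omega),
        if_neg (show ¬ (k+m = l+2*m+n) by omega),
        if_neg (show ¬ (k+n = l+2*m+n) by omega)] at h1
      simp only [add_zero, zero_add] at h1
      exact mul_ne_zero u1 G.Y0 (by linear_combination -h1)
    · 
      have h1 := H (k+n)
      rw [if_neg (show ¬ (2*m = k+n) by omega),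
        if_neg (show ¬ (m+n = k+n) by omega),
        if_neg (show ¬ (2*n = k+n) by omega),
        if_neg (show ¬ (l+2*n = k+n) by omega),
        if_neg (show ¬ (l+m+n = k+n) by omega),
        if_neg (show ¬ (l+2*m+n = k+n) by omega),
        if_neg (show ¬ (l+m+2*n = k+n) by omega),
        if_neg (show ¬ (l+m = k+n) by omega),
        if_neg (show ¬ (l+n = k+n) by omega),
        if_neg (show ¬ (k+2*m = k+n) by omega),
        if_neg (show ¬ (k+m+n = k+n) by omega),
        if_neg (show ¬ (k+2*m+n = k+n) by omega),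
        if_neg (show ¬ (k+m+2*n = k+n) by omega),
        if_pos (show k+m = k+n by omega),
        if_pos (show k+n = k+n by omega)] at h1
      simp only [add_zero, zero_add] at h1
      exact mul_ne_zero u2 G.X0 (by linear_combination h1)

theorem Gr.half {m n k l : ℤ} {A B X Y a b : R} (G : Gr m n k l A B X Y a b) (hm : m = 0) (hn : 0 < n) :
    False := by
  have H := G.H
  have A2 : A^2 ≠ 0 := pow_ne_zero _ G.A0
  have B2 : B^2 ≠ 0 := pow_ne_zero _ G.B0
  by_cases c1 : 0 < l ∧ 0 < k
  · 
    have h1 := H (0)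
    rw [if_pos (show 2*m = 0 by omega),
      if_neg (show ¬ (m+n = 0) by omega),
      if_neg (show ¬ (2*n = 0) by omega),
      if_neg (show ¬ (l+2*n = 0) by omega),
      if_neg (show ¬ (l+m+n = 0) by omega),
      if_neg (show ¬ (l+2*m+n = 0) by omega),
      if_neg (show ¬ (l+m+2*n = 0) by omega),
      if_neg (show ¬ (l+m = 0) by omega),
      if_neg (show ¬ (l+n = 0) by omega),
      if_neg (show ¬ (k+2*m = 0) by omega),
      if_neg (show ¬ (k+m+n = 0) by omega),
      if_neg (show ¬ (k+2*m+n = 0) by omega),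
      if_neg (show ¬ (k+m+2*n = 0) by omega),
      if_neg (show ¬ (k+m = 0) by omega),
      if_neg (show ¬ (k+n = 0) by omega)] at h1
    simp only [add_zero, zero_add] at h1
    exact A2 h1
  by_cases c2 : l < 0 ∧ k < 0
  · 
    have h1 := H (2*n)
    rw [if_neg (show ¬ (2*m = 2*n) by omega),
      if_neg (show ¬ (m+n = 2*n) by omega),
      if_pos (show 2*n = 2*n by omega),
      if_neg (show ¬ (l+2*n = 2*n) by omega),
      if_neg (show ¬ (l+m+n = 2*n) by omega),
      if_neg (show ¬ (l+2*m+n = 2*n) by omega),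
      if_neg (show ¬ (l+m+2*n = 2*n) by omega),
      if_neg (show ¬ (l+m = 2*n) by omega),
      if_neg (show ¬ (l+n = 2*n) by omega),
      if_neg (show ¬ (k+2*m = 2*n) by omega),
      if_neg (show ¬ (k+m+n = 2*n) by omega),
      if_neg (show ¬ (k+2*m+n = 2*n) by omega),
      if_neg (show ¬ (k+m+2*n = 2*n) by omega),
      if_neg (show ¬ (k+m = 2*n) by omega),
      if_neg (show ¬ (k+n = 2*n) by omega)] at h1
    simp only [add_zero, zero_add] at h1
    exact B2 h1
  by_cases c3 : 0 < l ∧ k ≤ 0
  · 
    have h1 := H (l+2*n)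
    rw [if_neg (show ¬ (2*m = l+2*n) by omega),
      if_neg (show ¬ (m+n = l+2*n) by omega),
      if_neg (show ¬ (2*n = l+2*n) by omega),
      if_pos (show l+2*n = l+2*n by omega),
      if_neg (show ¬ (l+m+n = l+2*n) by omega),
      if_neg (show ¬ (l+2*m+n = l+2*n) by omega),
      if_pos (show l+m+2*n = l+2*n by omega),
      if_neg (show ¬ (l+m = l+2*n) by omega),
      if_neg (show ¬ (l+n = l+2*n) by omega),
      if_neg (show ¬ (k+2*m = l+2*n) by omega),
      if_neg (show ¬ (k+m+n = l+2*n) by omega),
      if_neg (show ¬ (k+2*m+n = l+2*n) by omega),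
      if_neg (show ¬ (k+m+2*n = l+2*n) by omega),
      if_neg (show ¬ (k+m = l+2*n) by omega),
      if_neg (show ¬ (k+n = l+2*n) by omega)] at h1
    simp only [add_zero, zero_add] at h1
    exact mul_ne_zero (mul_ne_zero B2 (sub_ne_zero.2 G.A1)) G.Y0 (by linear_combination h1)
  by_cases c4 : 0 < k ∧ l ≤ 0
  · 
    have h1 := H (k+2*n)
    rw [if_neg (show ¬ (2*m = k+2*n) by omega),
      if_neg (show ¬ (m+n = k+2*n) by omega),
      if_neg (show ¬ (2*n = k+2*n) by omega),
      if_neg (show ¬ (l+2*n = k+2*n) by omega),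
      if_neg (show ¬ (l+m+n = k+2*n) by omega),
      if_neg (show ¬ (l+2*m+n = k+2*n) by omega),
      if_neg (show ¬ (l+m+2*n = k+2*n) by omega),
      if_neg (show ¬ (l+m = k+2*n) by omega),
      if_neg (show ¬ (l+n = k+2*n) by omega),
      if_neg (show ¬ (k+2*m = k+2*n) by omega),
      if_neg (show ¬ (k+m+n = k+2*n) by omega),
      if_neg (show ¬ (k+2*m+n = k+2*n) by omega),
      if_pos (show k+m+2*n = k+2*n by omega),
      if_neg (show ¬ (k+m = k+2*n) by omega),
      if_neg (show ¬ (k+n = k+2*n) by omega)] at h1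
    simp only [add_zero, zero_add] at h1
    exact mul_ne_zero (mul_ne_zero G.A0 B2) G.X0 (by linear_combination -h1)
  by_cases c5 : l < 0
  · 
    have h1 := H (l)
    rw [if_neg (show ¬ (2*m = l) by omega),
      if_neg (show ¬ (m+n = l) by omega),
      if_neg (show ¬ (2*n = l) by omega),
      if_neg (show ¬ (l+2*n = l) by omega),
      if_neg (show ¬ (l+m+n = l) by omega),
      if_neg (show ¬ (l+2*m+n = l) by omega),
      if_neg (show ¬ (l+m+2*n = l) by omega),
      if_pos (show l+m = l by omega),
      if_neg (show ¬ (l+n = l) by omega),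
      if_neg (show ¬ (k+2*m = l) by omega),
      if_neg (show ¬ (k+m+n = l) by omega),
      if_neg (show ¬ (k+2*m+n = l) by omega),
      if_neg (show ¬ (k+m+2*n = l) by omega),
      if_neg (show ¬ (k+m = l) by omega),
      if_neg (show ¬ (k+n = l) by omega)] at h1
    simp only [add_zero, zero_add] at h1
    exact mul_ne_zero (mul_ne_zero G.a0 G.A0) G.Y0 (by linear_combination -h1)
  by_cases c6 : k < 0
  · 
    have h1 := H (k)
    rw [if_neg (show ¬ (2*m = k) by omega),
      if_neg (show ¬ (m+n = k) by omega),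
      if_neg (show ¬ (2*n = k) by omega),
      if_neg (show ¬ (l+2*n = k) by omega),
      if_neg (show ¬ (l+m+n = k) by omega),
      if_neg (show ¬ (l+2*m+n = k) by omega),
      if_neg (show ¬ (l+m+2*n = k) by omega),
      if_neg (show ¬ (l+m = k) by omega),
      if_neg (show ¬ (l+n = k) by omega),
      if_pos (show k+2*m = k by omega),
      if_neg (show ¬ (k+m+n = k) by omega),
      if_neg (show ¬ (k+2*m+n = k) by omega),
      if_neg (show ¬ (k+m+2*n = k) by omega),
      if_pos (show k+m = k by omega),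
      if_neg (show ¬ (k+n = k) by omega)] at h1
    simp only [add_zero, zero_add] at h1
    exact mul_ne_zero (mul_ne_zero G.A0 (sub_ne_zero.2 G.Aa)) G.X0 (by linear_combination -h1)
  have h1 := H (2*n)
  rw [if_neg (show ¬ (2*m = 2*n) by omega),
    if_neg (show ¬ (m+n = 2*n) by omega),
    if_pos (show 2*n = 2*n by omega),
    if_pos (show l+2*n = 2*n by omega),
    if_neg (show ¬ (l+m+n = 2*n) by omega),
    if_neg (show ¬ (l+2*m+n = 2*n) by omega),
    if_pos (show l+m+2*n = 2*n by omega),
    if_neg (show ¬ (l+m = 2*n) by omega),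
    if_neg (show ¬ (l+n = 2*n) by omega),
    if_neg (show ¬ (k+2*m = 2*n) by omega),
    if_neg (show ¬ (k+m+n = 2*n) by omega),
    if_neg (show ¬ (k+2*m+n = 2*n) by omega),
    if_pos (show k+m+2*n = 2*n by omega),
    if_neg (show ¬ (k+m = 2*n) by omega),
    if_neg (show ¬ (k+n = 2*n) by omega)] at h1
  simp only [add_zero, zero_add] at h1
  have h2 := H (n)
  rw [if_neg (show ¬ (2*m = n) by omega),
    if_pos (show m+n = n by omega),
    if_neg (show ¬ (2*n = n) by omega),
    if_neg (show ¬ (l+2*n = n) by omega),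
    if_pos (show l+m+n = n by omega),
    if_pos (show l+2*m+n = n by omega),
    if_neg (show ¬ (l+m+2*n = n) by omega),
    if_neg (show ¬ (l+m = n) by omega),
    if_pos (show l+n = n by omega),
    if_neg (show ¬ (k+2*m = n) by omega),
    if_pos (show k+m+n = n by omega),
    if_pos (show k+2*m+n = n by omega),
    if_neg (show ¬ (k+m+2*n = n) by omega),
    if_neg (show ¬ (k+m = n) by omega),
    if_pos (show k+n = n by omega)] at h2
  simp only [add_zero, zero_add] at h2
  have h3 := H (0)
  rw [if_pos (show 2*m = 0 by omega),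
    if_neg (show ¬ (m+n = 0) by omega),
    if_neg (show ¬ (2*n = 0) by omega),
    if_neg (show ¬ (l+2*n = 0) by omega),
    if_neg (show ¬ (l+m+n = 0) by omega),
    if_neg (show ¬ (l+2*m+n = 0) by omega),
    if_neg (show ¬ (l+m+2*n = 0) by omega),
    if_pos (show l+m = 0 by omega),
    if_neg (show ¬ (l+n = 0) by omega),
    if_pos (show k+2*m = 0 by omega),
    if_neg (show ¬ (k+m+n = 0) by omega),
    if_neg (show ¬ (k+2*m+n = 0) by omega),
    if_neg (show ¬ (k+m+2*n = 0) by omega),
    if_pos (show k+m = 0 by omega),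
    if_neg (show ¬ (k+n = 0) by omega)] at h3
  simp only [add_zero, zero_add] at h3
  have e1 : 1 - Y * (1 - A) - X * A = 0 := by
    apply mul_left_cancel₀ B2
    linear_combination h1
  have e3 : A - Y * a - X * (A - a) = 0 := by
    apply mul_left_cancel₀ G.A0
    linear_combination h3
  have e2 : -2 * A + Y * ((1 + (a-b)) * A - A^2 + b) + X * ((1 - (a-b)) * A + A^2 - b) = 0 := by
    apply mul_left_cancel₀ G.B0
    linear_combination h2
  have hd : X - Y ≠ 0 := sub_ne_zero.2 G.xy
  have e4 : a = A * (1 - A) := by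
    apply mul_left_cancel₀ hd
    linear_combination -A * e1 + e3
  have e5 : (1 - (a-b)) * A - A^2 - b = 0 := by
    apply mul_left_cancel₀ hd
    linear_combination e2 + (2 * A) * e1
  have e6 : b = A * (1 - A) := by
    apply mul_left_cancel₀ (sub_ne_zero.2 G.A1)
    linear_combination e5 + A * e4
  have := G.eqd (e4.trans e6.symm)
  omega

theorem Gr.opp_gt {m n k l : ℤ} {A B X Y a b : R} (G : Gr m n k l A B X Y a b) (hn : n < 0) (hm : -n < m) :
    False := by
  have H := G.H
  have A2 : A^2 ≠ 0 := pow_ne_zero _ G.A0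
  have B2 : B^2 ≠ 0 := pow_ne_zero _ G.B0
  by_cases c1 : l > -n ∧ l + n > k
  · 
    have h1 := H (l+2*m+n)
    rw [if_neg (show ¬ (2*m = l+2*m+n) by omega),
      if_neg (show ¬ (m+n = l+2*m+n) by omega),
      if_neg (show ¬ (2*n = l+2*m+n) by omega),
      if_neg (show ¬ (l+2*n = l+2*m+n) by omega),
      if_neg (show ¬ (l+m+n = l+2*m+n) by omega),
      if_pos (show l+2*m+n = l+2*m+n by omega),
      if_neg (show ¬ (l+m+2*n = l+2*m+n) by omega),
      if_neg (show ¬ (l+m = l+2*m+n) by omega),
      if_neg (show ¬ (l+n = l+2*m+n) by omega),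
      if_neg (show ¬ (k+2*m = l+2*m+n) by omega),
      if_neg (show ¬ (k+m+n = l+2*m+n) by omega),
      if_neg (show ¬ (k+2*m+n = l+2*m+n) by omega),
      if_neg (show ¬ (k+m+2*n = l+2*m+n) by omega),
      if_neg (show ¬ (k+m = l+2*m+n) by omega),
      if_neg (show ¬ (k+n = l+2*m+n) by omega)] at h1
    simp only [add_zero, zero_add] at h1
    exact mul_ne_zero (mul_ne_zero A2 G.B0) G.Y0 (by linear_combination -h1)
  by_cases c2 : k > 0 ∧ k > l + n
  · 
    have h1 := H (k+2*m)
    rw [if_neg (show ¬ (2*m = k+2*m) by omega),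
      if_neg (show ¬ (m+n = k+2*m) by omega),
      if_neg (show ¬ (2*n = k+2*m) by omega),
      if_neg (show ¬ (l+2*n = k+2*m) by omega),
      if_neg (show ¬ (l+m+n = k+2*m) by omega),
      if_neg (show ¬ (l+2*m+n = k+2*m) by omega),
      if_neg (show ¬ (l+m+2*n = k+2*m) by omega),
      if_neg (show ¬ (l+m = k+2*m) by omega),
      if_neg (show ¬ (l+n = k+2*m) by omega),
      if_pos (show k+2*m = k+2*m by omega),
      if_neg (show ¬ (k+m+n = k+2*m) by omega),
      if_neg (show ¬ (k+2*m+n = k+2*m) by omega),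
      if_neg (show ¬ (k+m+2*n = k+2*m) by omega),
      if_neg (show ¬ (k+m = k+2*m) by omega),
      if_neg (show ¬ (k+n = k+2*m) by omega)] at h1
    simp only [add_zero, zero_add] at h1
    exact mul_ne_zero A2 G.X0 (by linear_combination -h1)
  by_cases c3 : l < -n ∧ k < 0
  · 
    have h1 := H (2*m)
    rw [if_pos (show 2*m = 2*m by omega),
      if_neg (show ¬ (m+n = 2*m) by omega),
      if_neg (show ¬ (2*n = 2*m) by omega),
      if_neg (show ¬ (l+2*n = 2*m) by omega),
      if_neg (show ¬ (l+m+n = 2*m) by omega),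
      if_neg (show ¬ (l+2*m+n = 2*m) by omega),
      if_neg (show ¬ (l+m+2*n = 2*m) by omega),
      if_neg (show ¬ (l+m = 2*m) by omega),
      if_neg (show ¬ (l+n = 2*m) by omega),
      if_neg (show ¬ (k+2*m = 2*m) by omega),
      if_neg (show ¬ (k+m+n = 2*m) by omega),
      if_neg (show ¬ (k+2*m+n = 2*m) by omega),
      if_neg (show ¬ (k+m+2*n = 2*m) by omega),
      if_neg (show ¬ (k+m = 2*m) by omega),
      if_neg (show ¬ (k+n = 2*m) by omega)] at h1
    simp only [add_zero, zero_add] at h1
    exact A2 h1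
  by_cases c4 : l > 0 ∧ k > n
  · 
    have h1 := H (2*n)
    rw [if_neg (show ¬ (2*m = 2*n) by omega),
      if_neg (show ¬ (m+n = 2*n) by omega),
      if_pos (show 2*n = 2*n by omega),
      if_neg (show ¬ (l+2*n = 2*n) by omega),
      if_neg (show ¬ (l+m+n = 2*n) by omega),
      if_neg (show ¬ (l+2*m+n = 2*n) by omega),
      if_neg (show ¬ (l+m+2*n = 2*n) by omega),
      if_neg (show ¬ (l+m = 2*n) by omega),
      if_neg (show ¬ (l+n = 2*n) by omega),
      if_neg (show ¬ (k+2*m = 2*n) by omega),
      if_neg (show ¬ (k+m+n = 2*n) by omega),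
      if_neg (show ¬ (k+2*m+n = 2*n) by omega),
      if_neg (show ¬ (k+m+2*n = 2*n) by omega),
      if_neg (show ¬ (k+m = 2*n) by omega),
      if_neg (show ¬ (k+n = 2*n) by omega)] at h1
    simp only [add_zero, zero_add] at h1
    exact B2 h1
  by_cases c5 : l < 0 ∧ l + n < k
  · 
    have h1 := H (l+2*n)
    rw [if_neg (show ¬ (2*m = l+2*n) by omega),
      if_neg (show ¬ (m+n = l+2*n) by omega),
      if_neg (show ¬ (2*n = l+2*n) by omega),
      if_pos (show l+2*n = l+2*n by omega),
      if_neg (show ¬ (l+m+n = l+2*n) by omega),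
      if_neg (show ¬ (l+2*m+n = l+2*n) by omega),
      if_neg (show ¬ (l+m+2*n = l+2*n) by omega),
      if_neg (show ¬ (l+m = l+2*n) by omega),
      if_neg (show ¬ (l+n = l+2*n) by omega),
      if_neg (show ¬ (k+2*m = l+2*n) by omega),
      if_neg (show ¬ (k+m+n = l+2*n) by omega),
      if_neg (show ¬ (k+2*m+n = l+2*n) by omega),
      if_neg (show ¬ (k+m+2*n = l+2*n) by omega),
      if_neg (show ¬ (k+m = l+2*n) by omega),
      if_neg (show ¬ (k+n = l+2*n) by omega)] at h1
    simp only [add_zero, zero_add] at h1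
    exact mul_ne_zero B2 G.Y0 (by linear_combination -h1)
  by_cases c6 : k < n ∧ k < l + n
  · 
    have h1 := H (k+n)
    rw [if_neg (show ¬ (2*m = k+n) by omega),
      if_neg (show ¬ (m+n = k+n) by omega),
      if_neg (show ¬ (2*n = k+n) by omega),
      if_neg (show ¬ (l+2*n = k+n) by omega),
      if_neg (show ¬ (l+m+n = k+n) by omega),
      if_neg (show ¬ (l+2*m+n = k+n) by omega),
      if_neg (show ¬ (l+m+2*n = k+n) by omega),
      if_neg (show ¬ (l+m = k+n) by omega),
      if_neg (show ¬ (l+n = k+n) by omega),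
      if_neg (show ¬ (k+2*m = k+n) by omega),
      if_neg (show ¬ (k+m+n = k+n) by omega),
      if_neg (show ¬ (k+2*m+n = k+n) by omega),
      if_neg (show ¬ (k+m+2*n = k+n) by omega),
      if_neg (show ¬ (k+m = k+n) by omega),
      if_pos (show k+n = k+n by omega)] at h1
    simp only [add_zero, zero_add] at h1
    exact mul_ne_zero (mul_ne_zero G.b0 G.B0) G.X0 (by linear_combination -h1)
  have hc : (k = 0 ∧ l = 0) ∨ (k = n ∧ l = -n) := by omega
  rcases hc with ⟨hk, hl⟩ | ⟨hk, hl⟩
  · 
    have h1 := H (2*m)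
    rw [if_pos (show 2*m = 2*m by omega),
      if_neg (show ¬ (m+n = 2*m) by omega),
      if_neg (show ¬ (2*n = 2*m) by omega),
      if_neg (show ¬ (l+2*n = 2*m) by omega),
      if_neg (show ¬ (l+m+n = 2*m) by omega),
      if_neg (show ¬ (l+2*m+n = 2*m) by omega),
      if_neg (show ¬ (l+m+2*n = 2*m) by omega),
      if_neg (show ¬ (l+m = 2*m) by omega),
      if_neg (show ¬ (l+n = 2*m) by omega),
      if_pos (show k+2*m = 2*m by omega),
      if_neg (show ¬ (k+m+n = 2*m) by omega),
      if_neg (show ¬ (k+2*m+n = 2*m) by omega),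
      if_neg (show ¬ (k+m+2*n = 2*m) by omega),
      if_neg (show ¬ (k+m = 2*m) by omega),
      if_neg (show ¬ (k+n = 2*m) by omega)] at h1
    simp only [add_zero, zero_add] at h1
    have h2 : A^2 * (1 - X) = 0 := by linear_combination h1
    rcases mul_eq_zero.1 h2 with h3 | h3
    · exact A2 h3
    · exact G.X1 (sub_eq_zero.1 h3).symm
  · 
    have h1 := H (2*m)
    rw [if_pos (show 2*m = 2*m by omega),
      if_neg (show ¬ (m+n = 2*m) by omega),
      if_neg (show ¬ (2*n = 2*m) by omega),
      if_neg (show ¬ (l+2*n = 2*m) by omega),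
      if_neg (show ¬ (l+m+n = 2*m) by omega),
      if_pos (show l+2*m+n = 2*m by omega),
      if_neg (show ¬ (l+m+2*n = 2*m) by omega),
      if_neg (show ¬ (l+m = 2*m) by omega),
      if_neg (show ¬ (l+n = 2*m) by omega),
      if_neg (show ¬ (k+2*m = 2*m) by omega),
      if_neg (show ¬ (k+m+n = 2*m) by omega),
      if_neg (show ¬ (k+2*m+n = 2*m) by omega),
      if_neg (show ¬ (k+m+2*n = 2*m) by omega),
      if_neg (show ¬ (k+m = 2*m) by omega),
      if_neg (show ¬ (k+n = 2*m) by omega)] at h1
    simp only [add_zero, zero_add] at h1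
    have h2 := H (2*n)
    rw [if_neg (show ¬ (2*m = 2*n) by omega),
      if_neg (show ¬ (m+n = 2*n) by omega),
      if_pos (show 2*n = 2*n by omega),
      if_neg (show ¬ (l+2*n = 2*n) by omega),
      if_neg (show ¬ (l+m+n = 2*n) by omega),
      if_neg (show ¬ (l+2*m+n = 2*n) by omega),
      if_neg (show ¬ (l+m+2*n = 2*n) by omega),
      if_neg (show ¬ (l+m = 2*n) by omega),
      if_neg (show ¬ (l+n = 2*n) by omega),
      if_neg (show ¬ (k+2*m = 2*n) by omega),
      if_neg (show ¬ (k+m+n = 2*n) by omega),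
      if_neg (show ¬ (k+2*m+n = 2*n) by omega),
      if_neg (show ¬ (k+m+2*n = 2*n) by omega),
      if_neg (show ¬ (k+m = 2*n) by omega),
      if_pos (show k+n = 2*n by omega)] at h2
    simp only [add_zero, zero_add] at h2
    have e1 : B * Y = 1 := by
      apply mul_left_cancel₀ A2
      linear_combination -h1
    have e2 : B = b * X := by
      apply mul_left_cancel₀ G.B0
      linear_combination h2
    by_cases h2n : m = -2*n
    · 
      have h3 := H (n)
      rw [if_neg (show ¬ (2*m = n) by omega),
        if_neg (show ¬ (m+n = n) by omega),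
        if_neg (show ¬ (2*n = n) by omega),
        if_pos (show l+2*n = n by omega),
        if_neg (show ¬ (l+m+n = n) by omega),
        if_neg (show ¬ (l+2*m+n = n) by omega),
        if_neg (show ¬ (l+m+2*n = n) by omega),
        if_neg (show ¬ (l+m = n) by omega),
        if_neg (show ¬ (l+n = n) by omega),
        if_neg (show ¬ (k+2*m = n) by omega),
        if_neg (show ¬ (k+m+n = n) by omega),
        if_neg (show ¬ (k+2*m+n = n) by omega),
        if_pos (show k+m+2*n = n by omega),
        if_neg (show ¬ (k+m = n) by omega),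
        if_neg (show ¬ (k+n = n) by omega)] at h3
      simp only [add_zero, zero_add] at h3
      have e3 : A * B * X = -1 := by
        apply mul_left_cancel₀ G.B0
        linear_combination -h3 - B * e1
      have h4 := H (0)
      rw [if_neg (show ¬ (2*m = 0) by omega),
        if_neg (show ¬ (m+n = 0) by omega),
        if_neg (show ¬ (2*n = 0) by omega),
        if_neg (show ¬ (l+2*n = 0) by omega),
        if_neg (show ¬ (l+m+n = 0) by omega),
        if_neg (show ¬ (l+2*m+n = 0) by omega),
        if_neg (show ¬ (l+m+2*n = 0) by omega),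
        if_neg (show ¬ (l+m = 0) by omega),
        if_pos (show l+n = 0 by omega),
        if_neg (show ¬ (k+2*m = 0) by omega),
        if_pos (show k+m+n = 0 by omega),
        if_neg (show ¬ (k+2*m+n = 0) by omega),
        if_neg (show ¬ (k+m+2*n = 0) by omega),
        if_neg (show ¬ (k+m = 0) by omega),
        if_neg (show ¬ (k+n = 0) by omega)] at h4
      simp only [add_zero, zero_add] at h4
      have e4 : a = 1 := by
        linear_combination h4 - b * e1 - (1 - (a - b)) * e3
      have h5 := H (-n)
      rw [if_neg (show ¬ (2*m = -n) by omega),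
        if_pos (show m+n = -n by omega),
        if_neg (show ¬ (2*n = -n) by omega),
        if_neg (show ¬ (l+2*n = -n) by omega),
        if_neg (show ¬ (l+m+n = -n) by omega),
        if_neg (show ¬ (l+2*m+n = -n) by omega),
        if_pos (show l+m+2*n = -n by omega),
        if_neg (show ¬ (l+m = -n) by omega),
        if_neg (show ¬ (l+n = -n) by omega),
        if_neg (show ¬ (k+2*m = -n) by omega),
        if_neg (show ¬ (k+m+n = -n) by omega),
        if_neg (show ¬ (k+2*m+n = -n) by omega),
        if_neg (show ¬ (k+m+2*n = -n) by omega),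
        if_pos (show k+m = -n by omega),
        if_neg (show ¬ (k+n = -n) by omega)] at h5
      simp only [add_zero, zero_add] at h5
      have e5 : X = B := by
        apply mul_left_cancel₀ G.A0
        linear_combination h5 - A * B * e1 - A * X * e4
      have e6 : A * B^2 = -1 := by
        rw [← e3, e5]; ring
      have e7 : b = 1 := by
        rw [e5] at e2
        apply mul_right_cancel₀ G.B0
        linear_combination -e2
      have e8 := G.f1 e6
      rw [e4, e7] at e8
      norm_num at e8
    · 
      have h3 := H (n)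
      rw [if_neg (show ¬ (2*m = n) by omega),
        if_neg (show ¬ (m+n = n) by omega),
        if_neg (show ¬ (2*n = n) by omega),
        if_pos (show l+2*n = n by omega),
        if_neg (show ¬ (l+m+n = n) by omega),
        if_neg (show ¬ (l+2*m+n = n) by omega),
        if_neg (show ¬ (l+m+2*n = n) by omega),
        if_neg (show ¬ (l+m = n) by omega),
        if_neg (show ¬ (l+n = n) by omega),
        if_neg (show ¬ (k+2*m = n) by omega),
        if_neg (show ¬ (k+m+n = n) by omega),
        if_neg (show ¬ (k+2*m+n = n) by omega),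
        if_neg (show ¬ (k+m+2*n = n) by omega),
        if_neg (show ¬ (k+m = n) by omega),
        if_neg (show ¬ (k+n = n) by omega)] at h3
      simp only [add_zero, zero_add] at h3
      exact mul_ne_zero B2 G.Y0 (by linear_combination -h3)

theorem Gr.opp_eq1 {m n k l : ℤ} {A B X Y a b : R} (G : Gr m n k l A B X Y a b) (hn : n = -m) (hm : 0 < m)
    (hp : A * B + a ≠ 0) (hq : A * B + b ≠ 0) : False := by
  have H := G.H
  have A2 : A^2 ≠ 0 := pow_ne_zero _ G.A0
  have B2 : B^2 ≠ 0 := pow_ne_zero _ G.B0
  by_cases c1 : l + m > 2*m ∧ l + m > k + 2*m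
  · 
    have h1 := H (l+m)
    rw [if_neg (show ¬ (2*m = l+m) by omega),
      if_neg (show ¬ (m+n = l+m) by omega),
      if_neg (show ¬ (2*n = l+m) by omega),
      if_neg (show ¬ (l+2*n = l+m) by omega),
      if_neg (show ¬ (l+m+n = l+m) by omega),
      if_pos (show l+2*m+n = l+m by omega),
      if_neg (show ¬ (l+m+2*n = l+m) by omega),
      if_pos (show l+m = l+m by omega),
      if_neg (show ¬ (l+n = l+m) by omega),
      if_neg (show ¬ (k+2*m = l+m) by omega),
      if_neg (show ¬ (k+m+n = l+m) by omega),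
      if_neg (show ¬ (k+2*m+n = l+m) by omega),
      if_neg (show ¬ (k+m+2*n = l+m) by omega),
      if_neg (show ¬ (k+m = l+m) by omega),
      if_neg (show ¬ (k+n = l+m) by omega)] at h1
    simp only [add_zero, zero_add] at h1
    exact mul_ne_zero (mul_ne_zero G.A0 hp) G.Y0 (by linear_combination -h1)
  by_cases c2 : k > 0 ∧ k + 2*m > l + m
  · 
    have h1 := H (k+2*m)
    rw [if_neg (show ¬ (2*m = k+2*m) by omega),
      if_neg (show ¬ (m+n = k+2*m) by omega),
      if_neg (show ¬ (2*n = k+2*m) by omega),
      if_neg (show ¬ (l+2*n = k+2*m) by omega),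
      if_neg (show ¬ (l+m+n = k+2*m) by omega),
      if_neg (show ¬ (l+2*m+n = k+2*m) by omega),
      if_neg (show ¬ (l+m+2*n = k+2*m) by omega),
      if_neg (show ¬ (l+m = k+2*m) by omega),
      if_neg (show ¬ (l+n = k+2*m) by omega),
      if_pos (show k+2*m = k+2*m by omega),
      if_neg (show ¬ (k+m+n = k+2*m) by omega),
      if_neg (show ¬ (k+2*m+n = k+2*m) by omega),
      if_neg (show ¬ (k+m+2*n = k+2*m) by omega),
      if_neg (show ¬ (k+m = k+2*m) by omega),
      if_neg (show ¬ (k+n = k+2*m) by omega)] at h1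
    simp only [add_zero, zero_add] at h1
    exact mul_ne_zero A2 G.X0 (by linear_combination -h1)
  by_cases c3 : l < m ∧ k < 0
  · 
    have h1 := H (2*m)
    rw [if_pos (show 2*m = 2*m by omega),
      if_neg (show ¬ (m+n = 2*m) by omega),
      if_neg (show ¬ (2*n = 2*m) by omega),
      if_neg (show ¬ (l+2*n = 2*m) by omega),
      if_neg (show ¬ (l+m+n = 2*m) by omega),
      if_neg (show ¬ (l+2*m+n = 2*m) by omega),
      if_neg (show ¬ (l+m+2*n = 2*m) by omega),
      if_neg (show ¬ (l+m = 2*m) by omega),
      if_neg (show ¬ (l+n = 2*m) by omega),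
      if_neg (show ¬ (k+2*m = 2*m) by omega),
      if_neg (show ¬ (k+m+n = 2*m) by omega),
      if_neg (show ¬ (k+2*m+n = 2*m) by omega),
      if_neg (show ¬ (k+m+2*n = 2*m) by omega),
      if_neg (show ¬ (k+m = 2*m) by omega),
      if_neg (show ¬ (k+n = 2*m) by omega)] at h1
    simp only [add_zero, zero_add] at h1
    exact A2 h1
  by_cases c4 : l > 0 ∧ k > -m
  · 
    have h1 := H (2*n)
    rw [if_neg (show ¬ (2*m = 2*n) by omega),
      if_neg (show ¬ (m+n = 2*n) by omega),
      if_pos (show 2*n = 2*n by omega),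
      if_neg (show ¬ (l+2*n = 2*n) by omega),
      if_neg (show ¬ (l+m+n = 2*n) by omega),
      if_neg (show ¬ (l+2*m+n = 2*n) by omega),
      if_neg (show ¬ (l+m+2*n = 2*n) by omega),
      if_neg (show ¬ (l+m = 2*n) by omega),
      if_neg (show ¬ (l+n = 2*n) by omega),
      if_neg (show ¬ (k+2*m = 2*n) by omega),
      if_neg (show ¬ (k+m+n = 2*n) by omega),
      if_neg (show ¬ (k+2*m+n = 2*n) by omega),
      if_neg (show ¬ (k+m+2*n = 2*n) by omega),
      if_neg (show ¬ (k+m = 2*n) by omega),
      if_neg (show ¬ (k+n = 2*n) by omega)] at h1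
    simp only [add_zero, zero_add] at h1
    exact B2 h1
  by_cases c5 : l < 0 ∧ l - 2*m < k - m
  · 
    have h1 := H (l+2*n)
    rw [if_neg (show ¬ (2*m = l+2*n) by omega),
      if_neg (show ¬ (m+n = l+2*n) by omega),
      if_neg (show ¬ (2*n = l+2*n) by omega),
      if_pos (show l+2*n = l+2*n by omega),
      if_neg (show ¬ (l+m+n = l+2*n) by omega),
      if_neg (show ¬ (l+2*m+n = l+2*n) by omega),
      if_neg (show ¬ (l+m+2*n = l+2*n) by omega),
      if_neg (show ¬ (l+m = l+2*n) by omega),
      if_neg (show ¬ (l+n = l+2*n) by omega),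
      if_neg (show ¬ (k+2*m = l+2*n) by omega),
      if_neg (show ¬ (k+m+n = l+2*n) by omega),
      if_neg (show ¬ (k+2*m+n = l+2*n) by omega),
      if_neg (show ¬ (k+m+2*n = l+2*n) by omega),
      if_neg (show ¬ (k+m = l+2*n) by omega),
      if_neg (show ¬ (k+n = l+2*n) by omega)] at h1
    simp only [add_zero, zero_add] at h1
    exact mul_ne_zero B2 G.Y0 (by linear_combination -h1)
  by_cases c6 : k < -m ∧ k - m < l - 2*m
  · 
    have h1 := H (k+n)
    rw [if_neg (show ¬ (2*m = k+n) by omega),
      if_neg (show ¬ (m+n = k+n) by omega),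
      if_neg (show ¬ (2*n = k+n) by omega),
      if_neg (show ¬ (l+2*n = k+n) by omega),
      if_neg (show ¬ (l+m+n = k+n) by omega),
      if_neg (show ¬ (l+2*m+n = k+n) by omega),
      if_neg (show ¬ (l+m+2*n = k+n) by omega),
      if_neg (show ¬ (l+m = k+n) by omega),
      if_neg (show ¬ (l+n = k+n) by omega),
      if_neg (show ¬ (k+2*m = k+n) by omega),
      if_neg (show ¬ (k+m+n = k+n) by omega),
      if_neg (show ¬ (k+2*m+n = k+n) by omega),
      if_pos (show k+m+2*n = k+n by omega),
      if_neg (show ¬ (k+m = k+n) by omega),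
      if_pos (show k+n = k+n by omega)] at h1
    simp only [add_zero, zero_add] at h1
    exact mul_ne_zero (mul_ne_zero G.B0 hq) G.X0 (by linear_combination -h1)
  have hc : (k = 0 ∧ l = 0) ∨ (k = -m ∧ l = m) := by omega
  rcases hc with ⟨hk, hl⟩ | ⟨hk, hl⟩
  · 
    have h1 := H (2*m)
    rw [if_pos (show 2*m = 2*m by omega),
      if_neg (show ¬ (m+n = 2*m) by omega),
      if_neg (show ¬ (2*n = 2*m) by omega),
      if_neg (show ¬ (l+2*n = 2*m) by omega),
      if_neg (show ¬ (l+m+n = 2*m) by omega),
      if_neg (show ¬ (l+2*m+n = 2*m) by omega),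
      if_neg (show ¬ (l+m+2*n = 2*m) by omega),
      if_neg (show ¬ (l+m = 2*m) by omega),
      if_neg (show ¬ (l+n = 2*m) by omega),
      if_pos (show k+2*m = 2*m by omega),
      if_neg (show ¬ (k+m+n = 2*m) by omega),
      if_neg (show ¬ (k+2*m+n = 2*m) by omega),
      if_neg (show ¬ (k+m+2*n = 2*m) by omega),
      if_neg (show ¬ (k+m = 2*m) by omega),
      if_neg (show ¬ (k+n = 2*m) by omega)] at h1
    simp only [add_zero, zero_add] at h1
    have h2 : A^2 * (1 - X) = 0 := by linear_combination h1
    rcases mul_eq_zero.1 h2 with h3 | h3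
    · exact A2 h3
    · exact G.X1 (sub_eq_zero.1 h3).symm
  · 
    have h1 := H (2*m)
    rw [if_pos (show 2*m = 2*m by omega),
      if_neg (show ¬ (m+n = 2*m) by omega),
      if_neg (show ¬ (2*n = 2*m) by omega),
      if_neg (show ¬ (l+2*n = 2*m) by omega),
      if_neg (show ¬ (l+m+n = 2*m) by omega),
      if_pos (show l+2*m+n = 2*m by omega),
      if_neg (show ¬ (l+m+2*n = 2*m) by omega),
      if_pos (show l+m = 2*m by omega),
      if_neg (show ¬ (l+n = 2*m) by omega),
      if_neg (show ¬ (k+2*m = 2*m) by omega),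
      if_neg (show ¬ (k+m+n = 2*m) by omega),
      if_neg (show ¬ (k+2*m+n = 2*m) by omega),
      if_neg (show ¬ (k+m+2*n = 2*m) by omega),
      if_neg (show ¬ (k+m = 2*m) by omega),
      if_neg (show ¬ (k+n = 2*m) by omega)] at h1
    simp only [add_zero, zero_add] at h1
    have h2 := H (2*n)
    rw [if_neg (show ¬ (2*m = 2*n) by omega),
      if_neg (show ¬ (m+n = 2*n) by omega),
      if_pos (show 2*n = 2*n by omega),
      if_neg (show ¬ (l+2*n = 2*n) by omega),
      if_neg (show ¬ (l+m+n = 2*n) by omega),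
      if_neg (show ¬ (l+2*m+n = 2*n) by omega),
      if_neg (show ¬ (l+m+2*n = 2*n) by omega),
      if_neg (show ¬ (l+m = 2*n) by omega),
      if_neg (show ¬ (l+n = 2*n) by omega),
      if_neg (show ¬ (k+2*m = 2*n) by omega),
      if_neg (show ¬ (k+m+n = 2*n) by omega),
      if_neg (show ¬ (k+2*m+n = 2*n) by omega),
      if_pos (show k+m+2*n = 2*n by omega),
      if_neg (show ¬ (k+m = 2*n) by omega),
      if_pos (show k+n = 2*n by omega)] at h2
    simp only [add_zero, zero_add] at h2
    have h3 := H (0)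
    rw [if_neg (show ¬ (2*m = 0) by omega),
      if_pos (show m+n = 0 by omega),
      if_neg (show ¬ (2*n = 0) by omega),
      if_neg (show ¬ (l+2*n = 0) by omega),
      if_neg (show ¬ (l+m+n = 0) by omega),
      if_neg (show ¬ (l+2*m+n = 0) by omega),
      if_pos (show l+m+2*n = 0 by omega),
      if_neg (show ¬ (l+m = 0) by omega),
      if_pos (show l+n = 0 by omega),
      if_neg (show ¬ (k+2*m = 0) by omega),
      if_neg (show ¬ (k+m+n = 0) by omega),
      if_pos (show k+2*m+n = 0 by omega),
      if_neg (show ¬ (k+m+2*n = 0) by omega),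
      if_pos (show k+m = 0 by omega),
      if_neg (show ¬ (k+n = 0) by omega)] at h3
    simp only [add_zero, zero_add] at h3
    have e1 : A = (A * B + a) * Y := by
      apply mul_left_cancel₀ G.A0
      linear_combination h1
    have e2 : B = (A * B + b) * X := by
      apply mul_left_cancel₀ G.B0
      linear_combination h2
    have e3 : X * Y * (a - b)^2 = 0 := by
      linear_combination h3 + (2 * B) * e1 + (2 * (A * B + a) * Y) * e2 - (A * B + b) * Y * e2 - (A * B + a) * X * e1 + 0
    rcases mul_eq_zero.1 e3 with h4 | h4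
    · exact mul_ne_zero G.X0 G.Y0 h4
    · have := G.eqd (sub_eq_zero.1 (pow_eq_zero_iff two_ne_zero |>.1 h4))
      omega

theorem Gr.opp_eq2 {m n k l : ℤ} {A B X Y a b : R} (G : Gr m n k l A B X Y a b) (hn : n = -m) (hm : 0 < m)
    (hp : A * B + a = 0) (hq : A * B + b ≠ 0) (hq1 : A * B + b ≠ 1) : False := by
  have H := G.H
  have A2 : A^2 ≠ 0 := pow_ne_zero _ G.A0
  have B2 : B^2 ≠ 0 := pow_ne_zero _ G.B0
  have h10 : (1 + (a - b)) ≠ 0 := by
    intro h
    apply hq1
    linear_combination hp - h
  have AB0 : A * B ≠ 0 := mul_ne_zero G.A0 G.B0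
  by_cases c1 : l > 2*m ∧ l > k + 2*m
  · 
    have h1 := H (l+m+n)
    rw [if_neg (show ¬ (2*m = l+m+n) by omega),
      if_neg (show ¬ (m+n = l+m+n) by omega),
      if_neg (show ¬ (2*n = l+m+n) by omega),
      if_neg (show ¬ (l+2*n = l+m+n) by omega),
      if_pos (show l+m+n = l+m+n by omega),
      if_neg (show ¬ (l+2*m+n = l+m+n) by omega),
      if_neg (show ¬ (l+m+2*n = l+m+n) by omega),
      if_neg (show ¬ (l+m = l+m+n) by omega),
      if_neg (show ¬ (l+n = l+m+n) by omega),
      if_neg (show ¬ (k+2*m = l+m+n) by omega),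
      if_neg (show ¬ (k+m+n = l+m+n) by omega),
      if_neg (show ¬ (k+2*m+n = l+m+n) by omega),
      if_neg (show ¬ (k+m+2*n = l+m+n) by omega),
      if_neg (show ¬ (k+m = l+m+n) by omega),
      if_neg (show ¬ (k+n = l+m+n) by omega)] at h1
    simp only [add_zero, zero_add] at h1
    exact mul_ne_zero (mul_ne_zero (mul_ne_zero h10 G.A0) G.B0) G.Y0 (by linear_combination h1)
  by_cases c2 : k > 0 ∧ k + 2*m > l
  · 
    have h68 : -(A^2*B*Y) + -(a*A*Y) = 0 := by linear_combination (-(A * Y)) * hp
    by_cases hh : l + m = k + 2*m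
    · 
      have h1 := H (k+2*m)
      rw [if_neg (show ¬ (2*m = k+2*m) by omega),
        if_neg (show ¬ (m+n = k+2*m) by omega),
        if_neg (show ¬ (2*n = k+2*m) by omega),
        if_neg (show ¬ (l+2*n = k+2*m) by omega),
        if_neg (show ¬ (l+m+n = k+2*m) by omega),
        if_pos (show l+2*m+n = k+2*m by omega),
        if_neg (show ¬ (l+m+2*n = k+2*m) by omega),
        if_pos (show l+m = k+2*m by omega),
        if_neg (show ¬ (l+n = k+2*m) by omega),
        if_pos (show k+2*m = k+2*m by omega),
        if_neg (show ¬ (k+m+n = k+2*m) by omega),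
        if_neg (show ¬ (k+2*m+n = k+2*m) by omega),
        if_neg (show ¬ (k+m+2*n = k+2*m) by omega),
        if_neg (show ¬ (k+m = k+2*m) by omega),
        if_neg (show ¬ (k+n = k+2*m) by omega)] at h1
      simp only [add_zero, zero_add] at h1
      exact mul_ne_zero A2 G.X0 (by linear_combination -h1 + h68)
    · 
      have h1 := H (k+2*m)
      rw [if_neg (show ¬ (2*m = k+2*m) by omega),
        if_neg (show ¬ (m+n = k+2*m) by omega),
        if_neg (show ¬ (2*n = k+2*m) by omega),
        if_neg (show ¬ (l+2*n = k+2*m) by omega),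
        if_neg (show ¬ (l+m+n = k+2*m) by omega),
        if_neg (show ¬ (l+2*m+n = k+2*m) by omega),
        if_neg (show ¬ (l+m+2*n = k+2*m) by omega),
        if_neg (show ¬ (l+m = k+2*m) by omega),
        if_neg (show ¬ (l+n = k+2*m) by omega),
        if_pos (show k+2*m = k+2*m by omega),
        if_neg (show ¬ (k+m+n = k+2*m) by omega),
        if_neg (show ¬ (k+2*m+n = k+2*m) by omega),
        if_neg (show ¬ (k+m+2*n = k+2*m) by omega),
        if_neg (show ¬ (k+m = k+2*m) by omega),
        if_neg (show ¬ (k+n = k+2*m) by omega)] at h1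
      simp only [add_zero, zero_add] at h1
      exact mul_ne_zero A2 G.X0 (by linear_combination -h1)
  by_cases c3 : l < 2*m ∧ k < 0
  · 
    have h68 : -(A^2*B*Y) + -(a*A*Y) = 0 := by linear_combination (-(A * Y)) * hp
    by_cases hh : l + m = 2*m
    · 
      have h1 := H (2*m)
      rw [if_pos (show 2*m = 2*m by omega),
        if_neg (show ¬ (m+n = 2*m) by omega),
        if_neg (show ¬ (2*n = 2*m) by omega),
        if_neg (show ¬ (l+2*n = 2*m) by omega),
        if_neg (show ¬ (l+m+n = 2*m) by omega),
        if_pos (show l+2*m+n = 2*m by omega),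
        if_neg (show ¬ (l+m+2*n = 2*m) by omega),
        if_pos (show l+m = 2*m by omega),
        if_neg (show ¬ (l+n = 2*m) by omega),
        if_neg (show ¬ (k+2*m = 2*m) by omega),
        if_neg (show ¬ (k+m+n = 2*m) by omega),
        if_neg (show ¬ (k+2*m+n = 2*m) by omega),
        if_neg (show ¬ (k+m+2*n = 2*m) by omega),
        if_neg (show ¬ (k+m = 2*m) by omega),
        if_neg (show ¬ (k+n = 2*m) by omega)] at h1
      simp only [add_zero, zero_add] at h1
      exact A2 (by linear_combination h1 - h68)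
    · 
      have h1 := H (2*m)
      rw [if_pos (show 2*m = 2*m by omega),
        if_neg (show ¬ (m+n = 2*m) by omega),
        if_neg (show ¬ (2*n = 2*m) by omega),
        if_neg (show ¬ (l+2*n = 2*m) by omega),
        if_neg (show ¬ (l+m+n = 2*m) by omega),
        if_neg (show ¬ (l+2*m+n = 2*m) by omega),
        if_neg (show ¬ (l+m+2*n = 2*m) by omega),
        if_neg (show ¬ (l+m = 2*m) by omega),
        if_neg (show ¬ (l+n = 2*m) by omega),
        if_neg (show ¬ (k+2*m = 2*m) by omega),
        if_neg (show ¬ (k+m+n = 2*m) by omega),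
        if_neg (show ¬ (k+2*m+n = 2*m) by omega),
        if_neg (show ¬ (k+m+2*n = 2*m) by omega),
        if_neg (show ¬ (k+m = 2*m) by omega),
        if_neg (show ¬ (k+n = 2*m) by omega)] at h1
      simp only [add_zero, zero_add] at h1
      exact A2 h1
  by_cases c4 : l > 0 ∧ k > -m
  · 
    have h1 := H (2*n)
    rw [if_neg (show ¬ (2*m = 2*n) by omega),
      if_neg (show ¬ (m+n = 2*n) by omega),
      if_pos (show 2*n = 2*n by omega),
      if_neg (show ¬ (l+2*n = 2*n) by omega),
      if_neg (show ¬ (l+m+n = 2*n) by omega),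
      if_neg (show ¬ (l+2*m+n = 2*n) by omega),
      if_neg (show ¬ (l+m+2*n = 2*n) by omega),
      if_neg (show ¬ (l+m = 2*n) by omega),
      if_neg (show ¬ (l+n = 2*n) by omega),
      if_neg (show ¬ (k+2*m = 2*n) by omega),
      if_neg (show ¬ (k+m+n = 2*n) by omega),
      if_neg (show ¬ (k+2*m+n = 2*n) by omega),
      if_neg (show ¬ (k+m+2*n = 2*n) by omega),
      if_neg (show ¬ (k+m = 2*n) by omega),
      if_neg (show ¬ (k+n = 2*n) by omega)] at h1
    simp only [add_zero, zero_add] at h1
    exact B2 h1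
  by_cases c5 : l < 0 ∧ l - 2*m < k - m
  · 
    have h1 := H (l+2*n)
    rw [if_neg (show ¬ (2*m = l+2*n) by omega),
      if_neg (show ¬ (m+n = l+2*n) by omega),
      if_neg (show ¬ (2*n = l+2*n) by omega),
      if_pos (show l+2*n = l+2*n by omega),
      if_neg (show ¬ (l+m+n = l+2*n) by omega),
      if_neg (show ¬ (l+2*m+n = l+2*n) by omega),
      if_neg (show ¬ (l+m+2*n = l+2*n) by omega),
      if_neg (show ¬ (l+m = l+2*n) by omega),
      if_neg (show ¬ (l+n = l+2*n) by omega),
      if_neg (show ¬ (k+2*m = l+2*n) by omega),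
      if_neg (show ¬ (k+m+n = l+2*n) by omega),
      if_neg (show ¬ (k+2*m+n = l+2*n) by omega),
      if_neg (show ¬ (k+m+2*n = l+2*n) by omega),
      if_neg (show ¬ (k+m = l+2*n) by omega),
      if_neg (show ¬ (k+n = l+2*n) by omega)] at h1
    simp only [add_zero, zero_add] at h1
    exact mul_ne_zero B2 G.Y0 (by linear_combination -h1)
  by_cases c6 : k < -m ∧ k - m < l - 2*m
  · 
    have h1 := H (k+n)
    rw [if_neg (show ¬ (2*m = k+n) by omega),
      if_neg (show ¬ (m+n = k+n) by omega),
      if_neg (show ¬ (2*n = k+n) by omega),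
      if_neg (show ¬ (l+2*n = k+n) by omega),
      if_neg (show ¬ (l+m+n = k+n) by omega),
      if_neg (show ¬ (l+2*m+n = k+n) by omega),
      if_neg (show ¬ (l+m+2*n = k+n) by omega),
      if_neg (show ¬ (l+m = k+n) by omega),
      if_neg (show ¬ (l+n = k+n) by omega),
      if_neg (show ¬ (k+2*m = k+n) by omega),
      if_neg (show ¬ (k+m+n = k+n) by omega),
      if_neg (show ¬ (k+2*m+n = k+n) by omega),
      if_pos (show k+m+2*n = k+n by omega),
      if_neg (show ¬ (k+m = k+n) by omega),
      if_pos (show k+n = k+n by omega)] at h1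
    simp only [add_zero, zero_add] at h1
    exact mul_ne_zero (mul_ne_zero G.B0 hq) G.X0 (by linear_combination -h1)
  have hc : (k = 0 ∧ l = 0) ∨ (k = -m ∧ l = 2*m) := by omega
  rcases hc with ⟨hk, hl⟩ | ⟨hk, hl⟩
  · 
    have h1 := H (2*m)
    rw [if_pos (show 2*m = 2*m by omega),
      if_neg (show ¬ (m+n = 2*m) by omega),
      if_neg (show ¬ (2*n = 2*m) by omega),
      if_neg (show ¬ (l+2*n = 2*m) by omega),
      if_neg (show ¬ (l+m+n = 2*m) by omega),
      if_neg (show ¬ (l+2*m+n = 2*m) by omega),
      if_neg (show ¬ (l+m+2*n = 2*m) by omega),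
      if_neg (show ¬ (l+m = 2*m) by omega),
      if_neg (show ¬ (l+n = 2*m) by omega),
      if_pos (show k+2*m = 2*m by omega),
      if_neg (show ¬ (k+m+n = 2*m) by omega),
      if_neg (show ¬ (k+2*m+n = 2*m) by omega),
      if_neg (show ¬ (k+m+2*n = 2*m) by omega),
      if_neg (show ¬ (k+m = 2*m) by omega),
      if_neg (show ¬ (k+n = 2*m) by omega)] at h1
    simp only [add_zero, zero_add] at h1
    have h2 : A^2 * (1 - X) = 0 := by linear_combination h1
    rcases mul_eq_zero.1 h2 with h3 | h3
    · exact A2 h3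
    · exact G.X1 (sub_eq_zero.1 h3).symm
  · 
    have h1 := H (2*m)
    rw [if_pos (show 2*m = 2*m by omega),
      if_neg (show ¬ (m+n = 2*m) by omega),
      if_neg (show ¬ (2*n = 2*m) by omega),
      if_neg (show ¬ (l+2*n = 2*m) by omega),
      if_pos (show l+m+n = 2*m by omega),
      if_neg (show ¬ (l+2*m+n = 2*m) by omega),
      if_neg (show ¬ (l+m+2*n = 2*m) by omega),
      if_neg (show ¬ (l+m = 2*m) by omega),
      if_neg (show ¬ (l+n = 2*m) by omega),
      if_neg (show ¬ (k+2*m = 2*m) by omega),
      if_neg (show ¬ (k+m+n = 2*m) by omega),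
      if_neg (show ¬ (k+2*m+n = 2*m) by omega),
      if_neg (show ¬ (k+m+2*n = 2*m) by omega),
      if_neg (show ¬ (k+m = 2*m) by omega),
      if_neg (show ¬ (k+n = 2*m) by omega)] at h1
    simp only [add_zero, zero_add] at h1
    have h2 := H (2*n)
    rw [if_neg (show ¬ (2*m = 2*n) by omega),
      if_neg (show ¬ (m+n = 2*n) by omega),
      if_pos (show 2*n = 2*n by omega),
      if_neg (show ¬ (l+2*n = 2*n) by omega),
      if_neg (show ¬ (l+m+n = 2*n) by omega),
      if_neg (show ¬ (l+2*m+n = 2*n) by omega),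
      if_neg (show ¬ (l+m+2*n = 2*n) by omega),
      if_neg (show ¬ (l+m = 2*n) by omega),
      if_neg (show ¬ (l+n = 2*n) by omega),
      if_neg (show ¬ (k+2*m = 2*n) by omega),
      if_neg (show ¬ (k+m+n = 2*n) by omega),
      if_neg (show ¬ (k+2*m+n = 2*n) by omega),
      if_pos (show k+m+2*n = 2*n by omega),
      if_neg (show ¬ (k+m = 2*n) by omega),
      if_pos (show k+n = 2*n by omega)] at h2
    simp only [add_zero, zero_add] at h2
    have h3 := H (-m)
    rw [if_neg (show ¬ (2*m = -m) by omega),
      if_neg (show ¬ (m+n = -m) by omega),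
      if_neg (show ¬ (2*n = -m) by omega),
      if_neg (show ¬ (l+2*n = -m) by omega),
      if_neg (show ¬ (l+m+n = -m) by omega),
      if_neg (show ¬ (l+2*m+n = -m) by omega),
      if_neg (show ¬ (l+m+2*n = -m) by omega),
      if_neg (show ¬ (l+m = -m) by omega),
      if_neg (show ¬ (l+n = -m) by omega),
      if_neg (show ¬ (k+2*m = -m) by omega),
      if_pos (show k+m+n = -m by omega),
      if_neg (show ¬ (k+2*m+n = -m) by omega),
      if_neg (show ¬ (k+m+2*n = -m) by omega),
      if_neg (show ¬ (k+m = -m) by omega),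
      if_neg (show ¬ (k+n = -m) by omega)] at h3
    simp only [add_zero, zero_add] at h3
    have h4 := H (m)
    rw [if_neg (show ¬ (2*m = m) by omega),
      if_neg (show ¬ (m+n = m) by omega),
      if_neg (show ¬ (2*n = m) by omega),
      if_neg (show ¬ (l+2*n = m) by omega),
      if_neg (show ¬ (l+m+n = m) by omega),
      if_neg (show ¬ (l+2*m+n = m) by omega),
      if_pos (show l+m+2*n = m by omega),
      if_neg (show ¬ (l+m = m) by omega),
      if_pos (show l+n = m by omega),
      if_pos (show k+2*m = m by omega),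
      if_neg (show ¬ (k+m+n = m) by omega),
      if_neg (show ¬ (k+2*m+n = m) by omega),
      if_neg (show ¬ (k+m+2*n = m) by omega),
      if_neg (show ¬ (k+m = m) by omega),
      if_neg (show ¬ (k+n = m) by omega)] at h4
    simp only [add_zero, zero_add] at h4
    have h5 := H (0)
    rw [if_neg (show ¬ (2*m = 0) by omega),
      if_pos (show m+n = 0 by omega),
      if_neg (show ¬ (2*n = 0) by omega),
      if_pos (show l+2*n = 0 by omega),
      if_neg (show ¬ (l+m+n = 0) by omega),
      if_neg (show ¬ (l+2*m+n = 0) by omega),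
      if_neg (show ¬ (l+m+2*n = 0) by omega),
      if_neg (show ¬ (l+m = 0) by omega),
      if_neg (show ¬ (l+n = 0) by omega),
      if_neg (show ¬ (k+2*m = 0) by omega),
      if_neg (show ¬ (k+m+n = 0) by omega),
      if_pos (show k+2*m+n = 0 by omega),
      if_neg (show ¬ (k+m+2*n = 0) by omega),
      if_pos (show k+m = 0 by omega),
      if_neg (show ¬ (k+n = 0) by omega)] at h5
    simp only [add_zero, zero_add] at h5
    have ha : a = -(A * B) := by linear_combination hp
    have e3 : 1 - (a - b) = 0 := by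
      apply mul_right_cancel₀ (mul_ne_zero AB0 G.X0)
      linear_combination h3
    have hb : b = a - 1 := by linear_combination e3
    have e2 : B = -X := by
      apply mul_left_cancel₀ G.B0
      rw [hb, ha] at h2
      linear_combination h2
    have e4 : Y = A^2 := by
      apply mul_left_cancel₀ G.B0
      rw [hb, ha] at h4
      linear_combination -h4 - A^2 * e2
    have e5 : A * B = -2 := by
      apply mul_left_cancel₀ AB0
      rw [ha] at h5
      rw [e4] at h5
      linear_combination -h5
    have e6 : 1 + 2 * (A * B) = 0 := by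
      apply mul_left_cancel₀ A2
      rw [hb, e4] at h1
      linear_combination h1
    rw [e5] at e6
    norm_num at e6

theorem Gr.opp_eq3 {m n k l : ℤ} {A B X Y a b : R} (G : Gr m n k l A B X Y a b) (hn : n = -m) (hm : 0 < m)
    (hp : A * B + a = 0) (hq : A * B + b = 1) : False := by
  have H := G.H
  have A2 : A^2 ≠ 0 := pow_ne_zero _ G.A0
  have B2 : B^2 ≠ 0 := pow_ne_zero _ G.B0
  have AB0 : A * B ≠ 0 := mul_ne_zero G.A0 G.B0
  have h68 : -(A^2*B*Y) + -(a*A*Y) = 0 := by linear_combination (-(A * Y)) * hp
  have h5' : (1 + (a - b))*A*B*Y = 0 := by linear_combination (A * B * Y) * (hp - hq)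
  have h79 : A*B^2*Y + b*B*Y = B * Y := by linear_combination (B * Y) * hq
  by_cases c1 : l - m > 2*m ∧ l - m > k + 2*m
  · 
    have h1 := H (l+n)
    rw [if_neg (show ¬ (2*m = l+n) by omega),
      if_neg (show ¬ (m+n = l+n) by omega),
      if_neg (show ¬ (2*n = l+n) by omega),
      if_neg (show ¬ (l+2*n = l+n) by omega),
      if_neg (show ¬ (l+m+n = l+n) by omega),
      if_neg (show ¬ (l+2*m+n = l+n) by omega),
      if_pos (show l+m+2*n = l+n by omega),
      if_neg (show ¬ (l+m = l+n) by omega),
      if_pos (show l+n = l+n by omega),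
      if_neg (show ¬ (k+2*m = l+n) by omega),
      if_neg (show ¬ (k+m+n = l+n) by omega),
      if_neg (show ¬ (k+2*m+n = l+n) by omega),
      if_neg (show ¬ (k+m+2*n = l+n) by omega),
      if_neg (show ¬ (k+m = l+n) by omega),
      if_neg (show ¬ (k+n = l+n) by omega)] at h1
    simp only [add_zero, zero_add] at h1
    exact mul_ne_zero G.B0 G.Y0 (by linear_combination h1 - h79)
  by_cases c2 : k > 0 ∧ k + 2*m > l - m
  · 
    by_cases hh : l + m = k + 2*m
    · 
      have h1 := H (k+2*m)
      rw [if_neg (show ¬ (2*m = k+2*m) by omega),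
        if_neg (show ¬ (m+n = k+2*m) by omega),
        if_neg (show ¬ (2*n = k+2*m) by omega),
        if_neg (show ¬ (l+2*n = k+2*m) by omega),
        if_neg (show ¬ (l+m+n = k+2*m) by omega),
        if_pos (show l+2*m+n = k+2*m by omega),
        if_neg (show ¬ (l+m+2*n = k+2*m) by omega),
        if_pos (show l+m = k+2*m by omega),
        if_neg (show ¬ (l+n = k+2*m) by omega),
        if_pos (show k+2*m = k+2*m by omega),
        if_neg (show ¬ (k+m+n = k+2*m) by omega),
        if_neg (show ¬ (k+2*m+n = k+2*m) by omega),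
        if_neg (show ¬ (k+m+2*n = k+2*m) by omega),
        if_neg (show ¬ (k+m = k+2*m) by omega),
        if_neg (show ¬ (k+n = k+2*m) by omega)] at h1
      simp only [add_zero, zero_add] at h1
      exact mul_ne_zero A2 G.X0 (by linear_combination -h1 + h68)
    · by_cases hh' : l = k + 2*m
      · 
        have h1 := H (k+2*m)
        rw [if_neg (show ¬ (2*m = k+2*m) by omega),
          if_neg (show ¬ (m+n = k+2*m) by omega),
          if_neg (show ¬ (2*n = k+2*m) by omega),
          if_neg (show ¬ (l+2*n = k+2*m) by omega),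
          if_pos (show l+m+n = k+2*m by omega),
          if_neg (show ¬ (l+2*m+n = k+2*m) by omega),
          if_neg (show ¬ (l+m+2*n = k+2*m) by omega),
          if_neg (show ¬ (l+m = k+2*m) by omega),
          if_neg (show ¬ (l+n = k+2*m) by omega),
          if_pos (show k+2*m = k+2*m by omega),
          if_neg (show ¬ (k+m+n = k+2*m) by omega),
          if_neg (show ¬ (k+2*m+n = k+2*m) by omega),
          if_neg (show ¬ (k+m+2*n = k+2*m) by omega),
          if_neg (show ¬ (k+m = k+2*m) by omega),
          if_neg (show ¬ (k+n = k+2*m) by omega)] at h1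
        simp only [add_zero, zero_add] at h1
        exact mul_ne_zero A2 G.X0 (by linear_combination -h1 + h5')
      · 
        have h1 := H (k+2*m)
        rw [if_neg (show ¬ (2*m = k+2*m) by omega),
          if_neg (show ¬ (m+n = k+2*m) by omega),
          if_neg (show ¬ (2*n = k+2*m) by omega),
          if_neg (show ¬ (l+2*n = k+2*m) by omega),
          if_neg (show ¬ (l+m+n = k+2*m) by omega),
          if_neg (show ¬ (l+2*m+n = k+2*m) by omega),
          if_neg (show ¬ (l+m+2*n = k+2*m) by omega),
          if_neg (show ¬ (l+m = k+2*m) by omega),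
          if_neg (show ¬ (l+n = k+2*m) by omega),
          if_pos (show k+2*m = k+2*m by omega),
          if_neg (show ¬ (k+m+n = k+2*m) by omega),
          if_neg (show ¬ (k+2*m+n = k+2*m) by omega),
          if_neg (show ¬ (k+m+2*n = k+2*m) by omega),
          if_neg (show ¬ (k+m = k+2*m) by omega),
          if_neg (show ¬ (k+n = k+2*m) by omega)] at h1
        simp only [add_zero, zero_add] at h1
        exact mul_ne_zero A2 G.X0 (by linear_combination -h1)
  by_cases c3 : l - m < 2*m ∧ k < 0
  · 
    by_cases hh : l + m = 2*m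
    · 
      have h1 := H (2*m)
      rw [if_pos (show 2*m = 2*m by omega),
        if_neg (show ¬ (m+n = 2*m) by omega),
        if_neg (show ¬ (2*n = 2*m) by omega),
        if_neg (show ¬ (l+2*n = 2*m) by omega),
        if_neg (show ¬ (l+m+n = 2*m) by omega),
        if_pos (show l+2*m+n = 2*m by omega),
        if_neg (show ¬ (l+m+2*n = 2*m) by omega),
        if_pos (show l+m = 2*m by omega),
        if_neg (show ¬ (l+n = 2*m) by omega),
        if_neg (show ¬ (k+2*m = 2*m) by omega),
        if_neg (show ¬ (k+m+n = 2*m) by omega),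
        if_neg (show ¬ (k+2*m+n = 2*m) by omega),
        if_neg (show ¬ (k+m+2*n = 2*m) by omega),
        if_neg (show ¬ (k+m = 2*m) by omega),
        if_neg (show ¬ (k+n = 2*m) by omega)] at h1
      simp only [add_zero, zero_add] at h1
      exact A2 (by linear_combination h1 - h68)
    · by_cases hh' : l = 2*m
      · 
        have h1 := H (2*m)
        rw [if_pos (show 2*m = 2*m by omega),
          if_neg (show ¬ (m+n = 2*m) by omega),
          if_neg (show ¬ (2*n = 2*m) by omega),
          if_neg (show ¬ (l+2*n = 2*m) by omega),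
          if_pos (show l+m+n = 2*m by omega),
          if_neg (show ¬ (l+2*m+n = 2*m) by omega),
          if_neg (show ¬ (l+m+2*n = 2*m) by omega),
          if_neg (show ¬ (l+m = 2*m) by omega),
          if_neg (show ¬ (l+n = 2*m) by omega),
          if_neg (show ¬ (k+2*m = 2*m) by omega),
          if_neg (show ¬ (k+m+n = 2*m) by omega),
          if_neg (show ¬ (k+2*m+n = 2*m) by omega),
          if_neg (show ¬ (k+m+2*n = 2*m) by omega),
          if_neg (show ¬ (k+m = 2*m) by omega),
          if_neg (show ¬ (k+n = 2*m) by omega)] at h1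
        simp only [add_zero, zero_add] at h1
        exact A2 (by linear_combination h1 - h5')
      · 
        have h1 := H (2*m)
        rw [if_pos (show 2*m = 2*m by omega),
          if_neg (show ¬ (m+n = 2*m) by omega),
          if_neg (show ¬ (2*n = 2*m) by omega),
          if_neg (show ¬ (l+2*n = 2*m) by omega),
          if_neg (show ¬ (l+m+n = 2*m) by omega),
          if_neg (show ¬ (l+2*m+n = 2*m) by omega),
          if_neg (show ¬ (l+m+2*n = 2*m) by omega),
          if_neg (show ¬ (l+m = 2*m) by omega),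
          if_neg (show ¬ (l+n = 2*m) by omega),
          if_neg (show ¬ (k+2*m = 2*m) by omega),
          if_neg (show ¬ (k+m+n = 2*m) by omega),
          if_neg (show ¬ (k+2*m+n = 2*m) by omega),
          if_neg (show ¬ (k+m+2*n = 2*m) by omega),
          if_neg (show ¬ (k+m = 2*m) by omega),
          if_neg (show ¬ (k+n = 2*m) by omega)] at h1
        simp only [add_zero, zero_add] at h1
        exact A2 h1
  by_cases c4 : l > 0 ∧ k > -m
  · 
    have h1 := H (2*n)
    rw [if_neg (show ¬ (2*m = 2*n) by omega),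
      if_neg (show ¬ (m+n = 2*n) by omega),
      if_pos (show 2*n = 2*n by omega),
      if_neg (show ¬ (l+2*n = 2*n) by omega),
      if_neg (show ¬ (l+m+n = 2*n) by omega),
      if_neg (show ¬ (l+2*m+n = 2*n) by omega),
      if_neg (show ¬ (l+m+2*n = 2*n) by omega),
      if_neg (show ¬ (l+m = 2*n) by omega),
      if_neg (show ¬ (l+n = 2*n) by omega),
      if_neg (show ¬ (k+2*m = 2*n) by omega),
      if_neg (show ¬ (k+m+n = 2*n) by omega),
      if_neg (show ¬ (k+2*m+n = 2*n) by omega),
      if_neg (show ¬ (k+m+2*n = 2*n) by omega),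
      if_neg (show ¬ (k+m = 2*n) by omega),
      if_neg (show ¬ (k+n = 2*n) by omega)] at h1
    simp only [add_zero, zero_add] at h1
    exact B2 h1
  by_cases c5 : l < 0 ∧ l - 2*m < k - m
  · 
    have h1 := H (l+2*n)
    rw [if_neg (show ¬ (2*m = l+2*n) by omega),
      if_neg (show ¬ (m+n = l+2*n) by omega),
      if_neg (show ¬ (2*n = l+2*n) by omega),
      if_pos (show l+2*n = l+2*n by omega),
      if_neg (show ¬ (l+m+n = l+2*n) by omega),
      if_neg (show ¬ (l+2*m+n = l+2*n) by omega),
      if_neg (show ¬ (l+m+2*n = l+2*n) by omega),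
      if_neg (show ¬ (l+m = l+2*n) by omega),
      if_neg (show ¬ (l+n = l+2*n) by omega),
      if_neg (show ¬ (k+2*m = l+2*n) by omega),
      if_neg (show ¬ (k+m+n = l+2*n) by omega),
      if_neg (show ¬ (k+2*m+n = l+2*n) by omega),
      if_neg (show ¬ (k+m+2*n = l+2*n) by omega),
      if_neg (show ¬ (k+m = l+2*n) by omega),
      if_neg (show ¬ (k+n = l+2*n) by omega)] at h1
    simp only [add_zero, zero_add] at h1
    exact mul_ne_zero B2 G.Y0 (by linear_combination -h1)
  by_cases c6 : k < -m ∧ k - m < l - 2*m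
  · 
    have h1 := H (k+n)
    rw [if_neg (show ¬ (2*m = k+n) by omega),
      if_neg (show ¬ (m+n = k+n) by omega),
      if_neg (show ¬ (2*n = k+n) by omega),
      if_neg (show ¬ (l+2*n = k+n) by omega),
      if_neg (show ¬ (l+m+n = k+n) by omega),
      if_neg (show ¬ (l+2*m+n = k+n) by omega),
      if_neg (show ¬ (l+m+2*n = k+n) by omega),
      if_neg (show ¬ (l+m = k+n) by omega),
      if_neg (show ¬ (l+n = k+n) by omega),
      if_neg (show ¬ (k+2*m = k+n) by omega),
      if_neg (show ¬ (k+m+n = k+n) by omega),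
      if_neg (show ¬ (k+2*m+n = k+n) by omega),
      if_pos (show k+m+2*n = k+n by omega),
      if_neg (show ¬ (k+m = k+n) by omega),
      if_pos (show k+n = k+n by omega)] at h1
    simp only [add_zero, zero_add] at h1
    exact mul_ne_zero G.B0 G.X0 (by linear_combination -h1 - B * X * hq)
  have hc : (k = 0 ∧ l = 0) ∨ (k = -m ∧ l = 3*m) := by omega
  rcases hc with ⟨hk, hl⟩ | ⟨hk, hl⟩
  · 
    have h1 := H (2*m)
    rw [if_pos (show 2*m = 2*m by omega),
      if_neg (show ¬ (m+n = 2*m) by omega),
      if_neg (show ¬ (2*n = 2*m) by omega),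
      if_neg (show ¬ (l+2*n = 2*m) by omega),
      if_neg (show ¬ (l+m+n = 2*m) by omega),
      if_neg (show ¬ (l+2*m+n = 2*m) by omega),
      if_neg (show ¬ (l+m+2*n = 2*m) by omega),
      if_neg (show ¬ (l+m = 2*m) by omega),
      if_neg (show ¬ (l+n = 2*m) by omega),
      if_pos (show k+2*m = 2*m by omega),
      if_neg (show ¬ (k+m+n = 2*m) by omega),
      if_neg (show ¬ (k+2*m+n = 2*m) by omega),
      if_neg (show ¬ (k+m+2*n = 2*m) by omega),
      if_neg (show ¬ (k+m = 2*m) by omega),
      if_neg (show ¬ (k+n = 2*m) by omega)] at h1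
    simp only [add_zero, zero_add] at h1
    have h2 : A^2 * (1 - X) = 0 := by linear_combination h1
    rcases mul_eq_zero.1 h2 with h3 | h3
    · exact A2 h3
    · exact G.X1 (sub_eq_zero.1 h3).symm
  · 
    have h1 := H (-m)
    rw [if_neg (show ¬ (2*m = -m) by omega),
      if_neg (show ¬ (m+n = -m) by omega),
      if_neg (show ¬ (2*n = -m) by omega),
      if_neg (show ¬ (l+2*n = -m) by omega),
      if_neg (show ¬ (l+m+n = -m) by omega),
      if_neg (show ¬ (l+2*m+n = -m) by omega),
      if_neg (show ¬ (l+m+2*n = -m) by omega),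
      if_neg (show ¬ (l+m = -m) by omega),
      if_neg (show ¬ (l+n = -m) by omega),
      if_neg (show ¬ (k+2*m = -m) by omega),
      if_pos (show k+m+n = -m by omega),
      if_neg (show ¬ (k+2*m+n = -m) by omega),
      if_neg (show ¬ (k+m+2*n = -m) by omega),
      if_neg (show ¬ (k+m = -m) by omega),
      if_neg (show ¬ (k+n = -m) by omega)] at h1
    simp only [add_zero, zero_add] at h1
    have h2 : 2 * (A * B * X) = 0 := by linear_combination h1 + (A * B * X) * (hp - hq)
    rcases mul_eq_zero.1 h2 with h3 | h3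
    · exact two_ne_zero h3
    · exact mul_ne_zero AB0 G.X0 h3

theorem Gr.swap {m n k l : ℤ} {A B X Y a b : R} (G : Gr m n k l A B X Y a b) :
    Gr n m l k B A Y X b a where
  tot := by
    have := G.tot
    linear_combination this
  H := by
    intro d
    have h := G.H d
    have i1 : (if 2*n = d then B^2 else 0 : R) = (if 2*n = d then B^2 else 0) :=
      if_congr (by constructor <;> intro h <;> linarith) (by ring) rfl
    have i2 : (if n+m = d then -(2*B*A) else 0 : R) = (if m+n = d then -(2*A*B) else 0) :=
      if_congr (by constructor <;> intro h <;> linarith) (by ring) rfl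
    have i3 : (if 2*m = d then A^2 else 0 : R) = (if 2*m = d then A^2 else 0) :=
      if_congr (by constructor <;> intro h <;> linarith) (by ring) rfl
    have i4 : (if k+2*m = d then -(A^2*X) else 0 : R) = (if k+2*m = d then -(A^2*X) else 0) :=
      if_congr (by constructor <;> intro h <;> linarith) (by ring) rfl
    have i5 : (if k+n+m = d then (1+(b-a))*B*A*X else 0 : R) = (if k+m+n = d then (1-(a-b))*A*B*X else 0) :=
      if_congr (by constructor <;> intro h <;> linarith) (by ring) rfl
    have i6 : (if k+2*n+m = d then -(B^2*A*X) else 0 : R) = (if k+m+2*n = d then -(A*B^2*X) else 0) :=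
      if_congr (by constructor <;> intro h <;> linarith) (by ring) rfl
    have i7 : (if k+n+2*m = d then B*A^2*X else 0 : R) = (if k+2*m+n = d then A^2*B*X else 0) :=
      if_congr (by constructor <;> intro h <;> linarith) (by ring) rfl
    have i8 : (if k+n = d then -(b*B*X) else 0 : R) = (if k+n = d then -(b*B*X) else 0) :=
      if_congr (by constructor <;> intro h <;> linarith) (by ring) rfl
    have i9 : (if k+m = d then a*A*X else 0 : R) = (if k+m = d then a*A*X else 0) :=
      if_congr (by constructor <;> intro h <;> linarith) (by ring) rfl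
    have i10 : (if l+2*n = d then -(B^2*Y) else 0 : R) = (if l+2*n = d then -(B^2*Y) else 0) :=
      if_congr (by constructor <;> intro h <;> linarith) (by ring) rfl
    have i11 : (if l+n+m = d then (1-(b-a))*B*A*Y else 0 : R) = (if l+m+n = d then (1+(a-b))*A*B*Y else 0) :=
      if_congr (by constructor <;> intro h <;> linarith) (by ring) rfl
    have i12 : (if l+2*n+m = d then B^2*A*Y else 0 : R) = (if l+m+2*n = d then A*B^2*Y else 0) :=
      if_congr (by constructor <;> intro h <;> linarith) (by ring) rfl
    have i13 : (if l+n+2*m = d then -(B*A^2*Y) else 0 : R) = (if l+2*m+n = d then -(A^2*B*Y) else 0) :=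
      if_congr (by constructor <;> intro h <;> linarith) (by ring) rfl
    have i14 : (if l+n = d then b*B*Y else 0 : R) = (if l+n = d then b*B*Y else 0) :=
      if_congr (by constructor <;> intro h <;> linarith) (by ring) rfl
    have i15 : (if l+m = d then -(a*A*Y) else 0 : R) = (if l+m = d then -(a*A*Y) else 0) :=
      if_congr (by constructor <;> intro h <;> linarith) (by ring) rfl
    rw [i1, i2, i3, i4, i5, i6, i7, i8, i9, i10, i11, i12, i13, i14, i15]
    linear_combination h
  A0 := G.B0
  B0 := G.A0
  X0 := G.Y0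
  Y0 := G.X0
  A1 := G.B1
  B1 := G.A1
  AB := G.AB.symm
  X1 := G.Y1
  Y1 := G.X1
  a0 := G.b0
  b0 := G.a0
  ab := G.ab.symm
  Aa := G.Bb
  Bb := G.Aa
  eqd := fun h => (G.eqd h.symm).symm
  f1 := fun h => by
    have := G.f2 (by linear_combination h)
    linear_combination this
  f2 := fun h => by
    have := G.f1 (by linear_combination h)
    linear_combination this

theorem Gr.neg {m n k l : ℤ} {A B X Y a b : R} (G : Gr m n k l A B X Y a b) :
    Gr (-m) (-n) (-k) (-l) A B X Y a b where
  tot := G.tot
  H := by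
    intro d
    have h := G.H (-d)
    have i1 : (if 2*(-m) = d then A^2 else 0 : R) = (if 2*m = -d then A^2 else 0) :=
      if_congr (by constructor <;> intro h <;> linarith) rfl rfl
    have i2 : (if (-m)+(-n) = d then -(2*A*B) else 0 : R) = (if m+n = -d then -(2*A*B) else 0) :=
      if_congr (by constructor <;> intro h <;> linarith) rfl rfl
    have i3 : (if 2*(-n) = d then B^2 else 0 : R) = (if 2*n = -d then B^2 else 0) :=
      if_congr (by constructor <;> intro h <;> linarith) rfl rfl
    have i4 : (if (-l)+2*(-n) = d then -(B^2*Y) else 0 : R) = (if l+2*n = -d then -(B^2*Y) else 0) :=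
      if_congr (by constructor <;> intro h <;> linarith) rfl rfl
    have i5 : (if (-l)+(-m)+(-n) = d then (1+(a-b))*A*B*Y else 0 : R) = (if l+m+n = -d then (1+(a-b))*A*B*Y else 0) :=
      if_congr (by constructor <;> intro h <;> linarith) rfl rfl
    have i6 : (if (-l)+2*(-m)+(-n) = d then -(A^2*B*Y) else 0 : R) = (if l+2*m+n = -d then -(A^2*B*Y) else 0) :=
      if_congr (by constructor <;> intro h <;> linarith) rfl rfl
    have i7 : (if (-l)+(-m)+2*(-n) = d then A*B^2*Y else 0 : R) = (if l+m+2*n = -d then A*B^2*Y else 0) :=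
      if_congr (by constructor <;> intro h <;> linarith) rfl rfl
    have i8 : (if (-l)+(-m) = d then -(a*A*Y) else 0 : R) = (if l+m = -d then -(a*A*Y) else 0) :=
      if_congr (by constructor <;> intro h <;> linarith) rfl rfl
    have i9 : (if (-l)+(-n) = d then b*B*Y else 0 : R) = (if l+n = -d then b*B*Y else 0) :=
      if_congr (by constructor <;> intro h <;> linarith) rfl rfl
    have i10 : (if (-k)+2*(-m) = d then -(A^2*X) else 0 : R) = (if k+2*m = -d then -(A^2*X) else 0) :=
      if_congr (by constructor <;> intro h <;> linarith) rfl rfl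
    have i11 : (if (-k)+(-m)+(-n) = d then (1-(a-b))*A*B*X else 0 : R) = (if k+m+n = -d then (1-(a-b))*A*B*X else 0) :=
      if_congr (by constructor <;> intro h <;> linarith) rfl rfl
    have i12 : (if (-k)+2*(-m)+(-n) = d then A^2*B*X else 0 : R) = (if k+2*m+n = -d then A^2*B*X else 0) :=
      if_congr (by constructor <;> intro h <;> linarith) rfl rfl
    have i13 : (if (-k)+(-m)+2*(-n) = d then -(A*B^2*X) else 0 : R) = (if k+m+2*n = -d then -(A*B^2*X) else 0) :=
      if_congr (by constructor <;> intro h <;> linarith) rfl rfl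
    have i14 : (if (-k)+(-m) = d then a*A*X else 0 : R) = (if k+m = -d then a*A*X else 0) :=
      if_congr (by constructor <;> intro h <;> linarith) rfl rfl
    have i15 : (if (-k)+(-n) = d then -(b*B*X) else 0 : R) = (if k+n = -d then -(b*B*X) else 0) :=
      if_congr (by constructor <;> intro h <;> linarith) rfl rfl
    rw [i1, i2, i3, i4, i5, i6, i7, i8, i9, i10, i11, i12, i13, i14, i15]
    exact h
  A0 := G.A0
  B0 := G.B0
  X0 := G.X0
  Y0 := G.Y0
  A1 := G.A1
  B1 := G.B1
  AB := G.AB
  X1 := G.X1
  Y1 := G.Y1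
  a0 := G.a0
  b0 := G.b0
  ab := G.ab
  Aa := G.Aa
  Bb := G.Bb
  eqd := fun h => by rw [G.eqd h]
  f1 := G.f1
  f2 := G.f2

/-- the graded identity is trivial -/
theorem Gr.main {m n k l : ℤ} {A B X Y a b : R} (G : Gr m n k l A B X Y a b) :
    m = 0 ∧ n = 0 ∧ k = 0 ∧ l = 0 := by
  by_cases h0 : m = 0 ∧ n = 0
  · have := G.zero h0.1 h0.2
    exact ⟨h0.1, h0.2, this.1, this.2⟩
  exfalso
  have opp_eq : ∀ {m n k l : ℤ} {A B X Y a b : R} (_ : Gr m n k l A B X Y a b) (_ : n = -m)
      (_ : 0 < m), False := by
    intro m n k l A B X Y a b G hn hm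
    by_cases hp : A * B + a = 0
    · by_cases hq : A * B + b = 0
      · have : a = b := by linear_combination hp - hq
        have := G.eqd this
        omega
      · by_cases hq1 : A * B + b = 1
        · exact G.opp_eq3 hn hm hp hq1
        · exact G.opp_eq2 hn hm hp hq hq1
    · by_cases hq : A * B + b = 0
      · have G' := G.swap.neg
        have hp' : B * A + b = 0 := by linear_combination hq
        have hq' : B * A + a ≠ 0 := fun h => hp (by linear_combination h)
        by_cases hq1 : B * A + a = 1
        · exact G'.opp_eq3 (by omega) (by omega) hp' hq1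
        · exact G'.opp_eq2 (by omega) (by omega) hp' hq' hq1
      · exact G.opp_eq1 hn hm hp hq
  have opp : ∀ {m n k l : ℤ} {A B X Y a b : R} (_ : Gr m n k l A B X Y a b) (_ : n < 0)
      (_ : 0 < m), False := by
    intro m n k l A B X Y a b G hn hm
    rcases lt_trichotomy (-n) m with h | h | h
    · exact G.opp_gt hn h
    · exact opp_eq G (by omega) hm
    · exact G.swap.neg.opp_gt (by omega) (by omega)
  have pos : ∀ {m n k l : ℤ} {A B X Y a b : R} (_ : Gr m n k l A B X Y a b) (_ : 0 < n)
      (_ : 0 < m), False := by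
    intro m n k l A B X Y a b G hn hm
    rcases lt_trichotomy n m with h | h | h
    · exact G.pos_gt h hn
    · exact G.pos_eq h.symm hn
    · exact G.swap.pos_gt h hm
  rcases lt_trichotomy m 0 with hm | hm | hm
  · rcases lt_trichotomy n 0 with hn | hn | hn
    · exact pos G.neg (by omega) (by omega)
    · exact G.swap.neg.half (by omega) (by omega)
    · exact opp G.neg (by omega) (by omega)
  · rcases lt_trichotomy n 0 with hn | hn | hn
    · exact G.neg.half (by omega) (by omega)
    · exact h0 ⟨hm, hn⟩
    · exact G.half hm hn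
  · rcases lt_trichotomy n 0 with hn | hn | hn
    · exact opp G hn hm
    · exact G.swap.half hn hm
    · exact pos G hn hm

end Pool.Agent.V11202.NH
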