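import Pool.Agent.V11202.NH.Tame
import Pool.Agent.V11202.NH.Alg

/-!
The functional equation: both exponents are of polynomial growth.
-/

set_option autoImplicit false

open Complex Set Metric Filter Topology
open Pool.Agent.TH242.MK

namespace Pool.Agent.V11202.NH

/-- entire functions -/
def Ent : Subring (ℂ → ℂ) where
  carrier := {f | Differentiable ℂ f}
  mul_mem' := fun hf hg => hf.mul hg
  one_mem' := differentiable_const 1
  add_mem' := fun hf hg => hf.add hg
  zero_mem' := differentiable_const 0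
  neg_mem' := fun hf => hf.neg

instance : IsDomain Ent := by
  have hnt : Nontrivial Ent := by
    refine ⟨⟨0, 1, fun h => ?_⟩⟩
    have h1 := congrFun (congrArg Subtype.val h) 0
    exact zero_ne_one h1
  have hnz : NoZeroDivisors Ent := by
    refine ⟨fun {f g} hfg => ?_⟩
    have h1 : ∀ z, f.1 z * g.1 z = 0 := fun z => congrFun (congrArg Subtype.val hfg) z
    rcases mul_zero_or f.2 g.2 h1 with h | h
    · exact Or.inl (Subtype.ext (funext h))
    · exact Or.inr (Subtype.ext (funext h))
  exact NoZeroDivisors.to_isDomain _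

instance : CharZero Ent := by
  refine ⟨fun m n hmn => ?_⟩
  have h1 := congrFun (congrArg Subtype.val hmn) 0
  have h2 : ((m : ℂ)) = n := by simpa using h1
  exact_mod_cast h2

/-- evaluation -/
def ev (z : ℂ) : Ent →+* ℂ := (Pi.evalRingHom (fun _ => ℂ) z).comp Ent.subtype

theorem ev_ext {f g : Ent} (h : ∀ z, ev z f = ev z g) : f = g := Subtype.ext (funext h)

theorem ev_mk (z : ℂ) {f : ℂ → ℂ} (hf : f ∈ Ent) : ev z ⟨f, hf⟩ = f z := rfl

/-- the exponents -/
def vec : Fin 20 → ℕ × ℕ × ℕ × ℕ :=
  ![(2,0,0,0), (1,1,0,0), (0,2,0,0), (0,2,0,1), (1,1,0,1), (2,1,0,1), (1,2,0,1), (1,0,0,1),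
    (0,1,0,1), (2,0,1,0), (1,1,1,0), (2,1,1,0), (1,2,1,0), (1,0,1,0), (0,1,1,0),
    (1,0,0,0), (0,1,0,0), (0,0,1,0), (0,0,0,1), (0,0,0,0)]

def zvec (i : Fin 20) : ℤ × ℤ × ℤ × ℤ :=
  ((vec i).1, (vec i).2.1, (vec i).2.2.1, (vec i).2.2.2)

/-- the degrees -/
def lamv (m n k l : ℤ) : Fin 20 → ℤ :=
  ![2*m, m+n, 2*n, l+2*n, l+m+n, l+2*m+n, l+m+2*n, l+m, l+n, k+2*m, k+m+n, k+2*m+n, k+m+2*n,
    k+m, k+n, m, n, k, l, 0]

theorem lam_eq (lam : (ℤ × ℤ × ℤ × ℤ) →ₗ[ℤ] ℤ) (i : Fin 20) :
    lam (zvec i) = lamv (lam (1,0,0,0)) (lam (0,1,0,0)) (lam (0,0,1,0)) (lam (0,0,0,1)) i := by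
  have h : ∀ p q r s : ℤ, lam (p, q, r, s) = p * lam (1,0,0,0) + q * lam (0,1,0,0) +
      r * lam (0,0,1,0) + s * lam (0,0,0,1) := by
    intro p q r s
    have e : ((p, q, r, s) : ℤ × ℤ × ℤ × ℤ) = p • (1,0,0,0) + q • (0,1,0,0) + r • (0,0,1,0) +
        s • (0,0,0,1) := by
      simp
    rw [e]
    simp only [map_add, map_smul, smul_eq_mul]
  rw [zvec, h]
  fin_cases i <;> simp [vec, lamv] <;> ring

/-- the coefficients -/
noncomputable def cf (a b : ℂ → ℂ) : Fin 20 → ℂ → ℂ :=
  ![fun _ => 1, fun _ => -2, fun _ => 1, fun _ => -1, fun z => 1 + (a z - b z), fun _ => -1,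
    fun _ => 1, fun z => -1 * a z, fun z => b z, fun _ => -1, fun z => 1 - (a z - b z), fun _ => 1,
    fun _ => -1, fun z => a z, fun z => -1 * b z, fun _ => 0, fun _ => 0, fun _ => 0, fun _ => 0,
    fun _ => 0]

theorem exp_hx {U V C E : ℂ → ℂ} (p q r s : ℕ) (z : ℂ) :
    cexp (hx U V C E ((p : ℤ), (q : ℤ), (r : ℤ), (s : ℤ)) z) =
      cexp (U z) ^ p * cexp (V z) ^ q * cexp (C z) ^ r * cexp (E z) ^ s := by
  simp only [hx, Int.cast_natCast, Complex.exp_add, Complex.exp_nat_mul]

/-- the total identity -/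
theorem tot {A B G H a b G' Ap Bp Hp X Y : ℂ} (h1 : H = A * G) (h2 : H - 1 = B * (G - 1))
    (h3 : Hp - H = G') (hX : X * Ap = 1) (hY : Y * Bp = 1)
    (h4 : (Ap - Bp) * Hp = Ap * (1 - Bp))
    (h5 : (a * A - b * B) * G + (A - B) * G' = -(b * B)) :
    (A - B)^2 = Y * (B^2 - (1+(a-b))*A*B + A^2*B - A*B^2 + a*A - b*B) +
    X * (A^2 - (1-(a-b))*A*B - A^2*B + A*B^2 - a*A + b*B) := by
  have e1 : (A - B) * G = 1 - B := by linear_combination h2 - h1
  have e2 : (A - B)^2 * G' = (a - b) * A * B - a * A + b * B := by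
    linear_combination (A - B) * h5 - (a * A - b * B) * e1
  have e3 : (A - B)^2 * H = A * (1 - B) * (A - B) := by
    linear_combination (A - B)^2 * h1 + A * (A - B) * e1
  have e4 : A^2 - (1-(a-b))*A*B - A^2*B + A*B^2 - a*A + b*B = (A - B)^2 * Hp := by
    linear_combination -e2 - e3 - (A - B)^2 * h3
  have e5 : Hp * (X - Y) = 1 - Y := by
    linear_combination (-(X * Y)) * h4 + (-(Hp * X)) * hY + (Hp * Y) * hX - Y * (1 - Bp) * hX + hY
  have e6 : B^2 - (1+(a-b))*A*B + A^2*B - A*B^2 + a*A - b*B = (A - B)^2 - (A - B)^2 * Hp := by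
    linear_combination -e4
  rw [e6, e4]
  linear_combination (-(A - B)^2) * e5

theorem sum20 (f : Fin 20 → ℂ) : ∑ i, f i = f 0 + f 1 + f 2 + f 3 + f 4 + f 5 + f 6 + f 7 + f 8 + f 9 + f 10 + f 11 + f 12 + f 13 + f 14 + f 15 + f 16 + f 17 + f 18 + f 19 := by
  simp only [Fin.sum_univ_castSucc]
  simp

theorem no_log_deriv {U : ℂ → ℂ} (hU : Differentiable ℂ U) : ∃ z, cexp (U z) ≠ deriv U z := by
  by_contra hcon
  push Not at hcon
  have hd : ∀ z, HasDerivAt (fun z => cexp (-U z) + z) 0 z := by
    intro z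
    refine (((hU z).hasDerivAt.neg.cexp).add (hasDerivAt_id z)).congr_deriv ?_
    rw [← hcon z, mul_neg, ← Complex.exp_add]
    simp
  have hc : ∀ z, cexp (-U z) + z = cexp (-U 0) + 0 := fun z =>
    is_const_of_deriv_eq_zero (f := fun z => cexp (-U z) + z) (fun z => (hd z).differentiableAt)
      (fun z => (hd z).deriv) z 0
  have h1 := hc (cexp (-U 0) + 0)
  have h2 : cexp (-U (cexp (-U 0) + 0)) = 0 := by linear_combination h1
  exact Complex.exp_ne_zero _ h2

theorem core {U V G H : ℂ → ℂ} (hU : Differentiable ℂ U) (hV : Differentiable ℂ V)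
    (hG : Differentiable ℂ G) {c : ℂ} (h1 : ∀ z, H z = cexp (U z) * G z)
    (h2 : ∀ z, H z - 1 = cexp (V z) * (G z - 1)) (h3 : ∀ z, H (z + c) - H z = deriv G z)
    (hne : ∃ z, H z ≠ G z) : Pg U ∧ Pg V := by
  have hα : ¬ ∀ z, cexp (U z) = 1 := by
    intro h
    obtain ⟨z, hz⟩ := hne
    exact hz (by rw [h1 z, h z, one_mul])
  have hβ : ¬ ∀ z, cexp (V z) = 1 := by
    intro h
    obtain ⟨z, hz⟩ := hne
    have := h2 z
    rw [h z] at this
    exact hz (by linear_combination this)
  have hαβ : ¬ ∀ z, cexp (U z) = cexp (V z) := by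
    intro h
    apply hα
    intro z
    have e1 := h1 z
    have e2 := h2 z
    rw [← h z] at e2
    linear_combination e2 - e1
  have hAB : ∀ z, (cexp (U z) - cexp (V z)) * G z = 1 - cexp (V z) := by
    intro z
    linear_combination h2 z - h1 z
  -- constant exponents
  by_cases fa : ∀ z, deriv U z = 0
  · obtain ⟨k, hk⟩ := const_of_deriv_zero hU fa
    refine ⟨Pg.of_const ⟨k, hk⟩, ?_⟩
    have hk1 : cexp k ≠ 1 := fun h => hα fun z => by rw [hk z, h]
    have hnz : ∀ z, cexp k - cexp (V z) ≠ 0 := by
      intro z h0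
      have := hAB z
      rw [hk z, h0, zero_mul] at this
      apply hk1
      linear_combination h0 + this
    obtain ⟨W, hW, hWe⟩ := exists_log (f := fun z => cexp k - cexp (V z))
      ((differentiable_const _).sub hV.cexp) hnz
    have hp : ∀ z, cexp (V z) - cexp (W z + Real.pi * I) = cexp k := by
      intro z
      rw [Complex.exp_add, Complex.exp_pi_mul_I, hWe z]
      ring
    exact (two hV (hW.add_const _) (Complex.exp_ne_zero k) hp).1
  by_cases fb : ∀ z, deriv V z = 0
  · obtain ⟨k, hk⟩ := const_of_deriv_zero hV fb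
    refine ⟨?_, Pg.of_const ⟨k, hk⟩⟩
    have hk1 : cexp k ≠ 1 := fun h => hβ fun z => by rw [hk z, h]
    have hnz : ∀ z, cexp (U z) - cexp k ≠ 0 := by
      intro z h0
      have := hAB z
      rw [hk z, h0, zero_mul] at this
      apply hk1
      linear_combination this
    obtain ⟨W, hW, hWe⟩ := exists_log (f := fun z => cexp (U z) - cexp k)
      (hU.cexp.sub (differentiable_const _)) hnz
    have hp : ∀ z, cexp (U z) - cexp (W z) = cexp k := by
      intro z
      rw [hWe z]
      ring
    exact (two hU hW (Complex.exp_ne_zero k) hp).1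
  by_cases fab : ∀ z, deriv U z * cexp (U z) = deriv V z * cexp (V z)
  · have hd : ∀ z, HasDerivAt (fun z => cexp (U z) - cexp (V z)) 0 z := by
      intro z
      refine (((hU z).hasDerivAt.cexp).sub ((hV z).hasDerivAt.cexp)).congr_deriv ?_
      linear_combination fab z
    have hc : ∀ z, cexp (U z) - cexp (V z) = cexp (U 0) - cexp (V 0) := fun z =>
      is_const_of_deriv_eq_zero (f := fun z => cexp (U z) - cexp (V z))
        (fun z => (hd z).differentiableAt) (fun z => (hd z).deriv) z 0
    have hk : cexp (U 0) - cexp (V 0) ≠ 0 := by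
      intro h0
      apply hαβ
      intro z
      have := hc z
      rw [h0] at this
      exact sub_eq_zero.1 this
    exact two hU hV hk hc
  -- the main case
  set C : ℂ → ℂ := fun z => -U (z + c) with hCdef
  set E : ℂ → ℂ := fun z => -V (z + c) with hEdef
  have hC : Differentiable ℂ C := (hU.comp (differentiable_id.add_const c)).neg
  have hE : Differentiable ℂ E := (hV.comp (differentiable_id.add_const c)).neg
  set hh : Fin 20 → ℂ → ℂ := fun i => hx U V C E (zvec i) with hhh
  have hd : ∀ i, Differentiable ℂ (hh i) := fun i => hx_diff hU hV hC hE _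
  have b15 : hh 15 = U := by funext z; simp [hhh, hx, zvec, vec]
  have b16 : hh 16 = V := by funext z; simp [hhh, hx, zvec, vec]
  have b19 : ∀ z, hh 19 z = 0 := by intro z; simp [hhh, hx, zvec, vec]
  by_cases hN : ∀ v, v ∈ NN Finset.univ hh U V C E
  · obtain ⟨K, hK, hb⟩ := tame (J := Finset.univ) hd b19 (fun j _ => hN (zvec j))
    refine ⟨⟨K, hK, fun z => ?_⟩, ⟨K, hK, fun z => ?_⟩⟩
    · have := hb 15 (Finset.mem_univ _) z
      rwa [b15] at this
    · have := hb 16 (Finset.mem_univ _) z
      rwa [b16] at this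
  exfalso
  push Not at hN
  obtain ⟨v0, hv0⟩ := hN
  obtain ⟨lam, hlam, hlam0⟩ := exists_lam (AddSubgroup.toIntSubmodule (NN Finset.univ hh U V C E))
    (fun r v hv => NN_sat hU hV hC hE r v hv) hv0
  have hlamN : ∀ v, Q1 0 Finset.univ hh (hx U V C E v) → lam v = 0 := fun v hv => hlam v hv
  have hSU : Sm 0 Finset.univ hh (fun z => deriv U z) := by
    have := (Sm.base (σ := 0) (J := Finset.univ) (h := hh) (i := (15 : Fin 20)) (Finset.mem_univ _)
      (hd 15)).deriv le_rfl
    rwa [b15] at this
  have hSV : Sm 0 Finset.univ hh (fun z => deriv V z) := by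
    have := (Sm.base (σ := 0) (J := Finset.univ) (h := hh) (i := (16 : Fin 20)) (Finset.mem_univ _)
      (hd 16)).deriv le_rfl
    rwa [b16] at this
  have hcf : ∀ i ∈ (Finset.univ : Finset (Fin 20)), Sm 0 Finset.univ hh
      (cf (fun z => deriv U z) (fun z => deriv V z) i) := by
    intro i _
    fin_cases i
    · exact Sm.const 1
    · exact Sm.const (-2)
    · exact Sm.const 1
    · exact Sm.const (-1)
    · exact (Sm.const 1).add (hSU.sub hSV)
    · exact Sm.const (-1)
    · exact Sm.const 1
    · exact (Sm.const (-1)).mul hSU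
    · exact hSV
    · exact Sm.const (-1)
    · exact (Sm.const 1).sub (hSU.sub hSV)
    · exact Sm.const 1
    · exact Sm.const (-1)
    · exact hSU
    · exact (Sm.const (-1)).mul hSV
    · exact Sm.const 0
    · exact Sm.const 0
    · exact Sm.const 0
    · exact Sm.const 0
    · exact Sm.const 0
  have htot : ∀ z, (cexp (U z) - cexp (V z))^2 =
      cexp (E z) * (cexp (V z)^2 - (1+(deriv U z-deriv V z))*cexp (U z)*cexp (V z) +
        cexp (U z)^2*cexp (V z) - cexp (U z)*cexp (V z)^2 + deriv U z*cexp (U z) -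
        deriv V z*cexp (V z)) +
      cexp (C z) * (cexp (U z)^2 - (1-(deriv U z-deriv V z))*cexp (U z)*cexp (V z) -
        cexp (U z)^2*cexp (V z) + cexp (U z)*cexp (V z)^2 - deriv U z*cexp (U z) +
        deriv V z*cexp (V z)) := by
    intro z
    refine tot (G := G z) (H := H z) (G' := deriv G z) (Ap := cexp (U (z + c)))
      (Bp := cexp (V (z + c))) (Hp := H (z + c)) (h1 z) (h2 z) (h3 z) ?_ ?_ ?_ ?_
    · rw [hCdef]; simp only []; rw [← Complex.exp_add]; simp
    · rw [hEdef]; simp only []; rw [← Complex.exp_add]; simp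
    · linear_combination cexp (U (z + c)) * hAB (z + c) +
        (cexp (U (z + c)) - cexp (V (z + c))) * h1 (z + c)
    · have e1 : HasDerivAt (fun z => (cexp (U z) - cexp (V z)) * G z)
          ((cexp (U z) * deriv U z - cexp (V z) * deriv V z) * G z +
            (cexp (U z) - cexp (V z)) * deriv G z) z :=
        (((hU z).hasDerivAt.cexp).sub ((hV z).hasDerivAt.cexp)).mul (hG z).hasDerivAt
      have e2 : HasDerivAt (fun z => 1 - cexp (V z)) (0 - cexp (V z) * deriv V z) z :=
        (hasDerivAt_const z (1 : ℂ)).sub ((hV z).hasDerivAt.cexp)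
      have e3 : (fun z => (cexp (U z) - cexp (V z)) * G z) = fun z => 1 - cexp (V z) :=
        funext hAB
      rw [e3] at e1
      have e4 := e1.unique e2
      linear_combination e4
  set sval : Fin 20 → ℂ → ℂ := fun i z =>
    cf (fun z => deriv U z) (fun z => deriv V z) i z * cexp (hh i z) with hsval
  have hexp : ∀ i z, cexp (hh i z) = cexp (U z) ^ (vec i).1 * cexp (V z) ^ (vec i).2.1 *
      cexp (C z) ^ (vec i).2.2.1 * cexp (E z) ^ (vec i).2.2.2 := fun i z => exp_hx _ _ _ _ z
  have hsum : ∀ z, ∑ i ∈ (Finset.univ : Finset (Fin 20)),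
      cf (fun z => deriv U z) (fun z => deriv V z) i z * cexp (hh i z) = 0 := by
    intro z
    simp only [hexp]
    have := htot z
    simp [Fin.sum_univ_succ, cf, vec]
    linear_combination this
  have hE0 : ∀ i ∈ (Finset.univ : Finset (Fin 20)), ∀ j ∈ (Finset.univ : Finset (Fin 20)),
      Eqv 0 Finset.univ hh i j → lam (zvec i) = lam (zvec j) := by
    intro i _ j _ hij
    obtain ⟨u, v, hu, hv, hu0, e⟩ := hij
    have h4 : lam (zvec i - zvec j) = 0 := by
      apply hlamN
      refine ⟨u, v, hu, hv, hu0, fun z => ?_⟩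
      have e1 : hx U V C E (zvec i - zvec j) z = hh i z - hh j z := by
        simp only [hhh, hx, Prod.fst_sub, Prod.snd_sub]
        push_cast
        ring
      have e2 := e z
      rw [e1, Complex.exp_sub, mul_div_assoc', e2, mul_div_assoc, div_self (Complex.exp_ne_zero _),
        mul_one]
    rw [map_sub] at h4
    linarith
  have hgr := graded le_rfl hd hcf (fun i => lam (zvec i)) hE0
  simp only [lam_eq] at hgr
  set m := lam (1,0,0,0) with hm
  set n := lam (0,1,0,0) with hn
  set k := lam (0,0,1,0) with hk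
  set l := lam (0,0,0,1) with hl
  have hlc : ∀ v : ℤ × ℤ × ℤ × ℤ, (∃ cc : ℂ, ∀ z, hx U V C E v z = cc) → lam v = 0 := by
    rintro v ⟨cc, hcc⟩
    apply hlamN
    exact ⟨fun _ => 1, fun _ => cexp cc, Sm.const 1, Sm.const _, ⟨0, one_ne_zero⟩, fun z => by
      rw [hcc z, one_mul]⟩
  have dU : Differentiable ℂ (fun z => deriv U z) := hSU.1
  have dV : Differentiable ℂ (fun z => deriv V z) := hSV.1
  have hGr : Gr (R := Ent) m n k l ⟨fun z => cexp (U z), hU.cexp⟩ ⟨fun z => cexp (V z), hV.cexp⟩
      ⟨fun z => cexp (C z), hC.cexp⟩ ⟨fun z => cexp (E z), hE.cexp⟩ ⟨fun z => deriv U z, dU⟩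
      ⟨fun z => deriv V z, dV⟩ := by
    refine { tot := ?_, H := ?_, A0 := ?_, B0 := ?_, X0 := ?_, Y0 := ?_, A1 := ?_, B1 := ?_,
             AB := ?_, X1 := ?_, Y1 := ?_, a0 := ?_, b0 := ?_, ab := ?_, Aa := ?_, Bb := ?_,
             eqd := ?_, f1 := ?_, f2 := ?_ }
    · apply ev_ext
      intro z
      simp only [map_add, map_sub, map_mul, map_pow, map_one, ev_mk]
      exact htot z
    · intro d
      apply ev_ext
      intro z
      have h4 := hgr d Finset.univ (Finset.subset_univ _) hsum z
      simp only [map_add, map_neg, map_sub, map_mul, map_pow, map_one, map_ofNat, map_zero, ev_mk,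
        apply_ite (ev z)]
      rw [sum20] at h4
      have i0 : (if lamv m n k l 0 = d then cf (fun z => deriv U z) (fun z => deriv V z) 0 z *
          cexp (hh 0 z) else 0) = (if 2*m = d then cexp (U z)^2 else 0) :=
        if_congr Iff.rfl (by rw [hexp]; simp [cf, vec] <;> ring) rfl
      have i1 : (if lamv m n k l 1 = d then cf (fun z => deriv U z) (fun z => deriv V z) 1 z *
          cexp (hh 1 z) else 0) = (if m+n = d then -(2*cexp (U z)*cexp (V z)) else 0) :=
        if_congr Iff.rfl (by rw [hexp]; simp [cf, vec] <;> ring) rfl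
      have i2 : (if lamv m n k l 2 = d then cf (fun z => deriv U z) (fun z => deriv V z) 2 z *
          cexp (hh 2 z) else 0) = (if 2*n = d then cexp (V z)^2 else 0) :=
        if_congr Iff.rfl (by rw [hexp]; simp [cf, vec] <;> ring) rfl
      have i3 : (if lamv m n k l 3 = d then cf (fun z => deriv U z) (fun z => deriv V z) 3 z *
          cexp (hh 3 z) else 0) = (if l+2*n = d then -(cexp (V z)^2*cexp (E z)) else 0) :=
        if_congr Iff.rfl (by rw [hexp]; simp [cf, vec] <;> ring) rfl
      have i4 : (if lamv m n k l 4 = d then cf (fun z => deriv U z) (fun z => deriv V z) 4 z *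
          cexp (hh 4 z) else 0) = (if l+m+n = d then (1+(deriv U z-deriv V z))*cexp (U z)*cexp (V z)*cexp (E z) else 0) :=
        if_congr Iff.rfl (by rw [hexp]; simp [cf, vec] <;> ring) rfl
      have i5 : (if lamv m n k l 5 = d then cf (fun z => deriv U z) (fun z => deriv V z) 5 z *
          cexp (hh 5 z) else 0) = (if l+2*m+n = d then -(cexp (U z)^2*cexp (V z)*cexp (E z)) else 0) :=
        if_congr Iff.rfl (by rw [hexp]; simp [cf, vec] <;> ring) rfl
      have i6 : (if lamv m n k l 6 = d then cf (fun z => deriv U z) (fun z => deriv V z) 6 z *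
          cexp (hh 6 z) else 0) = (if l+m+2*n = d then cexp (U z)*cexp (V z)^2*cexp (E z) else 0) :=
        if_congr Iff.rfl (by rw [hexp]; simp [cf, vec] <;> ring) rfl
      have i7 : (if lamv m n k l 7 = d then cf (fun z => deriv U z) (fun z => deriv V z) 7 z *
          cexp (hh 7 z) else 0) = (if l+m = d then -(deriv U z*cexp (U z)*cexp (E z)) else 0) :=
        if_congr Iff.rfl (by rw [hexp]; simp [cf, vec] <;> ring) rfl
      have i8 : (if lamv m n k l 8 = d then cf (fun z => deriv U z) (fun z => deriv V z) 8 z *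
          cexp (hh 8 z) else 0) = (if l+n = d then deriv V z*cexp (V z)*cexp (E z) else 0) :=
        if_congr Iff.rfl (by rw [hexp]; simp [cf, vec] <;> ring) rfl
      have i9 : (if lamv m n k l 9 = d then cf (fun z => deriv U z) (fun z => deriv V z) 9 z *
          cexp (hh 9 z) else 0) = (if k+2*m = d then -(cexp (U z)^2*cexp (C z)) else 0) :=
        if_congr Iff.rfl (by rw [hexp]; simp [cf, vec] <;> ring) rfl
      have i10 : (if lamv m n k l 10 = d then cf (fun z => deriv U z) (fun z => deriv V z) 10 z *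
          cexp (hh 10 z) else 0) = (if k+m+n = d then (1-(deriv U z-deriv V z))*cexp (U z)*cexp (V z)*cexp (C z) else 0) :=
        if_congr Iff.rfl (by rw [hexp]; simp [cf, vec] <;> ring) rfl
      have i11 : (if lamv m n k l 11 = d then cf (fun z => deriv U z) (fun z => deriv V z) 11 z *
          cexp (hh 11 z) else 0) = (if k+2*m+n = d then cexp (U z)^2*cexp (V z)*cexp (C z) else 0) :=
        if_congr Iff.rfl (by rw [hexp]; simp [cf, vec] <;> ring) rfl
      have i12 : (if lamv m n k l 12 = d then cf (fun z => deriv U z) (fun z => deriv V z) 12 z *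
          cexp (hh 12 z) else 0) = (if k+m+2*n = d then -(cexp (U z)*cexp (V z)^2*cexp (C z)) else 0) :=
        if_congr Iff.rfl (by rw [hexp]; simp [cf, vec] <;> ring) rfl
      have i13 : (if lamv m n k l 13 = d then cf (fun z => deriv U z) (fun z => deriv V z) 13 z *
          cexp (hh 13 z) else 0) = (if k+m = d then deriv U z*cexp (U z)*cexp (C z) else 0) :=
        if_congr Iff.rfl (by rw [hexp]; simp [cf, vec] <;> ring) rfl
      have i14 : (if lamv m n k l 14 = d then cf (fun z => deriv U z) (fun z => deriv V z) 14 z *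
          cexp (hh 14 z) else 0) = (if k+n = d then -(deriv V z*cexp (V z)*cexp (C z)) else 0) :=
        if_congr Iff.rfl (by rw [hexp]; simp [cf, vec] <;> ring) rfl
      have i15 : (if lamv m n k l 15 = d then cf (fun z => deriv U z) (fun z => deriv V z) 15 z *
          cexp (hh 15 z) else 0) = 0 := by
        simp [cf]
      have i16 : (if lamv m n k l 16 = d then cf (fun z => deriv U z) (fun z => deriv V z) 16 z *
          cexp (hh 16 z) else 0) = 0 := by
        simp [cf]
      have i17 : (if lamv m n k l 17 = d then cf (fun z => deriv U z) (fun z => deriv V z) 17 z *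
          cexp (hh 17 z) else 0) = 0 := by
        simp [cf]
      have i18 : (if lamv m n k l 18 = d then cf (fun z => deriv U z) (fun z => deriv V z) 18 z *
          cexp (hh 18 z) else 0) = 0 := by
        simp [cf]
      have i19 : (if lamv m n k l 19 = d then cf (fun z => deriv U z) (fun z => deriv V z) 19 z *
          cexp (hh 19 z) else 0) = 0 := by
        simp [cf]
      rw [i0, i1, i2, i3, i4, i5, i6, i7, i8, i9, i10, i11, i12, i13, i14, i15, i16, i17, i18, i19] at h4
      linear_combination h4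
    · exact fun h => Complex.exp_ne_zero _ (congrFun (congrArg Subtype.val h) 0)
    · exact fun h => Complex.exp_ne_zero _ (congrFun (congrArg Subtype.val h) 0)
    · exact fun h => Complex.exp_ne_zero _ (congrFun (congrArg Subtype.val h) 0)
    · exact fun h => Complex.exp_ne_zero _ (congrFun (congrArg Subtype.val h) 0)
    · exact fun h => hα fun z => congrFun (congrArg Subtype.val h) z
    · exact fun h => hβ fun z => congrFun (congrArg Subtype.val h) z
    · exact fun h => hαβ fun z => congrFun (congrArg Subtype.val h) z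
    · intro h
      apply hα
      intro z
      have h4 : cexp (C (z - c)) = 1 := congrFun (congrArg Subtype.val h) (z - c)
      rw [hCdef] at h4
      simp only [sub_add_cancel] at h4
      rw [Complex.exp_neg, inv_eq_one] at h4
      exact h4
    · intro h
      apply hβ
      intro z
      have h4 : cexp (E (z - c)) = 1 := congrFun (congrArg Subtype.val h) (z - c)
      rw [hEdef] at h4
      simp only [sub_add_cancel] at h4
      rw [Complex.exp_neg, inv_eq_one] at h4
      exact h4
    · exact fun h => fa fun z => congrFun (congrArg Subtype.val h) z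
    · exact fun h => fb fun z => congrFun (congrArg Subtype.val h) z
    · exact fun h => fab fun z => congrFun (congrArg Subtype.val h) z
    · intro h
      obtain ⟨z, hz⟩ := no_log_deriv hU
      exact hz (congrFun (congrArg Subtype.val h) z)
    · intro h
      obtain ⟨z, hz⟩ := no_log_deriv hV
      exact hz (congrFun (congrArg Subtype.val h) z)
    · intro h
      have h4 : ∀ z, deriv U z = deriv V z := fun z => congrFun (congrArg Subtype.val h) z
      have h5 : lam (1, -1, 0, 0) = 0 := by
        apply hlc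
        have h6 : ∀ z, HasDerivAt (fun z => U z - V z) 0 z := by
          intro z
          refine ((hU z).hasDerivAt.sub (hV z).hasDerivAt).congr_deriv ?_
          rw [h4 z, sub_self]
        refine ⟨U 0 - V 0, fun z => ?_⟩
        have h7 : U z - V z = U 0 - V 0 := is_const_of_deriv_eq_zero (f := fun z => U z - V z)
          (fun z => (h6 z).differentiableAt) (fun z => (h6 z).deriv) z 0
        rw [← h7]
        simp [hx]
        ring
      have h6 : lam (1, -1, 0, 0) = m - n := by
        have e : ((1, -1, 0, 0) : ℤ × ℤ × ℤ × ℤ) = (1, 0, 0, 0) - (0, 1, 0, 0) := by decide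
        rw [e, map_sub]
      linarith
    · intro h
      apply ev_ext
      intro z
      have h4 : ∀ z, cexp (U z) * cexp (V z)^2 = -1 := fun z => congrFun (congrArg Subtype.val h) z
      have h5 : HasDerivAt (fun z => cexp (U z) * cexp (V z)^2)
          (cexp (U z) * deriv U z * cexp (V z)^2 +
            cexp (U z) * (2 * cexp (V z) ^ (2-1) * (cexp (V z) * deriv V z))) z := by
        have := ((hU z).hasDerivAt.cexp).mul (((hV z).hasDerivAt.cexp).pow 2)
        exact_mod_cast this
      have h6 : (fun z => cexp (U z) * cexp (V z)^2) = fun _ => -1 := funext h4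
      rw [h6] at h5
      have h7 := h5.unique (hasDerivAt_const z (-1 : ℂ))
      simp only [map_add, map_mul, map_ofNat, map_zero, ev_mk]
      have h8 := h4 z
      simp only [Nat.add_one_sub_one, pow_one] at h7
      linear_combination -h7 + (deriv U z + 2 * deriv V z) * h8
    · intro h
      apply ev_ext
      intro z
      have h4 : ∀ z, cexp (U z)^2 * cexp (V z) = -1 := fun z => congrFun (congrArg Subtype.val h) z
      have h5 : HasDerivAt (fun z => cexp (U z)^2 * cexp (V z))
          ((2 * cexp (U z) ^ (2-1) * (cexp (U z) * deriv U z)) * cexp (V z) +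
            cexp (U z)^2 * (cexp (V z) * deriv V z)) z := by
        have := (((hU z).hasDerivAt.cexp).pow 2).mul ((hV z).hasDerivAt.cexp)
        exact_mod_cast this
      have h6 : (fun z => cexp (U z)^2 * cexp (V z)) = fun _ => -1 := funext h4
      rw [h6] at h5
      have h7 := h5.unique (hasDerivAt_const z (-1 : ℂ))
      simp only [map_add, map_mul, map_ofNat, map_zero, ev_mk]
      have h8 := h4 z
      simp only [Nat.add_one_sub_one, pow_one] at h7
      linear_combination -h7 + (2 * deriv U z + deriv V z) * h8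
  obtain ⟨e1, e2, e3, e4⟩ := hGr.main
  apply hlam0
  obtain ⟨p, q, r, s⟩ := v0
  have e : ((p, q, r, s) : ℤ × ℤ × ℤ × ℤ) = p • (1,0,0,0) + q • (0,1,0,0) + r • (0,0,1,0) +
      s • (0,0,0,1) := by
    simp
  rw [e]
  simp only [map_add, map_smul, smul_eq_mul]
  rw [← hm, ← hn, ← hk, ← hl, e1, e2, e3, e4]
  simp

end Pool.Agent.V11202.NH
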