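import Pool.Agent.V11202.NH.Mero
import Pool.Agent.Helper551.NevJ664

/-!
Growth of an entire function from the growth of numerator and denominator, and the hyper-order.
-/

set_option autoImplicit false

open Complex Set Metric Filter Topology MeasureTheory ValueDistribution

namespace Pool.Agent.V11202.NH

/-- at most exponential growth of a fourth power -/
def E4 (f : ℂ → ℂ) : Prop := ∃ A : ℝ, 0 < A ∧ ∀ z, ‖f z‖ ≤ Real.exp (A * (1 + ‖z‖) ^ 4)

theorem one_le_p4 (z : ℂ) : 1 ≤ (1 + ‖z‖) ^ 4 :=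
  one_le_pow₀ (by have := norm_nonneg z; linarith)

theorem posLog_le {x B : ℝ} (hx : 0 ≤ x) (hB : 0 ≤ B) (h : x ≤ Real.exp B) :
    Real.posLog x ≤ B := by
  unfold Real.posLog
  refine max_le hB ?_
  rcases eq_or_lt_of_le hx with h0 | h0
  · rw [← h0, Real.log_zero]; exact hB
  · exact (Real.log_le_iff_le_exp h0).2 h

theorem T_le {f : ℂ → ℂ} (hf : Differentiable ℂ f) {A : ℝ} (hA : 0 < A)
    (h : ∀ z, ‖f z‖ ≤ Real.exp (A * (1 + ‖z‖) ^ 4)) {r : ℝ} (hr : 0 ≤ r) :
    NevT.T r f ≤ A * (1 + r) ^ 4 := by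
  rw [NevT.J664.T_eq_circleAverage]
  refine Real.circleAverage_mono_on_of_le_circle
    (NevT.J664.cont_pl f hf).continuousOn.circleIntegrable' ?_
  intro z hz
  have hz' : ‖z‖ = r := by
    rw [mem_sphere_iff_norm, sub_zero, abs_of_nonneg hr] at hz
    exact hz
  rw [← hz']
  exact posLog_le (norm_nonneg _) (by positivity) (h z)

/-- pointwise bound by the characteristic -/
theorem pl_le {f : ℂ → ℂ} (hf : Differentiable ℂ f) (w : ℂ) :
    Real.posLog ‖f w‖ ≤ 4 * NevT.T (2 * (1 + ‖w‖)) f := by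
  set s : ℝ := 1 + ‖w‖ with hs
  have hs0 : 0 < s := by have := norm_nonneg w; linarith
  have hc := NevT.J664.cont_pl f hf
  have h1 := NevT.J664.submean_area f hf w s hs0
  have h2 : ∫ z in Metric.ball w s, Real.posLog ‖f z‖ ≤
      ∫ z in Metric.ball (0 : ℂ) (2 * s), Real.posLog ‖f z‖ := by
    refine setIntegral_mono_set ?_ ?_ ?_
    · exact (hc.continuousOn.integrableOn_compact (isCompact_closedBall _ _)).mono_set
        Metric.ball_subset_closedBall
    · exact Eventually.of_forall fun u => Real.posLog_nonneg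
    · refine (Metric.ball_subset_ball' ?_).eventuallyLE
      rw [dist_eq_norm, sub_zero]
      linarith
  have h3 := NevT.J664.ball_avg (fun z => Real.posLog ‖f z‖) hc 0 (2 * s)
  simp only [zero_add] at h3
  have h4 : ∫ ζ in Metric.ball (0 : ℂ) (2 * s),
      Real.circleAverage (fun z => Real.posLog ‖f z‖) 0 ‖ζ‖ ≤
      ∫ _ζ in Metric.ball (0 : ℂ) (2 * s), NevT.T (2 * s) f := by
    refine setIntegral_mono_on ?_ ?_ measurableSet_ball ?_
    · have hcc : Continuous (fun ζ : ℂ =>
          Real.circleAverage (fun z => Real.posLog ‖f z‖) 0 ‖ζ‖) := by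
        have h3 : Continuous (fun x : ℝ =>
            Real.circleAverage (fun z => Real.posLog ‖f z‖) 0 x) :=
          Real.Continuous.circleAverage hc
        exact h3.comp continuous_norm
      exact (hcc.continuousOn.integrableOn_compact
        (isCompact_closedBall (0 : ℂ) (2 * s))).mono_set Metric.ball_subset_closedBall
    · exact (continuous_const.continuousOn.integrableOn_compact
        (isCompact_closedBall (0 : ℂ) (2 * s))).mono_set Metric.ball_subset_closedBall
    · intro ζ hζ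
      rw [mem_ball_zero_iff] at hζ
      rcases eq_or_ne ζ 0 with h0 | h0
      · rw [h0, norm_zero, Real.circleAverage_zero, NevT.J664.T_eq_circleAverage]
        exact NevT.J664.submean f hf 0 (2 * s)
      · rw [← NevT.J664.T_eq_circleAverage]
        exact NevT.J664.T_mono f hf _ _ (norm_pos_iff.2 h0) hζ.le
  have hvol : (volume (Metric.ball (0 : ℂ) (2 * s))).toReal = Real.pi * (2 * s) ^ 2 := by
    rw [Complex.volume_ball]
    simp [hs0.le]
    ring
  have h5 : ∫ _ζ in Metric.ball (0 : ℂ) (2 * s), NevT.T (2 * s) f =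
      (Real.pi * (2 * s) ^ 2) * NevT.T (2 * s) f := by
    rw [setIntegral_const, smul_eq_mul, Measure.real, hvol]
  have h6 : (Real.pi * s ^ 2) * Real.posLog ‖f w‖ ≤
      (Real.pi * s ^ 2) * (4 * NevT.T (2 * s) f) := by
    calc _ ≤ _ := h1
      _ ≤ _ := h2
      _ = _ := h3
      _ ≤ _ := h4
      _ = _ := h5
      _ = _ := by ring
  exact le_of_mul_le_mul_left h6 (by positivity)

theorem order_ne_top {f : ℂ → ℂ} (hf : Differentiable ℂ f) (h : ∃ z, f z ≠ 0) (z : ℂ) :
    meromorphicOrderAt f z ≠ ⊤ := by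
  obtain ⟨z0, hz0⟩ := h
  have h1 : meromorphicOrderAt f z0 ≠ ⊤ := by
    intro h2
    rw [meromorphicOrderAt_eq_top_iff] at h2
    have h3 : f =ᶠ[𝓝 z0] fun _ => 0 := by
      have hc : ContinuousAt (fun _ : ℂ => (0 : ℂ)) z0 := continuousAt_const
      exact ((hf.continuous.continuousAt).eventuallyEq_nhds_iff_eventuallyEq_nhdsNE hc).1 h2
    exact hz0 h3.eq_of_nhds
  exact (show MeromorphicOn f univ from fun z _ =>
    (hf.analyticAt z).meromorphicAt).meromorphicOrderAt_ne_top_of_isPreconnected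
      isPreconnected_univ (mem_univ z0) (mem_univ z) h1

theorem E4.quot {H s t : ℂ → ℂ} (hH : Differentiable ℂ H) (hs : Differentiable ℂ s)
    (ht : Differentiable ℂ t) (hst : ∀ z, s z * H z = t z) (hs0 : ∃ z, s z ≠ 0) (hs4 : E4 s)
    (ht4 : E4 t) : E4 H := by
  obtain ⟨A, hA, hsA⟩ := hs4
  obtain ⟨B, hB, htB⟩ := ht4
  have hcod : ∀ᶠ z in codiscrete ℂ, s z ≠ 0 := by
    have hsm : MeromorphicOn s univ := fun z _ => (hs.analyticAt z).meromorphicAt
    obtain ⟨z0, hz0⟩ := hs0
    have h1 : AnalyticOnNhd ℂ s univ := fun z _ => hs.analyticAt z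
    exact h1.preimage_zero_mem_codiscrete hz0
  by_cases ht0 : ∃ z, t z ≠ 0
  · have hso := order_ne_top hs hs0
    have hto := order_ne_top ht ht0
    have hsm : Meromorphic s := fun z => (hs.analyticAt z).meromorphicAt
    have htm : Meromorphic t := fun z => (ht.analyticAt z).meromorphicAt
    have heq : H =ᶠ[codiscrete ℂ] t * s⁻¹ := by
      filter_upwards [hcod] with z hz
      rw [Pi.mul_apply, Pi.inv_apply, ← hst z]
      field_simp
    have hsio : ∀ z, meromorphicOrderAt s⁻¹ z ≠ ⊤ := by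
      intro z
      rw [meromorphicOrderAt_inv]
      obtain ⟨n, hn⟩ := WithTop.ne_top_iff_exists.1 (hso z)
      rw [← hn]
      exact WithTop.coe_ne_top
    set κ : ℝ := max |Real.log ‖s 0‖| |Real.log ‖meromorphicTrailingCoeffAt s 0‖| with hκ
    have hκ0 : 0 ≤ κ := (abs_nonneg _).trans (le_max_left _ _)
    have hT : ∀ r : ℝ, 1 ≤ r → NevT.T r H ≤ (A + B + κ) * (1 + r) ^ 4 := by
      intro r hr
      have hr0 : r ≠ 0 := by positivity
      rw [NevT.J664.T_eq_characteristic H hH, characteristic_congr_codiscrete heq hr0]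
      have h1 := characteristic_mul_top_le hr htm hto hsm.inv hsio
      have h2 := characteristic_sub_characteristic_inv_le (R := r) hsm
      rw [← hκ] at h2
      have h3 := (abs_le.1 h2).1
      have h4 := T_le ht hB htB (r := r) (by linarith)
      have h5 := T_le hs hA hsA (r := r) (by linarith)
      rw [NevT.J664.T_eq_characteristic t ht] at h4
      rw [NevT.J664.T_eq_characteristic s hs] at h5
      rw [Pi.add_apply] at h1
      have h6 : 1 ≤ (1 + r) ^ 4 := one_le_pow₀ (by linarith)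
      nlinarith
    refine ⟨324 * (A + B + κ), by positivity, fun z => ?_⟩
    have h1 := pl_le hH z
    have hn := norm_nonneg z
    have h2 := hT (2 * (1 + ‖z‖)) (by linarith)
    have h3 : (1 + 2 * (1 + ‖z‖)) ^ 4 ≤ (3 * (1 + ‖z‖)) ^ 4 := by
      apply pow_le_pow_left₀ (by positivity)
      linarith
    have h4 : Real.posLog ‖H z‖ ≤ 324 * (A + B + κ) * (1 + ‖z‖) ^ 4 := by
      have h5 : (A + B + κ) * (1 + 2 * (1 + ‖z‖)) ^ 4 ≤ (A + B + κ) * (3 * (1 + ‖z‖)) ^ 4 :=
        mul_le_mul_of_nonneg_left h3 (by positivity)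
      have h6 : (A + B + κ) * (3 * (1 + ‖z‖)) ^ 4 = 81 * ((A + B + κ) * (1 + ‖z‖) ^ 4) := by ring
      linarith
    rcases eq_or_ne (‖H z‖) 0 with h0 | h0
    · rw [h0]; positivity
    · have h7 : 0 < ‖H z‖ := lt_of_le_of_ne (norm_nonneg _) (Ne.symm h0)
      have h8 : Real.log ‖H z‖ ≤ Real.posLog ‖H z‖ := le_max_right _ _
      exact (Real.log_le_iff_le_exp h7).1 (h8.trans h4)
  · push Not at ht0
    have hH0 : ∀ z, H z = 0 := by
      intro z
      by_contra hz
      have h1 := order_ne_top hH ⟨z, hz⟩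
      have hc : AnalyticOnNhd ℂ H univ := fun z _ => hH.analyticAt z
      have h2 : ∀ᶠ z in codiscrete ℂ, H z ≠ 0 := hc.preimage_zero_mem_codiscrete hz
      have h3 : ∀ᶠ w in 𝓝[≠] (0 : ℂ), s w ≠ 0 ∧ H w ≠ 0 := by
        have h4 := mem_codiscreteWithin_iff_forall_mem_nhdsNE.1 (hcod.and h2) 0 (mem_univ 0)
        rw [compl_univ, union_empty] at h4
        exact h4
      obtain ⟨w, hw1, hw2⟩ := h3.exists
      exact (mul_ne_zero hw1 hw2) ((hst w).trans (ht0 w))
    exact ⟨1, one_pos, fun z => by rw [hH0 z, norm_zero]; positivity⟩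

theorem exp_bound {a b A : ℝ} (ha : 0 ≤ a) (hb : 0 ≤ b) (hA : 0 ≤ A) (z : ℂ) :
    a + b * Real.exp (A * (1 + ‖z‖) ^ 4) ≤ Real.exp ((A + a + b) * (1 + ‖z‖) ^ 4) := by
  have h1 := one_le_p4 z
  have h2 : 1 ≤ Real.exp (A * (1 + ‖z‖) ^ 4) := Real.one_le_exp (by positivity)
  have h3 : a + b ≤ Real.exp ((a + b) * (1 + ‖z‖) ^ 4) := by
    have h4 := Real.add_one_le_exp ((a + b) * (1 + ‖z‖) ^ 4)
    nlinarith
  calc a + b * Real.exp (A * (1 + ‖z‖) ^ 4)
      ≤ (a + b) * Real.exp (A * (1 + ‖z‖) ^ 4) := by nlinarith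
    _ ≤ Real.exp ((a + b) * (1 + ‖z‖) ^ 4) * Real.exp (A * (1 + ‖z‖) ^ 4) := by gcongr
    _ = _ := by rw [← Real.exp_add]; ring_nf

theorem E4.affine {H : ℂ → ℂ} (hH : E4 H) (a b : ℂ) : E4 (fun z => a + b * H z) := by
  obtain ⟨A, hA, h⟩ := hH
  refine ⟨A + ‖a‖ + ‖b‖, by positivity, fun z => ?_⟩
  refine le_trans ?_ (exp_bound (norm_nonneg a) (norm_nonneg b) hA.le z)
  refine (norm_add_le _ _).trans ?_
  rw [norm_mul]
  gcongr
  exact h z

/-- integration -/
theorem E4.prim {F : ℂ → ℂ} (hF : Differentiable ℂ F) (h : E4 (deriv F)) : E4 F := by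
  obtain ⟨A, hA, h⟩ := h
  refine ⟨A + 1 + ‖F 0‖ + 1, by positivity, fun z => ?_⟩
  have h1 : ‖F z - F 0‖ ≤ Real.exp (A * (1 + ‖z‖) ^ 4) * ‖z - 0‖ := by
    refine (convex_closedBall (0 : ℂ) ‖z‖).norm_image_sub_le_of_norm_deriv_le
      (fun w _ => hF w) ?_ (by simp) (by simp)
    intro w hw
    rw [mem_closedBall_zero_iff] at hw
    refine (h w).trans (Real.exp_le_exp.2 ?_)
    gcongr
  rw [sub_zero] at h1
  have h2 : ‖z‖ ≤ Real.exp (1 * (1 + ‖z‖) ^ 4) := by
    have h3 := Real.add_one_le_exp (1 * (1 + ‖z‖) ^ 4)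
    have h4 : (1 + ‖z‖) ≤ (1 + ‖z‖) ^ 4 :=
      le_self_pow₀ (by have := norm_nonneg z; linarith) (by norm_num)
    linarith
  have h3 : ‖F z‖ ≤ ‖F 0‖ + 1 * Real.exp ((A + 1) * (1 + ‖z‖) ^ 4) := by
    have h4 : ‖F z‖ ≤ ‖F 0‖ + ‖F z - F 0‖ := by
      have := norm_add_le (F 0) (F z - F 0)
      rwa [add_sub_cancel] at this
    have h5 : Real.exp (A * (1 + ‖z‖) ^ 4) * ‖z‖ ≤ Real.exp ((A + 1) * (1 + ‖z‖) ^ 4) := by
      calc _ ≤ Real.exp (A * (1 + ‖z‖) ^ 4) * Real.exp (1 * (1 + ‖z‖) ^ 4) := by gcongr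
        _ = _ := by rw [← Real.exp_add]; ring_nf
    linarith
  exact h3.trans (exp_bound (norm_nonneg _) zero_le_one (by positivity) z)

/-- the hyper-order of a meromorphic function -/
noncomputable def hyperOrder (f : ℂ → ℂ) : EReal :=
  Filter.limsup (fun r : ℝ =>
    ((Real.log (Real.log (characteristic f ⊤ r)) / Real.log r : ℝ) : EReal)) atTop

theorem hyperOrder_congr {f g : ℂ → ℂ} (h : f =ᶠ[codiscrete ℂ] g) : hyperOrder f = hyperOrder g := by
  unfold hyperOrder
  apply Filter.limsup_congr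
  filter_upwards [eventually_gt_atTop 0] with r hr
  rw [characteristic_congr_codiscrete h hr.ne']

theorem E4.hyperOrder_ne_top {F : ℂ → ℂ} (hF : Differentiable ℂ F) (h : E4 F) :
    hyperOrder F ≠ ⊤ := by
  obtain ⟨A, hA, h⟩ := h
  have hT : ∀ r : ℝ, 1 ≤ r → characteristic F ⊤ r ≤ 16 * A * r ^ 4 := by
    intro r hr
    rw [← NevT.J664.T_eq_characteristic F hF]
    refine (T_le hF hA h (by linarith)).trans ?_
    have h1 : (1 + r) ^ 4 ≤ (2 * r) ^ 4 := by
      apply pow_le_pow_left₀ (by positivity)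
      linarith
    have h2 : (2 * r) ^ 4 = 16 * r ^ 4 := by ring
    nlinarith
  obtain ⟨M, hM⟩ : ∃ M : ℝ, ∀ᶠ r in atTop,
      Real.log (Real.log (characteristic F ⊤ r)) / Real.log r ≤ M := by
    by_cases h0 : ∃ r0 : ℝ, 1 ≤ r0 ∧ characteristic F ⊤ r0 ≠ 0
    · obtain ⟨r0, hr0, hr1⟩ := h0
      set τ := characteristic F ⊤ r0 with hτ
      have hτ0 : 0 < τ := lt_of_le_of_ne (characteristic_nonneg hr0) (Ne.symm hr1)
      refine ⟨|Real.log τ| + |Real.log (16 * A)| + 4, ?_⟩
      filter_upwards [eventually_ge_atTop r0, eventually_ge_atTop (Real.exp 1)] with r h1 h2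
      have hr1' : 1 ≤ r := hr0.trans h1
      have hrp : 0 < r := by linarith
      have h3 : τ ≤ characteristic F ⊤ r := by
        rw [hτ, ← NevT.J664.T_eq_characteristic F hF, ← NevT.J664.T_eq_characteristic F hF]
        exact NevT.J664.T_mono F hF _ _ (by linarith) h1
      have h4 := hT r hr1'
      have h5 : 0 < characteristic F ⊤ r := hτ0.trans_le h3
      have h6 : 1 ≤ Real.log r := by
        rw [Real.le_log_iff_exp_le hrp]; exact h2
      have h7 : Real.log τ ≤ Real.log (characteristic F ⊤ r) := Real.log_le_log hτ0 h3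
      have h8 : Real.log (characteristic F ⊤ r) ≤ Real.log (16 * A) + 4 * Real.log r := by
        refine (Real.log_le_log h5 h4).trans ?_
        rw [Real.log_mul (by positivity) (by positivity), Real.log_pow]
        norm_num
      have h9 : |Real.log (characteristic F ⊤ r)| ≤
          |Real.log τ| + |Real.log (16 * A)| + 4 * Real.log r := by
        rw [abs_le]
        have e1 := neg_abs_le (Real.log τ)
        have e2 := le_abs_self (Real.log (16 * A))
        have e3 := abs_nonneg (Real.log τ)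
        have e4 := abs_nonneg (Real.log (16 * A))
        constructor <;> linarith
      have h10 : Real.log (Real.log (characteristic F ⊤ r)) ≤
          |Real.log (characteristic F ⊤ r)| := by
        rw [← Real.log_abs]
        exact Real.log_le_self (abs_nonneg _)
      rw [div_le_iff₀ (by linarith)]
      have e3 := abs_nonneg (Real.log τ)
      have e4 := abs_nonneg (Real.log (16 * A))
      nlinarith
    · push Not at h0
      refine ⟨0, ?_⟩
      filter_upwards [eventually_ge_atTop 1] with r hr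
      rw [h0 r hr, Real.log_zero, Real.log_zero, zero_div]
  have h1 : hyperOrder F ≤ (M : EReal) := by
    unfold hyperOrder
    refine Filter.limsup_le_of_le (by isBoundedDefault) ?_
    filter_upwards [hM] with r hr
    exact_mod_cast hr
  exact (h1.trans_lt (EReal.coe_lt_top M)).ne

end Pool.Agent.V11202.NH
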