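import Pool.Agent.TH242.MK.BorelFin

/-!
Sums over the classes of exponentials with small quotients, and gradings.
-/

set_option autoImplicit false

open Complex Set Metric Filter Topology
open Pool.Agent.TH242.MK

namespace Pool.Agent.V11202.NH

variable {ι : Type} {σ : ℝ} {J : Finset ι} {h : ι → ℂ → ℂ}

open Classical in
theorem class_sum (hσ : 0 ≤ σ) (hd : ∀ i, Differentiable ℂ (h i)) {c : ι → ℂ → ℂ}
    (hc : ∀ i ∈ J, Sm σ J h (c i)) {T0 : Finset ι} (hT0 : T0 ⊆ J)
    (hsum : ∀ z, ∑ i ∈ T0, c i z * cexp (h i z) = 0) {i0 : ι} (hi0 : i0 ∈ T0) :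
    ∀ z, ∑ j ∈ T0.filter (fun j => Eqv σ J h j i0), c j z * cexp (h j z) = 0 := by
  set T : Finset ι := T0.filter fun j => Eqv σ J h j i0 with hT
  have hi0T : i0 ∈ T := by
    rw [hT, Finset.mem_filter]
    exact ⟨hi0, fun _ => 1, fun _ => 1, Sm.const 1, Sm.const 1, ⟨0, one_ne_zero⟩, fun _ => rfl⟩
  obtain ⟨D, w, hD, ⟨z0, hz0⟩, hw⟩ := common (σ := σ) (J := J) (h := h) (i0 := i0) T
    fun j hj => by exact (Finset.mem_filter.1 hj).2
  have hTJ : ∀ j ∈ T, j ∈ J := fun j hj => hT0 (Finset.mem_filter.1 hj).1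
  set s : ι → ℂ → ℂ := fun i z => if i = i0 then ∑ j ∈ T, c j z * w j z else c i z * D z with hs
  have hS : ∀ i ∈ J, Sm σ J h (s i) := by
    intro i hiJ
    by_cases hi : i = i0
    · have : s i = fun z => ∑ j ∈ T, c j z * w j z := by
        funext z; simp [hs, hi]
      rw [this]
      exact Sm.sum T (fun j z => c j z * w j z) fun j hj => (hc j (hTJ j hj)).mul (hw j hj).1
    · have : s i = fun z => c i z * D z := by
        funext z; simp [hs, hi]
      rw [this]
      exact (hc i hiJ).mul hD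
  have e1 : ∀ z, s i0 z * cexp (h i0 z) = D z * ∑ j ∈ T, c j z * cexp (h j z) := by
    intro z
    simp only [hs, if_true]
    rw [Finset.sum_mul, Finset.mul_sum]
    refine Finset.sum_congr rfl fun j hj => ?_
    have := (hw j hj).2 z
    linear_combination -(c j z) * this
  have hrel : ∀ z, s i0 z * cexp (h i0 z) + ∑ j ∈ T0 \ T, s j z * cexp (h j z) = 0 := by
    intro z
    have e2 : ∑ j ∈ T0 \ T, s j z * cexp (h j z) =
        D z * ∑ j ∈ T0 \ T, c j z * cexp (h j z) := by
      rw [Finset.mul_sum]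
      refine Finset.sum_congr rfl fun j hj => ?_
      have hj0 : j ≠ i0 := by
        rintro rfl
        exact (Finset.mem_sdiff.1 hj).2 hi0T
      simp only [hs, hj0, if_false]
      ring
    rw [e1 z, e2, ← mul_add, add_comm, Finset.sum_sdiff (Finset.filter_subset _ _), hsum z,
      mul_zero]
  have h0 := indep (J := J) (h := h) hσ hd (hT0 hi0) (T0 \ T)
    (fun j hj => hT0 (Finset.mem_sdiff.1 hj).1)
    (fun hh => (Finset.mem_sdiff.1 hh).2 hi0T)
    (fun j hj hE => (Finset.mem_sdiff.1 hj).2 (by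
      rw [hT, Finset.mem_filter]
      exact ⟨(Finset.mem_sdiff.1 hj).1, hE.symm⟩)) s hS hrel
  have h2 : ∀ z, D z * ∑ j ∈ T, c j z * cexp (h j z) = 0 := by
    intro z
    rw [← e1 z, h0 z, zero_mul]
  have hdd : Differentiable ℂ fun z => ∑ j ∈ T, c j z * cexp (h j z) := by
    apply Differentiable.fun_sum
    intro j hj
    exact (hc j (hTJ j hj)).1.mul (hd j).cexp
  rcases mul_zero_or hD.1 hdd h2 with h3 | h3
  · exact absurd (h3 z0) hz0
  · exact h3

open Classical in
theorem graded (hσ : 0 ≤ σ) (hd : ∀ i, Differentiable ℂ (h i)) {c : ι → ℂ → ℂ}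
    (hc : ∀ i ∈ J, Sm σ J h (c i)) (lam : ι → ℤ)
    (hlam : ∀ i ∈ J, ∀ j ∈ J, Eqv σ J h i j → lam i = lam j) (d : ℤ) :
    ∀ T0 : Finset ι, T0 ⊆ J → (∀ z, ∑ i ∈ T0, c i z * cexp (h i z) = 0) →
    ∀ z, ∑ i ∈ T0, (if lam i = d then c i z * cexp (h i z) else 0) = 0 := by
  intro T0
  induction T0 using Finset.strongInduction with
  | H T0 ih =>
    intro hT0 hsum z
    rcases T0.eq_empty_or_nonempty with he | ⟨i0, hi0⟩
    · rw [he]; simp
    · set T : Finset ι := T0.filter fun j => Eqv σ J h j i0 with hT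
      have hcl := class_sum hσ hd hc hT0 hsum hi0
      have hi0T : i0 ∈ T := by
        rw [hT, Finset.mem_filter]
        exact ⟨hi0, fun _ => 1, fun _ => 1, Sm.const 1, Sm.const 1, ⟨0, one_ne_zero⟩,
          fun _ => rfl⟩
      have hTT : T ⊆ T0 := Finset.filter_subset _ _
      have h1 : ∀ z, ∑ i ∈ T0 \ T, c i z * cexp (h i z) = 0 := by
        intro z
        have := Finset.sum_sdiff (f := fun i => c i z * cexp (h i z)) hTT
        rw [hcl z, hsum z, add_zero] at this
        exact this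
      have h2 := ih (T0 \ T) (by
        refine Finset.ssubset_iff_subset_ne.2 ⟨Finset.sdiff_subset, fun hh => ?_⟩
        have : i0 ∈ T0 \ T := by rw [hh]; exact hi0
        exact (Finset.mem_sdiff.1 this).2 hi0T) (Finset.sdiff_subset.trans hT0) h1 z
      have h3 : ∑ i ∈ T, (if lam i = d then c i z * cexp (h i z) else 0) = 0 := by
        have h4 : ∀ i ∈ T, lam i = lam i0 := fun i hi =>
          hlam i (hT0 (hTT hi)) i0 (hT0 hi0) (Finset.mem_filter.1 hi).2
        by_cases hdd : lam i0 = d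
        · rw [← hcl z]
          refine Finset.sum_congr rfl fun i hi => ?_
          rw [if_pos ((h4 i hi).trans hdd)]
        · apply Finset.sum_eq_zero
          intro i hi
          rw [if_neg]
          rw [h4 i hi]
          exact hdd
      rw [← Finset.sum_sdiff hTT, h2, h3, add_zero]

end Pool.Agent.V11202.NH
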