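import Mathlib

/-!
A growth lemma: functions bounded in terms of their logarithm are of polynomial growth.
-/

set_option autoImplicit false

namespace Pool.Agent.V11202.NH

theorem pow5_exp (L : ℝ) (hL : 0 ≤ L) : L ^ 5 ≤ 3840 * Real.exp (L / 2) := by
  have h := Real.pow_div_factorial_le_exp (L / 2) (by positivity) 5
  have e : (L / 2) ^ 5 / (Nat.factorial 5 : ℝ) = L ^ 5 / 3840 := by
    norm_num [Nat.factorial]
    ring
  rw [e] at h
  linarith

theorem growth_step {M : ℝ → ℝ} (h1 : ∀ r, Real.exp 1 ≤ M r) {A K : ℝ}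
    (hA : 0 ≤ A) (hK : 16 ≤ K) (hK2 : (24 * A * 3840 + 1) ^ 2 ≤ K)
    (hM : ∀ r δ : ℝ, 1 ≤ r → 0 < δ →
      M r ≤ A * (1 + r / δ) ^ 2 * (1 + Real.log (M (r + δ)) + max 0 (Real.log (1 / δ)) + 1))
    {r : ℝ} (hr : 1 ≤ r) (hb : K * r ^ 4 < M r) :
    2 * Real.log (M r) ≤ Real.log (M (r + 1 / (Real.log (M r)) ^ 2)) := by
  set L : ℝ := Real.log (M r) with hL
  have hMpos : 0 < M r := lt_of_lt_of_le (Real.exp_pos 1) (h1 r)
  have hL1 : 1 ≤ L := by
    rw [hL, Real.le_log_iff_exp_le hMpos]; exact h1 r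
  have hexp : M r = Real.exp L := by rw [hL, Real.exp_log hMpos]
  by_contra hcon
  push Not at hcon
  have hδ : (0 : ℝ) < 1 / L ^ 2 := by positivity
  have h2 := hM r (1 / L ^ 2) hr hδ
  have e1 : r / (1 / L ^ 2) = r * L ^ 2 := by field_simp
  have e2 : (1 : ℝ) / (1 / L ^ 2) = L ^ 2 := by field_simp
  rw [e1, e2] at h2
  have h3 : max 0 (Real.log (L ^ 2)) ≤ 2 * L := by
    apply max_le (by linarith)
    rw [Real.log_pow]
    have := Real.log_le_self (show (0 : ℝ) ≤ L by linarith)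
    push_cast
    linarith
  have h4 : 1 + r * L ^ 2 ≤ 2 * (r * L ^ 2) := by
    have : 1 ≤ r * L ^ 2 := by
      have := one_le_pow₀ (n := 2) hL1
      nlinarith
    linarith
  have h5 : (1 + r * L ^ 2) ^ 2 ≤ (2 * (r * L ^ 2)) ^ 2 :=
    pow_le_pow_left₀ (by positivity) h4 2
  have h6 : 1 + Real.log (M (r + 1 / L ^ 2)) + max 0 (Real.log (L ^ 2)) + 1 ≤ 6 * L := by
    linarith
  have h70 : 0 ≤ 1 + Real.log (M (r + 1 / L ^ 2)) + max 0 (Real.log (L ^ 2)) + 1 := by
    have h8 : 0 ≤ Real.log (M (r + 1 / L ^ 2)) := by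
      apply Real.log_nonneg
      have := h1 (r + 1 / L ^ 2)
      have := Real.add_one_le_exp (1 : ℝ)
      linarith
    have := le_max_left 0 (Real.log (L ^ 2))
    linarith
  have h7 : M r ≤ 24 * A * r ^ 2 * L ^ 5 := by
    calc M r ≤ A * (1 + r * L ^ 2) ^ 2 *
          (1 + Real.log (M (r + 1 / L ^ 2)) + max 0 (Real.log (L ^ 2)) + 1) := h2
      _ ≤ A * (2 * (r * L ^ 2)) ^ 2 * (6 * L) := by
          apply mul_le_mul _ h6 h70 (by positivity)
          exact mul_le_mul_of_nonneg_left h5 hA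
      _ = 24 * A * r ^ 2 * L ^ 5 := by ring
  have h8 := pow5_exp L (by linarith)
  have h9 : Real.exp L = Real.exp (L / 2) * Real.exp (L / 2) := by
    rw [← Real.exp_add]; ring_nf
  set X : ℝ := Real.exp (L / 2) with hX
  have hX0 : 0 < X := Real.exp_pos _
  -- r ^ 2 * sqrt K < X
  have h10 : (r ^ 2 * (24 * A * 3840 + 1)) ^ 2 < X ^ 2 := by
    calc (r ^ 2 * (24 * A * 3840 + 1)) ^ 2 = (24 * A * 3840 + 1) ^ 2 * r ^ 4 := by ring
      _ ≤ K * r ^ 4 := mul_le_mul_of_nonneg_right hK2 (by positivity)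
      _ < M r := hb
      _ = X ^ 2 := by rw [hexp, h9]; ring
  have h11 : r ^ 2 * (24 * A * 3840 + 1) < X := lt_of_pow_lt_pow_left₀ 2 hX0.le h10
  have h12 : X * X ≤ 24 * A * r ^ 2 * (3840 * X) := by
    rw [← h9, ← hexp]
    refine h7.trans ?_
    exact mul_le_mul_of_nonneg_left h8 (by positivity)
  have h13 : X ≤ 24 * A * r ^ 2 * 3840 := by
    have : X * X ≤ (24 * A * r ^ 2 * 3840) * X := by linarith
    exact le_of_mul_le_mul_right this hX0
  have h14 : 0 < r ^ 2 := by positivity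
  nlinarith

/-- polynomial growth -/
theorem growth_poly {M : ℝ → ℝ} (hmono : Monotone M) (h1 : ∀ r, Real.exp 1 ≤ M r) {A : ℝ}
    (hA : 0 ≤ A)
    (hM : ∀ r δ : ℝ, 1 ≤ r → 0 < δ →
      M r ≤ A * (1 + r / δ) ^ 2 * (1 + Real.log (M (r + δ)) + max 0 (Real.log (1 / δ)) + 1)) :
    ∃ K : ℝ, 0 < K ∧ ∀ r : ℝ, 1 ≤ r → M r ≤ K * r ^ 4 := by
  set K : ℝ := 16 + (24 * A * 3840 + 1) ^ 2 with hK
  have hK16 : 16 ≤ K := by
    have := sq_nonneg (24 * A * 3840 + 1); linarith
  have hK2 : (24 * A * 3840 + 1) ^ 2 ≤ K := by linarith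
  refine ⟨K, by linarith, fun r hr => ?_⟩
  by_contra hcon
  push Not at hcon
  have key : ∀ n : ℕ, ∀ r : ℝ, 1 ≤ r → K * r ^ 4 < M r →
      2 ^ n * Real.log (M r) ≤ Real.log (M (r + 2 / (Real.log (M r)) ^ 2)) := by
    intro n
    induction n with
    | zero =>
      intro r hr hb
      rw [pow_zero, one_mul]
      apply Real.log_le_log (lt_of_lt_of_le (Real.exp_pos 1) (h1 r))
      apply hmono
      have : 0 ≤ 2 / (Real.log (M r)) ^ 2 := by positivity
      linarith
    | succ n ih =>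
      intro r hr hb
      have hs := growth_step h1 hA hK16 hK2 hM hr hb
      set L : ℝ := Real.log (M r) with hL
      have hMpos : 0 < M r := lt_of_lt_of_le (Real.exp_pos 1) (h1 r)
      have hL1 : 1 ≤ L := by
        rw [hL, Real.le_log_iff_exp_le hMpos]; exact h1 r
      set r' : ℝ := r + 1 / L ^ 2 with hr'
      set L' : ℝ := Real.log (M r') with hL'
      have hMpos' : 0 < M r' := lt_of_lt_of_le (Real.exp_pos 1) (h1 r')
      have hδ1 : 1 / L ^ 2 ≤ 1 := by
        rw [div_le_one (by positivity)]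
        exact one_le_pow₀ hL1
      have hδ0 : 0 < 1 / L ^ 2 := by positivity
      have hr1' : 1 ≤ r' := by linarith
      have hb' : K * r' ^ 4 < M r' := by
        have e1 : M r * M r ≤ M r' := by
          have : Real.exp (2 * L) ≤ Real.exp L' := Real.exp_le_exp.2 hs
          rw [hL', Real.exp_log hMpos', two_mul, Real.exp_add, hL, Real.exp_log hMpos] at this
          exact this
        have e2 : r' ^ 4 ≤ 16 * r ^ 4 := by
          have : r' ≤ 2 * r := by linarith
          calc r' ^ 4 ≤ (2 * r) ^ 4 := pow_le_pow_left₀ (by linarith) this 4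
            _ = 16 * r ^ 4 := by ring
        have e3 : 16 ≤ M r := by
          have : 1 ≤ r ^ 4 := one_le_pow₀ hr
          nlinarith
        have e4 : 0 < K * r ^ 4 := by positivity
        calc K * r' ^ 4 ≤ K * (16 * r ^ 4) := mul_le_mul_of_nonneg_left e2 (by linarith)
          _ = 16 * (K * r ^ 4) := by ring
          _ < M r * M r := by nlinarith
          _ ≤ M r' := e1
      have h3 := ih r' hr1' hb'
      have h4 : 2 * L ≤ L' := hs
      have h5 : M (r' + 2 / L' ^ 2) ≤ M (r + 2 / L ^ 2) := by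
        apply hmono
        have : 2 / L' ^ 2 ≤ 2 / (2 * L) ^ 2 := by
          apply div_le_div_of_nonneg_left (by norm_num) (by positivity)
          exact pow_le_pow_left₀ (by positivity) h4 2
        have e5 : (2 : ℝ) / (2 * L) ^ 2 = (1 / 2) * (1 / L ^ 2) := by
          field_simp
        have e6 : (2 : ℝ) / L ^ 2 = 2 * (1 / L ^ 2) := by ring
        rw [e6, hr']
        rw [e5] at this
        linarith
      have h6 : Real.log (M (r' + 2 / L' ^ 2)) ≤ Real.log (M (r + 2 / L ^ 2)) :=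
        Real.log_le_log (lt_of_lt_of_le (Real.exp_pos 1) (h1 _)) h5
      have h7 : (2 : ℝ) ^ (n + 1) * L ≤ 2 ^ n * L' := by
        rw [pow_succ, mul_assoc]
        exact mul_le_mul_of_nonneg_left h4 (by positivity)
      linarith
  have hL1 : 1 ≤ Real.log (M r) := by
    rw [Real.le_log_iff_exp_le (lt_of_lt_of_le (Real.exp_pos 1) (h1 r))]; exact h1 r
  obtain ⟨n, hn⟩ := pow_unbounded_of_one_lt (Real.log (M (r + 2 / (Real.log (M r)) ^ 2)))
    (one_lt_two : (1 : ℝ) < 2)
  have h2 := key n r hr hcon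
  have h3 : (2 : ℝ) ^ n ≤ 2 ^ n * Real.log (M r) := le_mul_of_one_le_right (by positivity) hL1
  linarith

end Pool.Agent.V11202.NH
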