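import Pool.Agent.V11202.NH.Grade

/-!
The group of exponents with small exponentials, and functionals vanishing on it.
-/

set_option autoImplicit false

open Complex Set Metric Filter Topology
open Pool.Agent.TH242.MK

namespace Pool.Agent.V11202.NH

/-- a proper saturated subgroup of a finitely generated free group is killed by a functional -/
theorem exists_lam (N : Submodule ℤ (ℤ × ℤ × ℤ × ℤ))
    (hsat : ∀ (r : ℤ) (v : ℤ × ℤ × ℤ × ℤ), r • v ∈ N → r = 0 ∨ v ∈ N)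
    {v0 : ℤ × ℤ × ℤ × ℤ} (hv0 : v0 ∉ N) :
    ∃ lam : (ℤ × ℤ × ℤ × ℤ) →ₗ[ℤ] ℤ, (∀ v ∈ N, lam v = 0) ∧ lam v0 ≠ 0 := by
  have htf : Module.IsTorsionFree ℤ ((ℤ × ℤ × ℤ × ℤ) ⧸ N) := by
    rw [Module.isTorsionFree_iff_smul_eq_zero]
    intro r m hm
    obtain ⟨v, rfl⟩ := N.mkQ_surjective m
    have : N.mkQ (r • v) = 0 := by rw [map_smul]; exact hm
    rw [Submodule.mkQ_apply, Submodule.Quotient.mk_eq_zero] at this
    rcases hsat r v this with h | h
    · exact Or.inl h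
    · right
      rw [Submodule.mkQ_apply, Submodule.Quotient.mk_eq_zero]
      exact h
  have hfree : Module.Free ℤ ((ℤ × ℤ × ℤ × ℤ) ⧸ N) := Module.free_of_finite_type_torsion_free'
  have hne : N.mkQ v0 ≠ 0 := by
    rw [Submodule.mkQ_apply, Ne, Submodule.Quotient.mk_eq_zero]
    exact hv0
  obtain ⟨f, hf⟩ := Module.Projective.exists_dual_ne_zero ℤ hne
  refine ⟨f ∘ₗ N.mkQ, fun v hv => ?_, hf⟩
  have : N.mkQ v = 0 := by
    rw [Submodule.mkQ_apply, Submodule.Quotient.mk_eq_zero]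
    exact hv
  simp only [LinearMap.comp_apply, this, map_zero]

variable {ι : Type} {σ : ℝ} {J : Finset ι} {h : ι → ℂ → ℂ}

theorem Sm.of_le {s t g : ℂ → ℂ} (hs : Sm σ J h s) (ht : Sm σ J h t) (hg : Differentiable ℂ g)
    (hle : ∀ z, ‖g z‖ ≤ ‖s z‖ + ‖t z‖) : Sm σ J h g := by
  obtain ⟨hs, C1, A1, N1, hC1, hA1, h1⟩ := hs
  obtain ⟨ht, C2, A2, N2, hC2, hA2, h2⟩ := ht
  refine ⟨hg, C1 + C2, A1 + A2, N1 + N2, by positivity, by positivity,
    fun z δ b hδ hδ1 hb hh => ?_⟩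
  have hq := one_le_q hδ hδ1 hb
  have e1 : (b / δ) ^ N1 ≤ (b / δ) ^ (N1 + N2) := pow_le_pow_right₀ hq (by omega)
  have e2 : (b / δ) ^ N2 ≤ (b / δ) ^ (N1 + N2) := pow_le_pow_right₀ hq (by omega)
  have e3 : Real.exp (A1 * Real.exp (σ * ‖z‖)) ≤ Real.exp ((A1 + A2) * Real.exp (σ * ‖z‖)) := by
    gcongr; linarith
  have e4 : Real.exp (A2 * Real.exp (σ * ‖z‖)) ≤ Real.exp ((A1 + A2) * Real.exp (σ * ‖z‖)) := by
    gcongr; linarith
  calc ‖g z‖ ≤ ‖s z‖ + ‖t z‖ := hle z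
    _ ≤ C1 * (b / δ) ^ N1 * Real.exp (A1 * Real.exp (σ * ‖z‖)) +
        C2 * (b / δ) ^ N2 * Real.exp (A2 * Real.exp (σ * ‖z‖)) :=
        add_le_add (h1 z δ b hδ hδ1 hb hh) (h2 z δ b hδ hδ1 hb hh)
    _ ≤ C1 * (b / δ) ^ (N1 + N2) * Real.exp ((A1 + A2) * Real.exp (σ * ‖z‖)) +
        C2 * (b / δ) ^ (N1 + N2) * Real.exp ((A1 + A2) * Real.exp (σ * ‖z‖)) := by
        apply add_le_add
        · exact mul_le_mul (mul_le_mul_of_nonneg_left e1 hC1) e3 (by positivity)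
            (by positivity)
        · exact mul_le_mul (mul_le_mul_of_nonneg_left e2 hC2) e4 (by positivity)
            (by positivity)
    _ = (C1 + C2) * (b / δ) ^ (N1 + N2) * Real.exp ((A1 + A2) * Real.exp (σ * ‖z‖)) := by ring

/-- the exponential of `g` is a quotient of small functions -/
def Q1 (σ : ℝ) (J : Finset ι) (h : ι → ℂ → ℂ) (g : ℂ → ℂ) : Prop :=
  ∃ u w : ℂ → ℂ, Sm σ J h u ∧ Sm σ J h w ∧ (∃ z, u z ≠ 0) ∧ ∀ z, u z * cexp (g z) = w z

theorem ne_of_mul {u v : ℂ → ℂ} (hu : Differentiable ℂ u) (hv : Differentiable ℂ v)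
    (hu0 : ∃ z, u z ≠ 0) (hv0 : ∃ z, v z ≠ 0) : ∃ z, u z * v z ≠ 0 := by
  by_contra hcon
  push Not at hcon
  rcases mul_zero_or hu hv hcon with h1 | h1
  · obtain ⟨z, hz⟩ := hu0; exact hz (h1 z)
  · obtain ⟨z, hz⟩ := hv0; exact hz (h1 z)

theorem Q1.zero : Q1 σ J h (fun _ => 0) :=
  ⟨fun _ => 1, fun _ => 1, Sm.const 1, Sm.const 1, ⟨0, one_ne_zero⟩, fun z => by simp⟩

theorem Q1.add {f g : ℂ → ℂ} (hf : Q1 σ J h f) (hg : Q1 σ J h g) :
    Q1 σ J h (fun z => f z + g z) := by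
  obtain ⟨u, w, hu, hw, hu0, e⟩ := hf
  obtain ⟨u', w', hu', hw', hu0', e'⟩ := hg
  refine ⟨fun z => u z * u' z, fun z => w z * w' z, hu.mul hu', hw.mul hw',
    ne_of_mul hu.1 hu'.1 hu0 hu0', fun z => ?_⟩
  dsimp only
  rw [Complex.exp_add, ← e z, ← e' z]; ring

theorem Q1.neg {f : ℂ → ℂ} (hf : Q1 σ J h f) : Q1 σ J h (fun z => -f z) := by
  obtain ⟨u, w, hu, hw, ⟨z0, hz0⟩, e⟩ := hf
  refine ⟨w, u, hw, hu, ⟨z0, ?_⟩, fun z => ?_⟩
  · rw [← e z0]; exact mul_ne_zero hz0 (Complex.exp_ne_zero _)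
  · rw [← e z, mul_assoc, ← Complex.exp_add]; simp

theorem Q1.of_nsmul {f : ℂ → ℂ} (hfd : Differentiable ℂ f) {n : ℕ} (hn : n ≠ 0)
    (hf : Q1 σ J h (fun z => n * f z)) : Q1 σ J h f := by
  obtain ⟨u, w, hu, hw, hu0, e⟩ := hf
  refine ⟨u, fun z => u z * cexp (f z), hu, ?_, hu0, fun z => rfl⟩
  refine Sm.of_le hu hw (hu.1.mul hfd.cexp) fun z => ?_
  set M : ℝ := max ‖u z‖ ‖w z‖ with hM
  have hM0 : 0 ≤ M := le_max_of_le_left (norm_nonneg _)
  have h1 : ‖u z * cexp (f z)‖ ^ n ≤ M ^ n := by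
    obtain ⟨k, rfl⟩ := Nat.exists_eq_succ_of_ne_zero hn
    have e1 : (u z * cexp (f z)) ^ (k + 1) = u z ^ k * w z := by
      rw [← e z, mul_pow, ← Complex.exp_nat_mul, pow_succ]
      ring
    have e2 : ‖u z * cexp (f z)‖ ^ (k + 1) = ‖u z‖ ^ k * ‖w z‖ := by
      rw [← norm_pow, e1, norm_mul, norm_pow]
    rw [Nat.succ_eq_add_one, e2, pow_succ]
    exact mul_le_mul (pow_le_pow_left₀ (norm_nonneg _) (le_max_left _ _) _) (le_max_right _ _)
      (norm_nonneg _) (by positivity)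
  have h2 : ‖u z * cexp (f z)‖ ≤ M := le_of_pow_le_pow_left₀ hn hM0 h1
  refine h2.trans ?_
  apply max_le
  · have := norm_nonneg (w z); linarith
  · have := norm_nonneg (u z); linarith

/-- integral combinations of four functions -/
noncomputable def hx (U V C E : ℂ → ℂ) (v : ℤ × ℤ × ℤ × ℤ) (z : ℂ) : ℂ :=
  v.1 * U z + v.2.1 * V z + v.2.2.1 * C z + v.2.2.2 * E z

variable {U V C E : ℂ → ℂ}

theorem hx_diff (hU : Differentiable ℂ U) (hV : Differentiable ℂ V) (hC : Differentiable ℂ C)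
    (hE : Differentiable ℂ E) (v : ℤ × ℤ × ℤ × ℤ) : Differentiable ℂ (hx U V C E v) := by
  unfold hx
  fun_prop

/-- the exponents with small exponentials -/
noncomputable def NN (J : Finset ι) (h : ι → ℂ → ℂ) (U V C E : ℂ → ℂ) :
    AddSubgroup (ℤ × ℤ × ℤ × ℤ) where
  carrier := {v | Q1 0 J h (hx U V C E v)}
  add_mem' := by
    intro a b ha hb
    have := Q1.add ha hb
    refine (congrArg (Q1 0 J h) ?_).mp this
    funext z
    simp only [hx, Prod.fst_add, Prod.snd_add]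
    push_cast
    ring
  zero_mem' := by
    have := Q1.zero (σ := 0) (J := J) (h := h)
    refine (congrArg (Q1 0 J h) ?_).mp this
    funext z
    simp [hx]
  neg_mem' := by
    intro a ha
    have := Q1.neg ha
    refine (congrArg (Q1 0 J h) ?_).mp this
    funext z
    simp only [hx, Prod.fst_neg, Prod.snd_neg]
    push_cast
    ring

theorem NN_sat (hU : Differentiable ℂ U) (hV : Differentiable ℂ V) (hC : Differentiable ℂ C)
    (hE : Differentiable ℂ E) (r : ℤ) (v : ℤ × ℤ × ℤ × ℤ) (hv : r • v ∈ NN J h U V C E) :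
    r = 0 ∨ v ∈ NN J h U V C E := by
  by_cases hr : r = 0
  · exact Or.inl hr
  right
  have h1 : r.natAbs • v ∈ NN J h U V C E := by
    rcases Int.natAbs_eq r with h | h
    · rw [h] at hv
      rwa [natCast_zsmul] at hv
    · rw [h] at hv
      rw [neg_smul, natCast_zsmul] at hv
      simpa using neg_mem hv
  have h2 : Q1 0 J h (fun z => (r.natAbs : ℂ) * hx U V C E v z) := by
    have h3 : Q1 0 J h (hx U V C E (r.natAbs • v)) := h1
    refine (congrArg (Q1 0 J h) ?_).mp h3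
    funext z
    simp only [hx, Prod.smul_fst, Prod.smul_snd]
    simp only [nsmul_eq_mul, Int.cast_mul, Int.cast_natCast]
    ring
  exact Q1.of_nsmul (hx_diff hU hV hC hE v) (Int.natAbs_ne_zero.2 hr) h2

end Pool.Agent.V11202.NH
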