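import Pool.Agent.V11202.NH.Core

/-!
Meromorphic functions sharing values with multiplicities.
-/

set_option autoImplicit false

open Complex Set Metric Filter Topology

namespace Pool.Agent.V11202.NH

/-- `g` and `h` share the finite value `a` CM: the functions `g - a` and `h - a` have the same zeros
with the same multiplicities -/
def ShareCM (g h : ℂ → ℂ) (a : ℂ) : Prop :=
  ∀ z, max (meromorphicOrderAt (fun w => g w - a) z) 0 =
    max (meromorphicOrderAt (fun w => h w - a) z) 0

/-- `g` and `h` share `∞` CM: they have the same poles with the same multiplicities -/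
def ShareInfCM (g h : ℂ → ℂ) : Prop :=
  ∀ z, min (meromorphicOrderAt g z) 0 = min (meromorphicOrderAt h z) 0

theorem order_shift (f : ℂ → ℂ) (c z : ℂ) :
    meromorphicOrderAt (fun w => f (w + c)) z = meromorphicOrderAt f (z + c) :=
  meromorphicOrderAt_comp_add_const_eq_meromorphicOrderAt

theorem mero_shift {f : ℂ → ℂ} (hf : Meromorphic f) (c : ℂ) : Meromorphic fun w => f (w + c) := by
  intro z
  have h := hf (z + c)
  exact h.comp_analyticAt (g := fun w => w + c) (by fun_prop)

theorem order_deriv_nonneg {f : ℂ → ℂ} (hf : Meromorphic f) {z : ℂ}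
    (h : 0 ≤ meromorphicOrderAt f z) : 0 ≤ meromorphicOrderAt (deriv f) z := by
  obtain ⟨g, hg, hfg⟩ := (hf z).meromorphicOrderAt_nonneg_iff.1 h
  rw [meromorphicOrderAt_congr hfg.nhdsNE_deriv]
  exact hg.deriv.meromorphicOrderAt_nonneg

theorem nopole {f : ℂ → ℂ} (hf : Meromorphic f) {c : ℂ}
    (hs : ShareInfCM (deriv f) (fun z => f (z + c) - f z)) (z : ℂ) :
    0 ≤ meromorphicOrderAt f z := by
  have hfs := mero_shift hf c
  have hD : Meromorphic fun z => f (z + c) - f z := fun z => (hfs z).sub (hf z)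
  have hsum : (fun z => f (z + c) - f z) + f = fun w => f (w + c) := by
    funext w
    simp
  have A : ∀ (z : ℂ) (n : ℤ), meromorphicOrderAt f z = n → n < 0 →
      meromorphicOrderAt f (z + c) = ((n - 1 : ℤ) : WithTop ℤ) := by
    intro z n hn hn0
    have h1 : meromorphicOrderAt (deriv f) z = ((n - 1 : ℤ) : WithTop ℤ) :=
      meromorphicOrderAt_deriv_eq_sub_one (by exact_mod_cast hn0.ne) hn
    have h2 := hs z
    rw [h1] at h2
    have h3 : (((n - 1 : ℤ) : WithTop ℤ)) < 0 := by
      exact_mod_cast (show n - 1 < 0 by omega)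
    rw [min_eq_left h3.le] at h2
    have h4 : meromorphicOrderAt (fun z => f (z + c) - f z) z = ((n - 1 : ℤ) : WithTop ℤ) := by
      rcases min_choice (meromorphicOrderAt (fun z => f (z + c) - f z) z) 0 with h5 | h5
      · rw [h5] at h2; exact h2.symm
      · rw [h5] at h2
        rw [h2] at h3
        exact absurd h3 (lt_irrefl _)
    rw [← order_shift f c z, ← hsum]
    rw [meromorphicOrderAt_add_eq_left_of_lt (hf z)]
    · exact h4
    · rw [h4, hn]
      exact_mod_cast (show n - 1 < n by omega)
  have B : ∀ z : ℂ, 0 ≤ meromorphicOrderAt f z → 0 ≤ meromorphicOrderAt f (z + c) := by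
    intro z hz
    have h1 := order_deriv_nonneg hf hz
    have h2 := hs z
    rw [min_eq_right h1] at h2
    have h3 : 0 ≤ meromorphicOrderAt (fun z => f (z + c) - f z) z := by
      rw [h2]; exact min_le_left _ _
    rw [← order_shift f c z, ← hsum]
    exact (le_min h3 hz).trans (meromorphicOrderAt_add (hD z) (hf z))
  have key : ∀ (j : ℕ) (z : ℂ), meromorphicOrderAt f z = ((-(j + 1) : ℤ) : WithTop ℤ) → False := by
    intro j
    induction j with
    | zero =>
      intro z hz
      by_cases h1 : 0 ≤ meromorphicOrderAt f (z - c)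
      · have h2 := B (z - c) h1
        rw [sub_add_cancel, hz] at h2
        have : (0 : ℤ) ≤ -((0 : ℕ) + 1) := by exact_mod_cast h2
        omega
      · push Not at h1
        obtain ⟨n, hn⟩ := WithTop.ne_top_iff_exists.1 (ne_top_of_lt h1)
        rw [← hn] at h1
        have hn0 : n < 0 := by exact_mod_cast h1
        have h2 := A (z - c) n hn.symm hn0
        rw [sub_add_cancel, hz] at h2
        have h3 : (-((0 : ℕ) + 1) : ℤ) = n - 1 := by exact_mod_cast h2
        omega
    | succ j ih =>
      intro z hz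
      by_cases h1 : 0 ≤ meromorphicOrderAt f (z - c)
      · have h2 := B (z - c) h1
        rw [sub_add_cancel, hz] at h2
        have : (0 : ℤ) ≤ -((j + 1 : ℕ) + 1) := by exact_mod_cast h2
        omega
      · push Not at h1
        obtain ⟨n, hn⟩ := WithTop.ne_top_iff_exists.1 (ne_top_of_lt h1)
        rw [← hn] at h1
        have hn0 : n < 0 := by exact_mod_cast h1
        have h2 := A (z - c) n hn.symm hn0
        rw [sub_add_cancel, hz] at h2
        have h3 : (-((j + 1 : ℕ) + 1) : ℤ) = n - 1 := by exact_mod_cast h2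
        apply ih (z - c)
        rw [← hn]
        have : n = -(j + 1) := by omega
        rw [this]
  by_contra hcon
  push Not at hcon
  obtain ⟨n, hn⟩ := WithTop.ne_top_iff_exists.1 (ne_top_of_lt hcon)
  rw [← hn] at hcon
  have hn0 : n < 0 := by exact_mod_cast hcon
  apply key (-n - 1).toNat z
  rw [← hn]
  have : (-(((-n - 1).toNat : ℤ) + 1)) = n := by omega
  rw [this]

/-- a meromorphic function without poles is entire up to removable singularities -/
theorem entire_version {f : ℂ → ℂ} (hf : Meromorphic f) (h0 : ∀ z, 0 ≤ meromorphicOrderAt f z) :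
    ∃ F : ℂ → ℂ, Differentiable ℂ F ∧ (∀ z, f =ᶠ[𝓝[≠] z] F) ∧ f =ᶠ[codiscrete ℂ] F := by
  have hfo : MeromorphicOn f univ := fun z _ => hf z
  refine ⟨toMeromorphicNFOn f univ, fun z => ?_, fun z => ?_, ?_⟩
  · have h1 := meromorphicNFOn_toMeromorphicNFOn f univ (mem_univ z)
    have h2 : 0 ≤ meromorphicOrderAt (toMeromorphicNFOn f univ) z := by
      rw [meromorphicOrderAt_toMeromorphicNFOn hfo (mem_univ z)]
      exact h0 z
    exact (h1.meromorphicOrderAt_nonneg_iff_analyticAt.1 h2).differentiableAt
  · exact (hfo.toMeromorphicNFOn_eq_self_on_nhdsNE (mem_univ z)).symm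
  · exact toMeromorphicNFOn_eqOn_codiscrete hfo

theorem shift_ev {f F : ℂ → ℂ} (h : ∀ z, f =ᶠ[𝓝[≠] z] F) (c z : ℂ) :
    (fun w => f (w + c)) =ᶠ[𝓝[≠] z] fun w => F (w + c) := by
  have h1 := h (z + c)
  have h2 : Tendsto (fun w : ℂ => w + c) (𝓝[≠] z) (𝓝[≠] (z + c)) := by
    apply tendsto_nhdsWithin_of_tendsto_nhds_of_eventually_within
    · exact ((continuous_id.add continuous_const).tendsto z).mono_left nhdsWithin_le_nhds
    · filter_upwards [self_mem_nhdsWithin] with w hw
      intro h3
      exact hw (add_right_cancel h3)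
  exact h2.eventually h1

/-- sharing a value CM gives an exponential factor -/
theorem exp_quot {g h : ℂ → ℂ} (hg : Differentiable ℂ g) (hh : Differentiable ℂ h) {a : ℂ}
    (hs : ShareCM g h a) (hne : ∃ z, g z ≠ a) :
    ∃ U : ℂ → ℂ, Differentiable ℂ U ∧ ∀ z, g z - a = cexp (U z) * (h z - a) := by
  set p : ℂ → ℂ := fun z => g z - a with hp
  set q : ℂ → ℂ := fun z => h z - a with hq
  have hpd : Differentiable ℂ p := hg.sub_const a
  have hqd : Differentiable ℂ q := hh.sub_const a
  have hpm : Meromorphic p := fun z => (hpd.analyticAt z).meromorphicAt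
  have hqm : Meromorphic q := fun z => (hqd.analyticAt z).meromorphicAt
  have hord : ∀ z, meromorphicOrderAt p z = meromorphicOrderAt q z := by
    intro z
    have h1 := hs z
    rw [max_eq_left (hpd.analyticAt z).meromorphicOrderAt_nonneg,
      max_eq_left (hqd.analyticAt z).meromorphicOrderAt_nonneg] at h1
    exact h1
  have hptop : ∀ z, meromorphicOrderAt p z ≠ ⊤ := by
    obtain ⟨z0, hz0⟩ := hne
    have h1 : meromorphicOrderAt p z0 ≠ ⊤ := by
      intro h2
      rw [meromorphicOrderAt_eq_top_iff] at h2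
      have h3 : p =ᶠ[𝓝 z0] fun _ => 0 := by
        have hc : ContinuousAt (fun _ : ℂ => (0 : ℂ)) z0 := continuousAt_const
        exact ((hpd.continuous.continuousAt).eventuallyEq_nhds_iff_eventuallyEq_nhdsNE hc).1 h2
      exact hz0 (sub_eq_zero.1 h3.eq_of_nhds)
    intro z
    exact (show MeromorphicOn p univ from fun z _ => hpm z).meromorphicOrderAt_ne_top_of_isPreconnected
      isPreconnected_univ (mem_univ z0) (mem_univ z) h1
  have hqtop : ∀ z, meromorphicOrderAt q z ≠ ⊤ := fun z => by rw [← hord z]; exact hptop z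
  have hrm : MeromorphicOn (p / q) univ := fun z _ => (hpm z).div (hqm z)
  set R : ℂ → ℂ := toMeromorphicNFOn (p / q) univ with hR
  have hRo : ∀ z, meromorphicOrderAt R z = 0 := by
    intro z
    rw [hR, meromorphicOrderAt_toMeromorphicNFOn hrm (mem_univ z),
      meromorphicOrderAt_div (hpm z) (hqm z), hord z]
    obtain ⟨n, hn⟩ := WithTop.ne_top_iff_exists.1 (hqtop z)
    rw [← hn]
    norm_cast
    simp
  have hRn : ∀ z, MeromorphicNFAt R z := fun z =>
    meromorphicNFOn_toMeromorphicNFOn (p / q) univ (mem_univ z)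
  have hRd : Differentiable ℂ R := fun z =>
    ((hRn z).meromorphicOrderAt_nonneg_iff_analyticAt.1 (hRo z).ge).differentiableAt
  have hR0 : ∀ z, R z ≠ 0 := fun z => (hRn z).meromorphicOrderAt_eq_zero_iff.1 (hRo z)
  have hRq : ∀ z, R z * q z = p z := by
    intro z
    have h1 : R =ᶠ[𝓝[≠] z] p / q := hrm.toMeromorphicNFOn_eq_self_on_nhdsNE (mem_univ z)
    have h2 := (meromorphicOrderAt_ne_top_iff_eventually_ne_zero (hqm z)).1 (hqtop z)
    have h3 : (fun w => R w * q w) =ᶠ[𝓝[≠] z] p := by
      filter_upwards [h1, h2] with w hw hw2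
      rw [hw, Pi.div_apply, div_mul_cancel₀ _ hw2]
    have h4 : (fun w => R w * q w) =ᶠ[𝓝 z] p :=
      (((hRd.mul hqd).continuous.continuousAt).eventuallyEq_nhds_iff_eventuallyEq_nhdsNE
        hpd.continuous.continuousAt).1 h3
    exact h4.eq_of_nhds
  obtain ⟨U, hU, hUe⟩ := Pool.Agent.TH242.MK.exists_log hRd hR0
  exact ⟨U, hU, fun z => by rw [hUe z]; exact (hRq z).symm⟩

end Pool.Agent.V11202.NH
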