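import Pool.Agent.V11202.NH.Lam
import Pool.Agent.V11202.NH.Growth

/-!
If all the exponentials are quotients of small functions, then the exponents are of polynomial
growth.
-/

set_option autoImplicit false

open Complex Set Metric Filter Topology
open Pool.Agent.TH242.MK

namespace Pool.Agent.V11202.NH

variable {ι : Type} {J : Finset ι} {h : ι → ℂ → ℂ}

theorem tame (hd : ∀ i, Differentiable ℂ (h i)) {i0 : ι} (hi0 : ∀ z, h i0 z = 0)
    (hQ : ∀ j ∈ J, Q1 0 J h (h j)) :
    ∃ K : ℝ, 0 < K ∧ ∀ j ∈ J, ∀ z, ‖h j z‖ ≤ K * (1 + ‖z‖) ^ 4 := by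
  classical
  obtain ⟨D, w, hD, ⟨c, hc⟩, hw⟩ := common (σ := 0) (J := J) (h := h) (i0 := i0) J (by
    intro j hj
    obtain ⟨u, v, hu, hv, hu0, e⟩ := hQ j hj
    exact ⟨u, v, hu, hv, hu0, fun z => by rw [e z, hi0 z, Complex.exp_zero, mul_one]⟩)
  have hw' : ∀ j ∈ J, ∀ z, D z * cexp (h j z) = w j z := by
    intro j hj z
    rw [(hw j hj).2 z, hi0 z, Complex.exp_zero, mul_one]
  have hex : ∀ j : ι, ∃ A : ℝ, 0 ≤ A ∧ (j ∈ J → ∀ r δ : ℝ, 1 ≤ r → 0 < δ → ∀ z ∈ closedBall c r,
      ‖h j z‖ ≤ A * (1 + r / δ) ^ 2 *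
        (1 + Real.log (Mx J h c (r + δ)) + max 0 (Real.log (1 / δ)) + 1)) := by
    intro j
    by_cases hj : j ∈ J
    · obtain ⟨A, hA, hb⟩ := step1 le_rfl hd hD (hw j hj).1 (hd j) (hw' j hj) hc
      refine ⟨A, hA, fun _ r δ hr hδ z hz => ?_⟩
      have := hb r δ hr hδ z hz
      rwa [zero_mul, Real.exp_zero] at this
    · exact ⟨0, le_rfl, fun hh => absurd hh hj⟩
  choose A hA hb using hex
  set S : ℝ := ∑ j ∈ J, A j with hS
  have hS0 : 0 ≤ S := Finset.sum_nonneg fun j _ => hA j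
  obtain ⟨K, hK, hKb⟩ := growth_poly (M := Mx J h c) (Mx.mono hd c) (Mx.e_le c)
    (A := Real.exp 1 + J.card * S) (by positivity) (by
    intro r δ hr hδ
    set E : ℝ := 1 + Real.log (Mx J h c (r + δ)) + max 0 (Real.log (1 / δ)) + 1 with hE
    have hE1 : 1 ≤ E := by
      have h1 : 1 ≤ Real.log (Mx J h c (r + δ)) := by
        rw [Real.le_log_iff_exp_le (lt_of_lt_of_le (Real.exp_pos 1) (Mx.e_le c _))]
        exact Mx.e_le c _
      have h2 := le_max_left 0 (Real.log (1 / δ))
      linarith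
    have hX1 : 1 ≤ 1 + r / δ := by
      have : 0 ≤ r / δ := by positivity
      linarith
    have h3 : Mx J h c r ≤ Real.exp 1 + J.card * (S * (1 + r / δ) ^ 2 * E) := by
      apply Mx.le c (by linarith)
      intro i hi z hz
      refine (hb i hi r δ hr hδ z hz).trans ?_
      have h4 : A i ≤ S := Finset.single_le_sum (fun j _ => hA j) hi
      gcongr
    have h5 : Real.exp 1 ≤ Real.exp 1 * ((1 + r / δ) ^ 2 * E) := by
      apply le_mul_of_one_le_right (Real.exp_pos 1).le
      have := one_le_pow₀ (n := 2) hX1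
      nlinarith
    calc Mx J h c r ≤ Real.exp 1 + J.card * (S * (1 + r / δ) ^ 2 * E) := h3
      _ ≤ Real.exp 1 * ((1 + r / δ) ^ 2 * E) + J.card * (S * (1 + r / δ) ^ 2 * E) := by
          linarith
      _ = (Real.exp 1 + J.card * S) * (1 + r / δ) ^ 2 * E := by ring)
  refine ⟨K * (1 + ‖c‖) ^ 4, by positivity, fun j hj z => ?_⟩
  have h1 : ‖h j z‖ ≤ Mx J h c (1 + ‖z‖ + ‖c‖) := by
    apply Mx.ge hd _ hj
    · rw [mem_closedBall, dist_eq_norm]
      have := norm_sub_le z c
      linarith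
    · positivity
  have h2 := hKb (1 + ‖z‖ + ‖c‖) (by have := norm_nonneg z; have := norm_nonneg c; linarith)
  refine (h1.trans h2).trans ?_
  have h3 : (1 + ‖z‖ + ‖c‖) ^ 4 ≤ ((1 + ‖c‖) * (1 + ‖z‖)) ^ 4 := by
    apply pow_le_pow_left₀ (by positivity)
    have : 0 ≤ ‖c‖ * ‖z‖ := by positivity
    linarith
  calc K * (1 + ‖z‖ + ‖c‖) ^ 4 ≤ K * ((1 + ‖c‖) * (1 + ‖z‖)) ^ 4 :=
        mul_le_mul_of_nonneg_left h3 hK.le
    _ = K * (1 + ‖c‖) ^ 4 * (1 + ‖z‖) ^ 4 := by ring

/-- polynomial growth -/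
def Pg (f : ℂ → ℂ) : Prop := ∃ K : ℝ, 0 < K ∧ ∀ z, ‖f z‖ ≤ K * (1 + ‖z‖) ^ 4

theorem Pg.const (c : ℂ) : Pg (fun _ => c) := by
  refine ⟨‖c‖ + 1, by positivity, fun z => ?_⟩
  have : 1 ≤ (1 + ‖z‖) ^ 4 := one_le_pow₀ (by have := norm_nonneg z; linarith)
  have := norm_nonneg c
  nlinarith

theorem const_of_deriv_zero {f : ℂ → ℂ} (hf : Differentiable ℂ f) (h : ∀ z, deriv f z = 0) :
    ∃ c, ∀ z, f z = c :=
  ⟨f 0, fun z => is_const_of_deriv_eq_zero hf h z 0⟩

theorem Pg.of_const {f : ℂ → ℂ} (h : ∃ c, ∀ z, f z = c) : Pg f := by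
  obtain ⟨c, hc⟩ := h
  have : f = fun _ => c := funext hc
  rw [this]
  exact Pg.const c

theorem deriv_cexp {U : ℂ → ℂ} (hU : Differentiable ℂ U) (z : ℂ) :
    deriv (fun z => cexp (U z)) z = deriv U z * cexp (U z) := by
  rw [((hU z).hasDerivAt.cexp).deriv]; ring

/-- two exponentials with constant difference -/
theorem two {U V : ℂ → ℂ} (hU : Differentiable ℂ U) (hV : Differentiable ℂ V) {κ : ℂ}
    (hκ : κ ≠ 0) (h : ∀ z, cexp (U z) - cexp (V z) = κ) : Pg U ∧ Pg V := by
  have hder : ∀ z, deriv U z * cexp (U z) = deriv V z * cexp (V z) := by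
    intro z
    have h1 : HasDerivAt (fun z => cexp (U z) - cexp (V z))
        (cexp (U z) * deriv U z - cexp (V z) * deriv V z) z :=
      ((hU z).hasDerivAt.cexp).sub ((hV z).hasDerivAt.cexp)
    have h2 : (fun z => cexp (U z) - cexp (V z)) = fun _ => κ := funext h
    rw [h2] at h1
    have h3 := h1.unique (hasDerivAt_const z κ)
    linear_combination h3
  by_cases hc : ∀ z, deriv V z - deriv U z = 0
  · have h1 : ∀ z, deriv V z = 0 := by
      intro z
      have h2 := hder z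
      have h3 := hc z
      have h4 := h z
      have h5 : deriv V z * κ = 0 := by
        rw [← h4]
        have : deriv U z = deriv V z := by linear_combination -h3
        rw [this] at h2
        linear_combination h2
      exact (mul_eq_zero.1 h5).resolve_right hκ
    have h2 : ∀ z, deriv U z = 0 := fun z => by
      have := hc z
      rw [h1 z] at this
      linear_combination -this
    exact ⟨Pg.of_const (const_of_deriv_zero hU h2), Pg.of_const (const_of_deriv_zero hV h1)⟩
  · push Not at hc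
    set hh : Fin 3 → ℂ → ℂ := ![fun _ => 0, U, V] with hhh
    have hd : ∀ i, Differentiable ℂ (hh i) := by
      intro i
      fin_cases i
      · exact differentiable_const 0
      · exact hU
      · exact hV
    have hSU : Sm 0 Finset.univ hh (fun z => deriv U z) :=
      (Sm.base (i := (1 : Fin 3)) (Finset.mem_univ _) (hd 1)).deriv le_rfl
    have hSV : Sm 0 Finset.univ hh (fun z => deriv V z) :=
      (Sm.base (i := (2 : Fin 3)) (Finset.mem_univ _) (hd 2)).deriv le_rfl
    have hQU : Q1 0 Finset.univ hh U := by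
      refine ⟨fun z => deriv V z - deriv U z, fun z => κ * deriv V z, hSV.sub hSU,
        (Sm.const κ).mul hSV, hc, fun z => ?_⟩
      have h2 := hder z
      have h4 := h z
      linear_combination deriv V z * h4 - h2
    have hQV : Q1 0 Finset.univ hh V := by
      refine ⟨fun z => deriv V z - deriv U z, fun z => κ * deriv U z, hSV.sub hSU,
        (Sm.const κ).mul hSU, hc, fun z => ?_⟩
      have h2 := hder z
      have h4 := h z
      linear_combination deriv U z * h4 - h2
    obtain ⟨K, hK, hb⟩ := tame (J := Finset.univ) (h := hh) hd (i0 := 0) (fun z => rfl) (by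
      intro j _
      fin_cases j
      · exact Q1.zero
      · exact hQU
      · exact hQV)
    exact ⟨⟨K, hK, hb 1 (Finset.mem_univ _)⟩, ⟨K, hK, hb 2 (Finset.mem_univ _)⟩⟩

end Pool.Agent.V11202.NH
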